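import Pool.Agent.N996.TQ.Li
import Pool.Agent.N996.FP.Sd

/-!
# Brackets with the elements of the Lie algebra of the Hodge group
-/

set_option linter.unusedSectionVars false

namespace Pool.Agent.N996.TQ

open Matrix Pool.Agent.N996.BP Pool.Agent.N996.FP ComplexConjugate ComplexOrder

variable {ι : Type} [Fintype ι] [DecidableEq ι] {H : HData ι}
  {A : Type} [Ring A] [Algebra ℂ A] (D : AData H A)

/-- The Lie algebra of the Hodge group acts by derivations. -/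
noncomputable def toPDo (htop : ∃ v : Fin (Module.finrank ℂ D.V) → D.V, pL D.L v ≠ 0) :
    PD (ho H) 1 A where
  ε := D.ε
  V := D.V
  der w hw a b := D.der_ho hw a b
  stab w hw v hv := D.V_ho hw hv
  mul a b := by simp only [aop_one']
  one := aop_one' _ _
  sq v := D.L_sq v
  top := htop
  gen := by
    rw [← D.gen]
    congr 1

/-- Products of elements of degree one. -/
lemma pL_deg (hgr : ∀ i j k, D.c k i j ≠ 0 → D.deg k = D.deg i + D.deg j)
    (h1 : D.deg H.D.o = 0) {k : ℕ} (v : Fin k → D.V) (i : ι) (hi : D.deg i ≠ k) :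
    D.ε (pL D.L v) i = 0 := by
  induction k generalizing i with
  | zero =>
    have h2 : pL D.L v = 1 := by rw [pL]; simp
    rw [h2, D.one, Pi.single_eq_of_ne]
    rintro rfl
    exact hi h1
  | succ k ih =>
    rw [pL_cons, D.prod_apply]
    refine Finset.sum_eq_zero fun a _ => Finset.sum_eq_zero fun b _ => ?_
    by_cases hc : D.c i a b = 0
    · rw [hc, Rat.cast_zero, zero_mul]
    · have h2 := hgr a b i hc
      by_cases ha : D.deg a = 1
      · have hb : D.deg b ≠ k := by omega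
        have h3 := ih (fun j => v j.succ) b hb
        have h4 : D.ε (pL D.L (Fin.tail v)) b = 0 := h3
        first
          | rw [h4, mul_zero, mul_zero]
          | rw [h3, mul_zero, mul_zero]
      · have h3 : D.ε (D.L (v 0)) a = 0 := by
          rw [AData.L_apply, LinearEquiv.apply_symm_apply]
          exact (v 0).2 a ha
        rw [h3, zero_mul, mul_zero]

/-- The projectors to the degrees. -/
def Eq (deg : ι → ℕ) (δ : ℕ) : Matrix ι ι ℚ := Matrix.diagonal fun i => if deg i = δ then 1 else 0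

lemma cQ_Eq (deg : ι → ℕ) (δ : ℕ) :
    cQ (Eq deg δ) = Matrix.diagonal fun i => if deg i = δ then (1 : ℂ) else 0 := by
  rw [Eq]
  ext i j
  rw [cQ, Matrix.map_apply, Matrix.diagonal_apply, Matrix.diagonal_apply]
  split_ifs <;> simp

lemma Eq_HE (δ : ℕ) : IsHE H (Eq D.deg δ) := by
  intro t ht
  rw [cQ_Eq]
  ext i j
  rw [Matrix.mul_diagonal, Matrix.diagonal_mul]
  by_cases h : D.deg i = D.deg j
  · rw [h]; ring
  · rw [D.ldeg t ht i j h, mul_zero, zero_mul]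

lemma Eq_pv (hgr : ∀ i j k, D.c k i j ≠ 0 → D.deg k = D.deg i + D.deg j)
    (h1 : D.deg H.D.o = 0) (htop : ∃ v : Fin (Module.finrank ℂ D.V) → D.V, pL D.L v ≠ 0)
    (δ k : ℕ) (v : Fin k → (toPDo D htop).V) :
    ∃ c : ℂ, cQ (Eq D.deg δ) *ᵥ (toPDo D htop).pv v = c • (toPDo D htop).pv v := by
  refine ⟨if k = δ then 1 else 0, ?_⟩
  have h2 : (toPDo D htop).pv v = D.ε (pL D.L (show Fin k → D.V from v)) := rfl
  funext i
  rw [cQ_Eq, Matrix.mulVec_diagonal, Pi.smul_apply, smul_eq_mul, h2]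
  by_cases hi : D.deg i = k
  · rw [hi]
  · rw [pL_deg D hgr h1 _ i hi, mul_zero, mul_zero]

lemma Eq_pv' (hgr : ∀ i j k, D.c k i j ≠ 0 → D.deg k = D.deg i + D.deg j)
    (h1 : D.deg H.D.o = 0) (htop : ∃ v : Fin (Module.finrank ℂ D.V) → D.V, pL D.L v ≠ 0)
    (k : ℕ) (v : Fin k → (toPDo D htop).V) :
    cQ (Eq D.deg k) *ᵥ (toPDo D htop).pv v = (toPDo D htop).pv v := by
  have h2 : (toPDo D htop).pv v = D.ε (pL D.L (show Fin k → D.V from v)) := rfl
  funext i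
  rw [cQ_Eq, Matrix.mulVec_diagonal, h2]
  by_cases hi : D.deg i = k
  · rw [if_pos hi, one_mul]
  · rw [pL_deg D hgr h1 _ i hi, mul_zero]

/-- The trace of an element of the Lie algebra. -/
lemma ho_trace (hP : cQ D.pr1 * cQ H.Qir = cQ H.Qir * (cQ D.pr1)ᵀ) {N : Matrix ι ι ℂ}
    (hN : N ∈ ho H) : (N * cQ D.pr1).trace = 0 := by
  obtain ⟨P, hPd⟩ : ∃ P, P = cQ D.pr1 := ⟨_, rfl⟩
  obtain ⟨B, hB⟩ : ∃ B, B = cQ H.Qir := ⟨_, rfl⟩
  obtain ⟨Q, hQ⟩ : ∃ Q, Q = cQ H.Qr := ⟨_, rfl⟩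
  have hQB : Q * B = 1 := by rw [hQ, hB, ← cQ_mul, H.Qr_Qir, cQ_one]
  have hBQ : B * Q = 1 := mul_eq_one_comm.1 hQB
  have hsk : N * B + B * Nᵀ = 0 := by rw [hB]; exact ho_skew hN
  rw [← hPd, ← hB] at hP
  rw [← hPd]
  have h1 : N = -(B * Nᵀ * Q) := by
    have h2 := congrArg (fun M => M * Q) hsk
    beta_reduce at h2
    rw [Matrix.add_mul, Matrix.mul_assoc N, hBQ, Matrix.mul_one, Matrix.zero_mul] at h2
    exact eq_neg_of_add_eq_zero_left h2
  have h2 : Q * P = Pᵀ * Q := by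
    calc Q * P = Q * (P * B) * Q := by
          rw [Matrix.mul_assoc, Matrix.mul_assoc, hBQ, Matrix.mul_one]
      _ = Q * B * Pᵀ * Q := by rw [hP]; simp only [Matrix.mul_assoc]
      _ = Pᵀ * Q := by rw [hQB, Matrix.one_mul]
  have h3 : (N * P).trace = -(N * P).trace := by
    calc (N * P).trace = -(B * Nᵀ * (Q * P)).trace := by
          conv_lhs => rw [h1]
          rw [Matrix.neg_mul, Matrix.trace_neg, Matrix.mul_assoc (B * Nᵀ)]
      _ = -(B * (Nᵀ * Pᵀ * Q)).trace := by rw [h2]; simp only [Matrix.mul_assoc]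
      _ = -(Nᵀ * Pᵀ * (Q * B)).trace := by
          rw [Matrix.trace_mul_comm B, Matrix.mul_assoc (Nᵀ * Pᵀ)]
      _ = -(N * P).trace := by
          rw [hQB, Matrix.mul_one, ← Matrix.transpose_mul, Matrix.trace_transpose,
            Matrix.trace_mul_comm]
  exact self_eq_neg.1 h3

/-- The trace of the projector. -/
lemma pr1_trace : (cQ D.pr1).trace = (Module.finrank ℂ D.V : ℂ) := by
  have hPd : cQ D.pr1 * cQ D.pr1 = cQ D.pr1 := by rw [← cQ_mul, D.pr1_mul]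
  have hg : ∀ v, cQ D.pr1 *ᵥ v ∈ D.V := fun v => by
    rw [D.mem_V', Matrix.mulVec_mulVec, hPd]
  let b := Module.finBasis ℂ D.V
  rw [trace_basis b _ hg, Finset.sum_congr rfl fun j _ => (show
    b.repr ⟨cQ D.pr1 *ᵥ (b j : ι → ℂ), hg _⟩ j = 1 from ?_)]
  · rw [Finset.sum_const, Finset.card_univ, Fintype.card_fin, nsmul_eq_mul, mul_one]
  · have h1 : (⟨cQ D.pr1 *ᵥ (b j : ι → ℂ), hg _⟩ : D.V) = b j :=
      Subtype.ext (D.mem_V'.1 (b j).2)
    rw [h1, Module.Basis.repr_self, Finsupp.single_eq_same]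

/-- Positivity. -/
lemma ho_pos (hP : cQ D.pr1 * cQ H.Qir = cQ H.Qir * (cQ D.pr1)ᵀ) {Y : Matrix ι ι ℂ}
    (hY : Y ∈ ho H) (h0 : Y ≠ 0) : ∃ Z ∈ ho H, (Z * Y * cQ D.pr1).trace ≠ 0 := by
  obtain ⟨P, hPd⟩ : ∃ P, P = cji H (cQ D.pr1) := ⟨_, rfl⟩
  have hPP : P * P = P := by rw [hPd]; exact D.pr1n_mul
  have hPH : Pᴴ = P := by rw [hPd]; exact D.pr1n_herm hP
  have hYn : cji H Y ∈ hn H := by rw [mem_hn, cj_cji]; exact hY
  have hs : (cji H Y)ᴴ ∈ hn H := (isLA_hn H).star _ hYn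
  refine ⟨cj H (cji H Y)ᴴ, mem_hn H |>.1 hs, fun htr => h0 ?_⟩
  have h1 : ((cji H Y)ᴴ * cji H Y * P).trace = 0 := by
    rw [← cj_trace (H := H), cj_mul, cj_mul, hPd, cj_cji, cj_cji]
    exact htr
  have h2 : ((cji H Y * P)ᴴ * (cji H Y * P)).trace = 0 := by
    rw [Matrix.conjTranspose_mul, hPH, Matrix.mul_assoc, Matrix.trace_mul_comm]
    calc ((cji H Y)ᴴ * (cji H Y * P) * P).trace = ((cji H Y)ᴴ * cji H Y * (P * P)).trace := by
          simp only [Matrix.mul_assoc]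
      _ = 0 := by rw [hPP, h1]
  have h3 : cji H Y * P = 0 := Matrix.trace_conjTranspose_mul_self_eq_zero_iff.1 h2
  have h4 : cji H Y = 0 :=
    D.dn_zero (D.hn_le_dn hYn) (by rw [← hPd]; exact h3)
  rw [← cj_cji H Y, h4, cj, Matrix.mul_zero, Matrix.zero_mul]

/-- The Lie algebra is spanned by rational matrices. -/
lemma ho_span {z : Matrix ι ι ℂ} (hz : z ∈ ho H) :
    z ∈ Submodule.span ℂ {w | ∃ q : Matrix ι ι ℚ, cQ q ∈ ho H ∧ cQ q = w} := by
  let C : Submodule ℂ (ι × ι → ℂ) :=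
    { carrier := {v | (Matrix.of fun i j => v (i, j)) ∈ ho H}
      add_mem' := fun {a b} ha hb => Submodule.add_mem (ho H) ha hb
      zero_mem' := Submodule.zero_mem (ho H)
      smul_mem' := fun c a ha => Submodule.smul_mem (ho H) c ha }
  have hC : ∀ (σ : ℂ ≃+* ℂ), ∀ v ∈ C, (fun i => σ (v i)) ∈ C := by
    intro σ v hv
    exact ho_map σ hv
  have hzC : (fun p : ι × ι => z p.1 p.2) ∈ C := hz
  rw [Pool.Agent.W437.HD.span_rational C hC] at hzC
  have key : ∀ v ∈ Submodule.span ℂ {w | w ∈ C ∧ ∃ u : ι × ι → ℚ, w = fun i => (u i : ℂ)},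
      (Matrix.of fun i j => v (i, j)) ∈
        Submodule.span ℂ {w | ∃ q : Matrix ι ι ℚ, cQ q ∈ ho H ∧ cQ q = w} := by
    intro v hv
    induction hv using Submodule.span_induction with
    | mem v hv =>
      obtain ⟨h1, u, rfl⟩ := hv
      exact Submodule.subset_span ⟨Matrix.of fun i j => u (i, j), h1, rfl⟩
    | zero => exact Submodule.zero_mem _
    | add a b _ _ ha hb => exact Submodule.add_mem _ ha hb
    | smul c a _ ha => exact Submodule.smul_mem _ c ha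
  exact key _ hzC

/-- **Brackets.** -/
theorem br_ho {h : Submodule ℂ (Matrix ι ι ℂ)} (hle : h ≤ ho H)
    (hl : ∀ a ∈ h, ∀ b ∈ h, br a b ∈ h)
    (htop : ∃ v : Fin (Module.finrank ℂ D.V) → D.V, pL D.L v ≠ 0)
    (hP : cQ D.pr1 * cQ H.Qir = cQ H.Qir * (cQ D.pr1)ᵀ)
    (hgr : ∀ i j k, D.c k i j ≠ 0 → D.deg k = D.deg i + D.deg j) (h1 : D.deg H.D.o = 0)
    {N : Matrix ι ι ℂ} (hN : N ∈ h) (hNN : N * N * cQ D.pr1 = cQ D.pr1)
    {m : ℕ} (hm : Module.finrank ℂ D.V = 2 * m)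
    (hd : ∀ S : Submodule ℂ (ι → ℂ), (∀ w ∈ h, ∀ v ∈ S, w *ᵥ v ∈ S) →
      (∀ δ : ℕ, ∀ v ∈ S, cQ (Eq D.deg δ) *ᵥ v ∈ S) →
      ∀ q : Matrix ι ι ℚ, cQ q ∈ ho H → ∀ v ∈ S, cQ (Eq D.deg m) *ᵥ v = v → cQ q *ᵥ v ∈ S)
    {X : Matrix ι ι ℂ} (hX : X ∈ ho H) : br N X ∈ h := by
  have hPd : cQ D.pr1 * cQ D.pr1 = cQ D.pr1 := by rw [← cQ_mul, D.pr1_mul]
  have hkm : ∀ N : Matrix ι ι ℂ, N ∈ ho H → ∀ k : ℕ,
      ((2⁻¹ : ℂ) • (cQ D.pr1 + N * cQ D.pr1)).trace = k → k = m := by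
    intro N hN k hk
    rw [Matrix.trace_smul, Matrix.trace_add, ho_trace D hP hN, pr1_trace, hm, add_zero,
      smul_eq_mul] at hk
    push_cast at hk
    have h2 : (m : ℂ) = k := by rw [← hk]; ring
    exact_mod_cast h2.symm
  refine br_mem (P := cQ D.pr1) (𝓔 := Set.range fun δ => cQ (Eq D.deg δ))
    (E₀ := cQ (Eq D.deg m)) hle hl
    (fun a ha b hb => ho_br ha hb) (toPDo D htop) hN ?_ ?_ ?_ hPd hNN ?_ ?_ ?_ ?_ ?_ ?_ ?_ hX
  · intro v
    change cQ D.pr1 *ᵥ v ∈ D.V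
    rw [D.mem_V', Matrix.mulVec_mulVec, hPd]
  · intro v hv
    exact D.mem_V'.1 hv
  · intro w hw
    exact (D.pr1_HE.comm_ho hw).symm
  · intro w hw h0
    refine D.der_zero hw fun v hv => ?_
    rw [← D.mem_V'.1 hv, Matrix.mulVec_mulVec, h0, Matrix.zero_mulVec]
  · intro Y hY h0
    exact ho_pos D hP hY h0
  · rintro _ ⟨δ, rfl⟩ w hw
    exact ((Eq_HE D δ).comm_ho hw).symm
  · rintro _ ⟨δ, rfl⟩ k v
    exact Eq_pv D hgr h1 htop δ k v
  · intro k v hk
    obtain rfl := hkm N (hle hN) k hk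
    exact Eq_pv' D hgr h1 htop k v
  · intro k v hk
    obtain rfl := hkm (-N) (Submodule.neg_mem _ (hle hN)) k hk
    exact Eq_pv' D hgr h1 htop k v
  · intro S hS hSE y hy
    have key : ∀ y ∈ Submodule.span ℂ {w | ∃ q : Matrix ι ι ℚ, cQ q ∈ ho H ∧ cQ q = w},
        ∀ v ∈ S, cQ (Eq D.deg m) *ᵥ v = v → y *ᵥ v ∈ S := by
      intro y hy
      induction hy using Submodule.span_induction with
      | mem w hw =>
        obtain ⟨q, hq, rfl⟩ := hw
        exact hd S hS (fun δ => hSE _ ⟨δ, rfl⟩) q hq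
      | zero => intro v _ _; rw [Matrix.zero_mulVec]; exact Submodule.zero_mem _
      | add a b _ _ ha hb =>
        intro v hv hv'
        rw [Matrix.add_mulVec]
        exact Submodule.add_mem _ (ha v hv hv') (hb v hv hv')
      | smul c a _ ha =>
        intro v hv hv'
        rw [Matrix.smul_mulVec]
        exact Submodule.smul_mem _ c (ha v hv hv')
    exact key y (ho_span hy)

end Pool.Agent.N996.TQ
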