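import Pool.Agent.N996.TQ.Dn
import Pool.Agent.N996.TQ.Hn

/-!
# Matrices which kill the Tate arrays, extension of scalars
-/

set_option linter.unusedSectionVars false

namespace Pool.Agent.N996.TQ

open Matrix Filter Topology
open Pool.Agent.N996.BP Pool.Agent.N202.TB
open Pool.Agent.N996.FP (ho mem_ho dk slot slot_apply br)

section Bc

variable {K : Type} [Field K] (φ : K →+* ℂ) {ι : Type} [Fintype ι] [DecidableEq ι]

/-- Decomposition of complex matrices. -/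
lemma exists_dec (z : Matrix ι ι ℂ) : ∃ (r : ℕ) (β : Fin r → ℂ) (zs : Fin r → Matrix ι ι K),
    (∀ c : Fin r → K, ∑ i, φ (c i) * β i = 0 → ∀ i, c i = 0) ∧
    z = ∑ i, β i • (zs i).map φ := by
  let _ := φ.toAlgebra
  let U : Submodule K ℂ := Submodule.span K (Set.range fun p : ι × ι => z p.1 p.2)
  have hfin : FiniteDimensional K U := FiniteDimensional.span_of_finite K (Set.finite_range _)
  let b := Module.finBasis K U
  have hz : ∀ i j, z i j ∈ U := fun i j => Submodule.subset_span ⟨(i, j), rfl⟩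
  refine ⟨_, fun i => (b i : ℂ), fun r => Matrix.of fun i j => b.repr ⟨z i j, hz i j⟩ r, ?_, ?_⟩
  · intro c hc
    have h1 : ∑ i, c i • b i = 0 := by
      apply Subtype.ext
      rw [Submodule.coe_sum, ZeroMemClass.coe_zero, ← hc]
      exact Finset.sum_congr rfl fun i _ => Algebra.smul_def _ _
    exact Fintype.linearIndependent_iff.1 b.linearIndependent c h1
  · ext i j
    rw [Matrix.sum_apply]
    have h1 := congrArg (fun x : U => (x : ℂ)) (b.sum_repr ⟨z i j, hz i j⟩)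
    simp only [Submodule.coe_sum, Submodule.coe_smul] at h1
    refine h1.symm.trans (Finset.sum_congr rfl fun r _ => ?_)
    exact (Algebra.smul_def _ _).trans (mul_comm _ _)

lemma dp_map {κ : Type} [Fintype κ] [DecidableEq κ] {L M : Type} [CommRing L] [CommRing M]
    (f : L →+* M) (y : Matrix ι ι L) :
    dp κ (y.map f) = (dp κ y).map f := by
  ext v w
  rw [Matrix.map_apply, dp, dp, Matrix.of_apply, Matrix.of_apply, map_sum]
  refine Finset.sum_congr rfl fun k _ => ?_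
  rw [map_mul, map_prod, Matrix.map_apply]
  congr 1
  refine Finset.prod_congr rfl fun j _ => ?_
  split_ifs <;> simp

lemma mulVec_map {m n : Type} [Fintype n] {L M : Type} [CommRing L] [CommRing M]
    (f : L →+* M) (A : Matrix m n L) (v : n → L) :
    A.map f *ᵥ (fun i => f (v i)) = fun i => f ((A *ᵥ v) i) := by
  funext i
  rw [Matrix.mulVec, dotProduct, Matrix.mulVec, dotProduct, map_sum]
  exact Finset.sum_congr rfl fun j _ => by rw [map_mul, Matrix.map_apply]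

/-- The derivation as a linear map. -/
def dpL (S : Steps) (κ : Type) [Fintype κ] [DecidableEq κ] (L : Type) [Field L] :
    Matrix ι ι L →ₗ[L] Matrix (κ → ι) (κ → ι) L where
  toFun := dp κ
  map_add' x y := by
    have h := S.lin L ι κ 1 x y
    rwa [one_smul, one_smul] at h
  map_smul' c y := by
    have h := S.lin L ι κ c 0 y
    have h0 : dp κ (0 : Matrix ι ι L) = 0 := by ext v w; simp [dp]
    rwa [zero_add, h0, zero_add] at h

/-- The components of a matrix which kills an array. -/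
lemma kill_comp (S : Steps) {κ : Type} [Fintype κ] [DecidableEq κ] {r : ℕ} {β : Fin r → ℂ}
    {zs : Fin r → Matrix ι ι K} (hβ : ∀ c : Fin r → K, ∑ i, φ (c i) * β i = 0 → ∀ i, c i = 0)
    {a : (κ → ι) → K} (h : dp κ (∑ i, β i • (zs i).map φ) *ᵥ (fun w => φ (a w)) = 0) (i : Fin r) :
    dp κ (zs i) *ᵥ a = 0 := by
  funext v
  refine hβ (fun i => (dp κ (zs i) *ᵥ a) v) ?_ i
  have h1 := congrFun h v
  have h2 : dp κ (∑ i, β i • (zs i).map φ) = ∑ i, β i • (dp κ (zs i)).map φ := by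
    have h3 := map_sum (dpL S κ ℂ (ι := ι)) (fun i => β i • (zs i).map φ) Finset.univ
    refine h3.trans (Finset.sum_congr rfl fun i _ => ?_)
    rw [map_smul]
    congr 1
    exact dp_map φ (zs i)
  rw [h2, Matrix.sum_mulVec, Finset.sum_apply] at h1
  rw [Pi.zero_apply] at h1
  rw [← h1]
  refine Finset.sum_congr rfl fun i _ => ?_
  rw [Matrix.smul_mulVec, Pi.smul_apply, mulVec_map, smul_eq_mul, mul_comm]

lemma dk_eq_dp {κ : Type} [Fintype κ] [DecidableEq κ] (z : Matrix ι ι ℂ) : dk κ z = dp κ z := by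
  ext v w
  rw [dk, Matrix.sum_apply, dp, Matrix.of_apply]
  refine Finset.sum_congr rfl fun k _ => ?_
  rw [slot_apply]
  congr 1

variable {H : HData ι}

/-- Reduction to the index types with at least one element. -/
lemma ho_of (S : Steps) {z : Matrix ι ι ℂ} (h : ∀ (n : ℕ) (a : (Fin (n + 1) → ι) → ℚ),
    a ∈ BB H (Fin (n + 1)) → dp (Fin (n + 1)) z *ᵥ ca a = 0) : z ∈ ho H := by
  intro κ _ _ a ha
  rw [dk_eq_dp]
  rcases isEmpty_or_nonempty κ with hκ | hκ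
  · have h1 : dp κ z = 0 := by
      ext v w
      rw [dp, Matrix.of_apply]
      simp
    rw [h1, Matrix.zero_mulVec]
  obtain ⟨n, ⟨e⟩⟩ := RFam.exists_eqv κ
  have h1 := h n _ (RFam.BB_rei e ha)
  have h2 : ca (BP.rei e a) = BP.rei e (ca a) := rfl
  have h3 := S.rei ℂ ι κ (Fin (n + 1)) e z (ca a)
  rw [← h2, h1] at h3
  exact rei_injective e h3.symm

lemma ho_dp {z : Matrix ι ι ℂ} (hz : z ∈ ho H) {n : ℕ} {a : (Fin (n + 1) → ι) → ℚ}
    (ha : a ∈ BB H (Fin (n + 1))) : dp (Fin (n + 1)) z *ᵥ ca a = 0 := by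
  rw [← dk_eq_dp]
  exact hz (Fin (n + 1)) a ha

lemma ca_aL {n : ℕ} [CharZero K] (a : (Fin (n + 1) → ι) → ℚ) :
    ca a = fun w => φ (aL K a w) := by
  funext w
  rw [aL, map_ratCast]
  rfl

/-- Extension of scalars. -/
lemma ho_map_kill (S : Steps) [CharZero K] {y : Matrix ι ι K} (hy : Kill H K y) :
    y.map φ ∈ ho H := by
  refine ho_of S fun n a ha => ?_
  rw [ca_aL φ, dp_map, mulVec_map, hy n a ha]
  funext w
  exact map_zero φ

/-- Rational matrices. -/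
lemma kill_of_ho [CharZero K] {q : Matrix ι ι ℚ} (hq : cQ q ∈ ho H) : Kill H K (mL K q) := by
  intro n a ha
  have h1 := ho_dp hq ha
  have h2 : cQ q = q.map (Rat.castHom ℂ) := rfl
  have h3 : ca a = fun w => Rat.castHom ℂ (a w) := rfl
  rw [h2, h3, dp_map, mulVec_map] at h1
  have h4 : dp (Fin (n + 1)) q *ᵥ a = 0 := by
    funext w
    have h5 : ((dp (Fin (n + 1)) q *ᵥ a) w : ℂ) = 0 := congrFun h1 w
    exact_mod_cast h5
  have h5 : aL K a = fun w => Rat.castHom K (a w) := rfl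
  have h6 : mL K q = q.map (Rat.castHom K) := rfl
  rw [h5, h6, dp_map, mulVec_map, h4]
  funext w
  exact map_zero _

lemma mL_map [CharZero K] (q : Matrix ι ι ℚ) : (mL K q).map φ = cQ q := by
  ext i j
  rw [Matrix.map_apply, mL_apply, map_ratCast]
  rfl

end Bc

section Gal

variable {ι : Type} [Fintype ι] [DecidableEq ι] {ℓ : ℕ} [Fact ℓ.Prime] {Γ : Type} [Group Γ]
  {deg : ι → ℕ} {G : Γ → Matrix ι ι ℚ_[ℓ]} {χ : Γ → ℚ_[ℓ]}
  {U : Subgroup Γ} {Y : Γ → Matrix ι ι ℚ_[ℓ]} {lam : Γ → ℚ_[ℓ]} {H : HData ι}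
  (φ : ℚ_[ℓ] →+* ℂ)

variable (deg G χ) in
/-- The matrices which kill the Tate arrays. -/
noncomputable def tk (S : Steps) : Submodule ℚ_[ℓ] (Matrix ι ι ℚ_[ℓ]) :=
  ⨅ (n : ℕ), ⨅ (j : ℕ), ⨅ (a : (Fin (n + 1) → ι) → ℚ_[ℓ]), ⨅ (_ : TateArr deg G χ n j a),
    killSub S a

lemma mem_tk {S : Steps} {y : Matrix ι ι ℚ_[ℓ]} : y ∈ tk deg G χ S ↔
    ∀ n j a, TateArr deg G χ n j a → dp (Fin (n + 1)) y *ᵥ a = 0 := by
  simp only [tk, Submodule.mem_iInf, mem_killSub]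

variable (deg G χ) in
/-- The complex matrices which kill the Tate arrays. -/
noncomputable def tkC (S : Steps) : Submodule ℂ (Matrix ι ι ℂ) :=
  ⨅ (n : ℕ), ⨅ (j : ℕ), ⨅ (a : (Fin (n + 1) → ι) → ℚ_[ℓ]), ⨅ (_ : TateArr deg G χ n j a),
    killSub S (fun w => φ (a w))

lemma mem_tkC {S : Steps} {y : Matrix ι ι ℂ} : y ∈ tkC deg G χ φ S ↔
    ∀ n j a, TateArr deg G χ n j a → dp (Fin (n + 1)) y *ᵥ (fun w => φ (a w)) = 0 := by
  simp only [tkC, Submodule.mem_iInf, mem_killSub]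

lemma Yt_tk (S : Steps) (hL : Logs G χ U Y lam) (hG : GalArr deg G χ) {u : Γ} (hu : u ∈ U) :
    Yt deg Y lam u ∈ tk deg G χ S :=
  mem_tk.2 fun _ _ _ ha => hL.kill_tate hG S hu ha

lemma tk_span {S : Steps} {y : Matrix ι ι ℚ_[ℓ]} (hy : y ∈ tk deg G χ S) {n : ℕ}
    {a : (Fin (n + 1) → ι) → ℚ_[ℓ]} (ha : a ∈ tspan deg G χ n) :
    dp (Fin (n + 1)) y *ᵥ a = 0 := by
  induction ha using Submodule.span_induction with
  | mem x hx =>
    obtain ⟨j, hx⟩ := hx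
    exact mem_tk.1 hy n j x hx
  | zero => rw [Matrix.mulVec_zero]
  | add a b _ _ ha hb => rw [Matrix.mulVec_add, ha, hb, add_zero]
  | smul c a _ ha => rw [Matrix.mulVec_smul, ha, smul_zero]

lemma tkC_span {S : Steps} {y : Matrix ι ι ℂ} (hy : y ∈ tkC deg G χ φ S) {n : ℕ}
    {a : (Fin (n + 1) → ι) → ℚ_[ℓ]} (ha : a ∈ tspan deg G χ n) :
    dp (Fin (n + 1)) y *ᵥ (fun w => φ (a w)) = 0 := by
  induction ha using Submodule.span_induction with
  | mem x hx =>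
    obtain ⟨j, hx⟩ := hx
    exact (mem_tkC φ).1 hy n j x hx
  | zero =>
    have h1 : (fun w : Fin (n + 1) → ι => φ ((0 : (Fin (n + 1) → ι) → ℚ_[ℓ]) w)) = 0 := by
      funext w; exact map_zero φ
    rw [h1, Matrix.mulVec_zero]
  | add a b _ _ ha hb =>
    have h1 : (fun w => φ ((a + b) w)) = (fun w => φ (a w)) + fun w => φ (b w) := by
      funext w; exact map_add φ _ _
    rw [h1, Matrix.mulVec_add, ha, hb, add_zero]
  | smul c a _ ha =>
    have h1 : (fun w => φ ((c • a) w)) = φ c • fun w => φ (a w) := by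
      funext w; exact map_mul φ _ _
    rw [h1, Matrix.mulVec_smul, ha, smul_zero]

lemma tk_kill {S : Steps}
    (hHT : ∀ n, ∀ a ∈ BB H (Fin (n + 1)), aL ℚ_[ℓ] a ∈ tspan deg G χ n)
    {y : Matrix ι ι ℚ_[ℓ]} (hy : y ∈ tk deg G χ S) : Kill H ℚ_[ℓ] y :=
  fun n a ha => tk_span hy (hHT n a ha)

lemma tkC_ho {S : Steps}
    (hHT : ∀ n, ∀ a ∈ BB H (Fin (n + 1)), aL ℚ_[ℓ] a ∈ tspan deg G χ n) :
    tkC deg G χ φ S ≤ ho H := by
  intro z hz
  refine ho_of S fun n a ha => ?_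
  rw [ca_aL φ]
  exact tkC_span φ hz (hHT n a ha)

lemma tkC_br {S : Steps} {x y : Matrix ι ι ℂ} (hx : x ∈ tkC deg G χ φ S)
    (hy : y ∈ tkC deg G χ φ S) : br x y ∈ tkC deg G χ φ S := by
  rw [mem_tkC] at hx hy ⊢
  intro n j a ha
  rw [br, dp_bracket, Matrix.sub_mulVec, ← Matrix.mulVec_mulVec, ← Matrix.mulVec_mulVec,
    hx n j a ha, hy n j a ha, Matrix.mulVec_zero, Matrix.mulVec_zero, sub_self]

lemma tk_map {S : Steps} {y : Matrix ι ι ℚ_[ℓ]} (hy : y ∈ tk deg G χ S) :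
    y.map φ ∈ tkC deg G χ φ S := by
  rw [mem_tkC]
  intro n j a ha
  rw [dp_map, mulVec_map, mem_tk.1 hy n j a ha]
  funext w
  exact map_zero φ

/-- Extension of scalars. -/
lemma tkC_dec {S : Steps} {z : Matrix ι ι ℂ} (hz : z ∈ tkC deg G χ φ S) :
    ∃ (r : ℕ) (β : Fin r → ℂ) (zs : Fin r → Matrix ι ι ℚ_[ℓ]), (∀ i, zs i ∈ tk deg G χ S) ∧
      z = ∑ i, β i • (zs i).map φ := by
  obtain ⟨r, β, zs, hβ, h⟩ := exists_dec φ z
  refine ⟨r, β, zs, fun i => mem_tk.2 fun n j a ha => ?_, h⟩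
  have h1 := (mem_tkC φ).1 hz n j a ha
  rw [h] at h1
  exact kill_comp φ S hβ h1 i

/-- Translates of Tate arrays. -/
lemma tate_conj (hG : GalArr deg G χ) (g : Γ) {n j : ℕ} {a : (Fin (n + 1) → ι) → ℚ_[ℓ]}
    (ha : TateArr deg G χ n j a) : TateArr deg G χ n j (kp (Fin (n + 1)) (G g) *ᵥ a) := by
  obtain ⟨hdeg, Δ, hΔ, h⟩ := ha
  refine ⟨fun w hw => ?_, Δ.normalCore, inferInstance, fun u hu => ?_⟩
  · rw [Matrix.mulVec, dotProduct] at hw
    obtain ⟨v, _, hv⟩ := Finset.exists_ne_zero_of_sum_ne_zero hw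
    have h1 := left_ne_zero_of_mul hv
    have h2 := right_ne_zero_of_mul hv
    rw [kp_apply, Finset.prod_ne_zero_iff] at h1
    rw [← hdeg v h2]
    exact Finset.sum_congr rfl fun k _ => hG.deg g _ _ (h1 k (Finset.mem_univ k))
  · have h1 : g⁻¹ * u * g ∈ Δ := by
      have h2 : g⁻¹ * u * g⁻¹⁻¹ ∈ Δ.normalCore := Subgroup.Normal.conj_mem inferInstance u hu g⁻¹
      rw [inv_inv] at h2
      exact Subgroup.normalCore_le Δ h2
    have h2 : u * g = g * (g⁻¹ * u * g) := by group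
    have h3 : χ (g⁻¹ * u * g) = χ u := by
      have h4 := hG.χconj g⁻¹ u
      rwa [inv_inv] at h4
    rw [Matrix.mulVec_mulVec, ← kp_mul, ← hG.mul, h2, hG.mul, kp_mul, ← Matrix.mulVec_mulVec,
      h _ h1, Matrix.mulVec_smul, h3]

/-- The matrices which kill the Tate arrays are stable under conjugation. -/
lemma tk_conj (hG : GalArr deg G χ) {S : Steps} (g : Γ) {y : Matrix ι ι ℚ_[ℓ]}
    (hy : y ∈ tk deg G χ S) : G g * y * G g⁻¹ ∈ tk deg G χ S := by
  rw [mem_tk] at hy ⊢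
  intro n j a ha
  rw [← dp_conj (hG.inv g), ← Matrix.mulVec_mulVec, ← Matrix.mulVec_mulVec,
    hy n j _ (tate_conj hG g⁻¹ ha), Matrix.mulVec_zero]

/-- The projector. -/
structure IsPrT (S : Steps) (deg : ι → ℕ) (G : Γ → Matrix ι ι ℚ_[ℓ]) (χ : Γ → ℚ_[ℓ])
    (U : Subgroup Γ) (Y : Γ → Matrix ι ι ℚ_[ℓ]) (lam : Γ → ℚ_[ℓ])
    (p : Matrix ι ι ℚ_[ℓ] →ₗ[ℚ_[ℓ]] Matrix ι ι ℚ_[ℓ]) : Prop where
  mem : ∀ x, p x ∈ tk deg G χ S
  id : ∀ x ∈ tk deg G χ S, p x = x
  zero : ∀ x, p0 deg ℚ_[ℓ] x = 0 → p x = 0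
  comm : ∀ u ∈ U, ∀ x, p (Yt deg Y lam u * x - x * Yt deg Y lam u) =
    Yt deg Y lam u * p x - p x * Yt deg Y lam u

lemma exists_prT (S : Steps) (hL : Logs G χ U Y lam) (hG : GalArr deg G χ) (hss : AdSS G)
    (hE0 : ∀ y ∈ tk deg G χ S, y ∈ E0 deg ℚ_[ℓ]) : ∃ p, IsPrT S deg G χ U Y lam p := by
  obtain ⟨V, hV, hc⟩ := hss U hL.fin (tk deg G χ S) fun g _ x hx => tk_conj hG g hx
  obtain ⟨π, hπ⟩ : ∃ π, π = Submodule.projection (tk deg G χ S) V hc := ⟨_, rfl⟩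
  have h1 : ∀ x, π x ∈ tk deg G χ S := fun x => by
    rw [hπ]; exact Submodule.projection_apply_mem hc x
  have h2 : ∀ x ∈ tk deg G χ S, π x = x := fun x hx => by
    rw [hπ]; exact Submodule.projection_apply_left hc ⟨x, hx⟩
  have h3 : ∀ x ∈ V, π x = 0 := fun x hx => by
    rw [hπ]; exact (Submodule.projection_apply_eq_zero_iff hc).2 hx
  have h4 : ∀ x, x - π x ∈ V := fun x => by
    refine (Submodule.projection_apply_eq_zero_iff hc).1 ?_
    rw [← hπ, map_sub, h2 _ (h1 x), sub_self]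
  have h5 : ∀ u ∈ U, ∀ x, π (Y u * x - x * Y u) = Y u * π x - π x * Y u := by
    intro u hu x
    have h6 : Y u * x - x * Y u = (Y u * π x - π x * Y u) +
        (Y u * (x - π x) - (x - π x) * Y u) := by
      rw [Matrix.mul_sub, Matrix.sub_mul]
      abel
    rw [h6, map_add, h2 _ (ad_stable S hL hG (fun g _ x hx => tk_conj hG g hx) hu (h1 x)),
      h3 _ (ad_stable S hL hG hV hu (h4 x)), add_zero]
  refine ⟨π ∘ₗ p0 deg ℚ_[ℓ], ⟨fun x => h1 _, fun x hx => ?_, fun x hx => ?_, fun u hu x => ?_⟩⟩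
  · rw [LinearMap.comp_apply, p0_of_mem (hE0 x hx), h2 x hx]
  · rw [LinearMap.comp_apply, hx, map_zero]
  · have hm := hL.Yt_mem hG hu
    have h6 : ∀ z ∈ E0 deg ℚ_[ℓ], Yt deg Y lam u * z - z * Yt deg Y lam u =
        Y u * z - z * Y u := by
      intro z hz
      rw [Yt, Matrix.sub_mul, Matrix.mul_sub, Matrix.smul_mul, Matrix.mul_smul, DD_comm hz]
      abel
    rw [LinearMap.comp_apply, LinearMap.comp_apply, map_sub, p0_mul_left hm, p0_mul_right hm,
      h6 _ (p0_mem x), h5 u hu, h6 _ (hE0 _ (h1 _))]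

end Gal

end Pool.Agent.N996.TQ
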