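import Pool.Agent.N996.TQ.Li

/-!
# Faithful actions on the middle exterior power
-/

set_option linter.unusedSectionVars false

namespace Pool.Agent.N996.TQ

open Matrix Pool.Agent.N996.BP Pool.Agent.N996.FP

variable {ι : Type} [Fintype ι] [DecidableEq ι] {h : Submodule ℂ (Matrix ι ι ℂ)}
  {A : Type} [Ring A] [Algebra ℂ A] {z : Matrix ι ι ℂ}

/-- Extension of a pair to a linearly independent family. -/
lemma ext_pair (D : PD h z A) {v₀ x : D.V} (hli : LinearIndependent ℂ ![v₀, x]) :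
    ∀ r : ℕ, 2 + r ≤ Module.finrank ℂ D.V → ∃ (u : Fin r → D.V) (f : Fin (2 + r) → D.V),
      LinearIndependent ℂ f ∧
        pL (iL D.ε D.V) f = iL D.ε D.V v₀ * (iL D.ε D.V x * pL (iL D.ε D.V) u)
  | 0, _ => ⟨Fin.elim0, ![v₀, x], hli, by simp [pL]⟩
  | r + 1, hr => by
    obtain ⟨u, f, hf, h1⟩ := ext_pair D hli r (by omega)
    obtain ⟨y, hy⟩ := exists_linearIndependent_snoc_of_lt_finrank hf (by omega)
    refine ⟨Fin.snoc (α := fun _ => D.V) u y, Fin.snoc (α := fun _ => D.V) f y, hy, ?_⟩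
    have h2 : pL (iL D.ε D.V) (Fin.snoc (α := fun _ => D.V) f y) =
        pL (iL D.ε D.V) f * iL D.ε D.V y := pL_snoc _ f y
    have h3 : pL (iL D.ε D.V) (Fin.snoc (α := fun _ => D.V) u y) =
        pL (iL D.ε D.V) u * iL D.ε D.V y := pL_snoc _ u y
    refine h2.trans ?_
    rw [h3, h1]
    simp only [mul_assoc]

/-- An operator which kills an exterior power is zero. -/
theorem mid_zero (D : PD h z A) {w : Matrix ι ι ℂ} (hw : w ∈ h) {m : ℕ}
    (hm : m + 2 ≤ Module.finrank ℂ D.V) (h0 : ∀ v : Fin (m + 1) → D.V, w *ᵥ D.pv v = 0) :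
    ∀ v ∈ D.V, w *ᵥ v = 0 := by
  let f : D.V →ₗ[ℂ] D.V :=
    { toFun := fun v => ⟨w *ᵥ (v : ι → ℂ), D.stab w hw _ v.2⟩
      map_add' := fun a b => Subtype.ext (Matrix.mulVec_add w _ _)
      map_smul' := fun c a => Subtype.ext (Matrix.mulVec_smul w c _) }
  have hfv : ∀ v, (f v : ι → ℂ) = w *ᵥ (v : ι → ℂ) := fun _ => rfl
  have h1 : ∀ v, ¬ LinearIndependent ℂ ![v, f v] := by
    intro v hli
    obtain ⟨u, F, hF, h2⟩ := ext_pair D hli m (by omega)
    have h3 := h0 (Fin.cons (α := fun _ => D.V) v u)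
    have h4 : pL (iL D.ε D.V) (Fin.cons (α := fun _ => D.V) v u) =
        iL D.ε D.V v * pL (iL D.ε D.V) u := by
      rw [pL_cons]
      rfl
    have h5 : aop D.ε w (iL D.ε D.V v * pL (iL D.ε D.V) u) = 0 := by
      rw [← h4]
      apply D.ε.injective
      rw [ep_aop, map_zero]
      exact h3
    rw [D.der w hw] at h5
    have h6 : aop D.ε w (iL D.ε D.V v) = iL D.ε D.V (f v) := by
      rw [aop_apply, PD.iL_apply, LinearEquiv.apply_symm_apply, PD.iL_apply]
      rfl
    have h7 : iL D.ε D.V v * (iL D.ε D.V (f v) * pL (iL D.ε D.V) u) = 0 := by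
      have h8 := congrArg (fun t => iL D.ε D.V v * t) h5
      beta_reduce at h8
      rw [mul_add, mul_zero, h6, ← mul_assoc (iL D.ε D.V v) (iL D.ε D.V v), D.sq, zero_mul,
        add_zero] at h8
      exact h8
    exact D.pv_ne hF (by rw [PD.pv, h2, h7, map_zero])
  obtain ⟨a, ha⟩ := LinearMap.exists_eq_smul_id_of_forall_notLinearIndependent h1
  have hav : ∀ v : D.V, w *ᵥ (v : ι → ℂ) = a • (v : ι → ℂ) := by
    intro v
    rw [← hfv, ha]
    rfl
  have ha0 : a = 0 := by
    let b := Module.finBasis ℂ D.V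
    have hle : m + 1 ≤ Module.finrank ℂ D.V := by omega
    have hli : LinearIndependent ℂ (fun i : Fin (m + 1) => b (Fin.castLE hle i)) :=
      b.linearIndependent.comp _ (Fin.castLE_injective hle)
    have h2 := D.pv_eig (v := fun i : Fin (m + 1) => b (Fin.castLE hle i)) hw (s := fun _ => a)
      fun j => hav _
    rw [h0] at h2
    have h3 := (smul_eq_zero.1 h2.symm).resolve_right (D.pv_ne hli)
    rw [Finset.sum_const, Finset.card_univ, Fintype.card_fin, nsmul_eq_mul] at h3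
    refine (mul_eq_zero.1 h3).resolve_left ?_
    exact_mod_cast Nat.succ_ne_zero m
  intro v hv
  have h2 := hav ⟨v, hv⟩
  rw [ha0, zero_smul] at h2
  exact h2

end Pool.Agent.N996.TQ
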