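import Pool.Agent.N996.TQ.Bc
import Pool.Agent.N996.TQ.Fa

/-!
# The core: Tate arrays with two indices
-/

set_option linter.unusedSectionVars false

namespace Pool.Agent.N996.TQ

open Matrix Filter Topology
open Pool.Agent.N996.BP Pool.Agent.N202.TB
open Pool.Agent.N996.FP (ho mem_ho dk slot slot_apply br AData pL ho_skew ho_br)

variable {ι : Type} [Fintype ι] [DecidableEq ι] {ℓ : ℕ} [Fact ℓ.Prime] {Γ : Type} [Group Γ]
  {deg : ι → ℕ} {G : Γ → Matrix ι ι ℚ_[ℓ]} {χ : Γ → ℚ_[ℓ]}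
  {U : Subgroup Γ} {Y : Γ → Matrix ι ι ℚ_[ℓ]} {lam : Γ → ℚ_[ℓ]} {H : HData ι}
  {A : Type} [Ring A] [Algebra ℂ A]

/-- Matrices which commute with the group commute with the logarithms. -/
lemma log_comm {g y x : Matrix ι ι ℚ_[ℓ]} (h : IsLog g y) (hx : g * x = x * g) :
    y * x = x * y := by
  rw [N202.TB.isLog_iff] at h
  have h1 : ∀ n : ℕ, g ^ n * x = x * g ^ n := by
    intro n
    induction n with
    | zero => rw [pow_zero, Matrix.one_mul, Matrix.mul_one]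
    | succ n ih => rw [pow_succ, Matrix.mul_assoc, hx, ← Matrix.mul_assoc, ih, Matrix.mul_assoc]
  have h2 : Tendsto (fun k : ℕ => (((ℓ : ℚ_[ℓ]) ^ k)⁻¹ • (g ^ (ℓ ^ k) - 1)) * x) atTop
      (𝓝 (y * x)) := h.mul tendsto_const_nhds
  have h3 : Tendsto (fun k : ℕ => x * (((ℓ : ℚ_[ℓ]) ^ k)⁻¹ • (g ^ (ℓ ^ k) - 1))) atTop
      (𝓝 (x * y)) := tendsto_const_nhds.mul h
  refine tendsto_nhds_unique h2 (h3.congr fun k => ?_)
  rw [Matrix.mul_smul, Matrix.smul_mul, Matrix.mul_sub, Matrix.sub_mul, h1, Matrix.mul_one,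
    Matrix.one_mul]

/-- The logarithms for a smaller subgroup. -/
lemma logs_inf (hL : Logs G χ U Y lam) {Δ : Subgroup Γ} (hΔ : Δ.FiniteIndex) :
    Logs G χ (U ⊓ Δ) Y lam where
  fin := by
    have := hL.fin
    exact inferInstance
  near u hu := hL.near u hu.1
  nearχ u hu := hL.nearχ u hu.1
  log u hu := hL.log u hu.1
  logs u hu := hL.logs u hu.1

lemma vec2_map (φ : ℚ_[ℓ] →+* ℂ) (M : Matrix ι ι ℚ_[ℓ]) :
    vec2 (M.map φ) = fun w => φ (vec2 M w) := rfl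

lemma map_mulM (φ : ℚ_[ℓ] →+* ℂ) {m n o : Type} [Fintype n] (M : Matrix m n ℚ_[ℓ])
    (N : Matrix n o ℚ_[ℓ]) : (M * N).map φ = M.map φ * N.map φ := Matrix.map_mul

/-- Elements of the Lie algebra which vanish on the middle degree. -/
lemma ho_mid_zero (D : AData H A)
    (htop : ∃ v : Fin (Module.finrank ℂ D.V) → D.V, pL D.L v ≠ 0)
    (hgr : ∀ i j k, D.c k i j ≠ 0 → D.deg k = D.deg i + D.deg j) (h1o : D.deg H.D.o = 0)
    {m : ℕ} (hm : Module.finrank ℂ D.V = 2 * m) {w : Matrix ι ι ℂ} (hw : w ∈ ho H)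
    (h0 : w * cQ (Eq D.deg m) = 0) : w = 0 := by
  refine D.der_zero hw ?_
  rcases m with _ | m
  · intro v hv
    have h1 : D.V = ⊥ := Submodule.finrank_eq_zero.1 (by rw [hm])
    rw [h1, Submodule.mem_bot] at hv
    rw [hv, Matrix.mulVec_zero]
  · refine mid_zero (toPDo D htop) hw (m := m) ?_ fun v => ?_
    · have h2 : Module.finrank ℂ (toPDo D htop).V = 2 * (m + 1) := hm
      omega
    · rw [← Eq_pv' D hgr h1o htop (m + 1) v, Matrix.mulVec_mulVec, h0, Matrix.zero_mulVec]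

/-- **The core.** -/
theorem core_two (S : Steps) (hG : GalArr deg G χ)
    (hl : ∀ t : ℂ, t ≠ 0 → ∀ i j, H.l t i j ≠ 0 → deg i = deg j)
    (hQ : ∀ i j, H.Qir i j ≠ 0 → deg i = deg j)
    (hQr : ∀ i j, H.Qr i j ≠ 0 → deg i = deg j)
    (hHT : ∀ n, ∀ a ∈ BB H (Fin (n + 1)), aL ℚ_[ℓ] a ∈ tspan deg G χ n)
    (hss : AdSS G)
    (hcen : ∀ y : Matrix ι ι ℚ_[ℓ], Kill H ℚ_[ℓ] y →
      (∀ z : Matrix ι ι ℚ_[ℓ], Kill H ℚ_[ℓ] z → y * z = z * y) →
      ∀ n j a, TateArr deg G χ n j a → dp (Fin (n + 1)) y *ᵥ a = 0)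
    (D : AData H A) (hD : D.deg = deg)
    (htop : ∃ v : Fin (Module.finrank ℂ D.V) → D.V, pL D.L v ≠ 0)
    (hP : cQ D.pr1 * cQ H.Qir = cQ H.Qir * (cQ D.pr1)ᵀ)
    (hgr : ∀ i j k, D.c k i j ≠ 0 → D.deg k = D.deg i + D.deg j) (h1o : D.deg H.D.o = 0)
    (φ : ℚ_[ℓ] →+* ℂ) (Ns : Set (Matrix ι ι ℂ))
    (hN1 : ∀ N ∈ Ns, ∀ n j a, TateArr deg G χ n j a →
      dp (Fin (n + 1)) N *ᵥ (fun w => φ (a w)) = 0)
    (hN2 : ∀ N ∈ Ns, N * N * cQ D.pr1 = cQ D.pr1)
    (hN3 : ∀ y : Matrix ι ι ℚ_[ℓ], y ∈ E0 deg ℚ_[ℓ] → (∀ N ∈ Ns, N * y.map φ = y.map φ * N) →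
      ∃ Δ : Subgroup Γ, Δ.FiniteIndex ∧ ∀ g ∈ Δ, G g * y = y * G g)
    {m : ℕ} {M M' : Matrix ι ι ℚ} (hM : IsDual H deg m M M')
    (hfin : Module.finrank ℂ D.V = 2 * m)
    (h2 : ∀ a, TateArr deg G χ 1 m a → (∀ w, a w ≠ 0 → deg (w 0) = m ∧ deg (w 1) = m) →
      a ∈ hspan H ℚ_[ℓ] 1) (n j : ℕ)
    (a : (Fin (n + 1) → ι) → ℚ_[ℓ]) (ha : TateArr deg G χ n j a) : a ∈ hspan H ℚ_[ℓ] n := by
  obtain ⟨U, Y, lam, hL⟩ := exists_logs S hG
  have hkE : ∀ z : Matrix ι ι ℚ_[ℓ], Kill H ℚ_[ℓ] z → z ∈ E0 deg ℚ_[ℓ] := by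
    intro z hz i j hne
    by_contra h
    exact hne (hz.deg S hl h)
  have htkK : ∀ y ∈ tk deg G χ S, Kill H ℚ_[ℓ] y := fun y hy => tk_kill hHT hy
  obtain ⟨p, hp⟩ := exists_prT S hL hG hss fun y hy => hkE y (htkK y hy)
  obtain ⟨B, hB⟩ : ∃ B, B = mL ℚ_[ℓ] H.Qir := ⟨_, rfl⟩
  obtain ⟨Q, hQ'⟩ : ∃ Q, Q = mL ℚ_[ℓ] H.Qr := ⟨_, rfl⟩
  have hBQ : B * Q = 1 := by rw [hB, hQ']; exact mL_Qir_Qr
  have hBm : B ∈ E0 deg ℚ_[ℓ] := by
    intro i j hne
    rw [hB, mL_apply]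
    by_contra h
    exact hne (hQ i j fun h0 => h (by rw [h0, Rat.cast_zero]))
  have hQm : Q ∈ E0 deg ℚ_[ℓ] := by
    intro i j hne
    rw [hQ', mL_apply]
    by_contra h
    exact hne (hQr i j fun h0 => h (by rw [h0, Rat.cast_zero]))
  have hsk : ∀ z : Matrix ι ι ℚ_[ℓ], Kill H ℚ_[ℓ] z → z * B + B * zᵀ = 0 := fun z hz => by
    rw [hB]; exact hz.skew S
  have hk : ∀ u ∈ U, Kill H ℚ_[ℓ] (Yt deg Y lam u) := fun u hu => htkK _ (Yt_tk S hL hG hu)
  -- the array of the projector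
  obtain ⟨α, hα⟩ : ∃ α : (Fin 4 → ι) → ℚ_[ℓ], α = arr4 (opP B Q p * kp (Fin 2) B) := ⟨_, rfl⟩
  have hα2 : α ∈ tspan deg G χ 3 := by
    refine hL.tspan_of_kill hG S (fun w hw => ?_) fun u hu => ?_
    · rw [hα] at hw
      exact arr4_even (fun v w hvw => opP_support hBm hQm
        (fun x => hkE _ (htkK _ (hp.mem x))) hp.zero hvw) hw
    · rw [hα, dp_arr4_eq_zero S hBQ (hsk _ (hk u hu)), opP_comm S hBQ p (hsk _ (hk u hu))]
      exact hp.comm u hu
  -- extension of scalars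
  obtain ⟨BC, hBC⟩ : ∃ BC, BC = B.map φ := ⟨_, rfl⟩
  obtain ⟨QC, hQC⟩ : ∃ QC, QC = Q.map φ := ⟨_, rfl⟩
  obtain ⟨P, hPd⟩ : ∃ P, P = (opP B Q p).map φ := ⟨_, rfl⟩
  have hBQC : BC * QC = 1 := by
    rw [hBC, hQC, ← map_mulM, hBQ]
    ext i j
    rw [Matrix.map_apply, Matrix.one_apply, Matrix.one_apply]
    split_ifs <;> simp
  have hBCc : BC = cQ H.Qir := by rw [hBC, hB, mL_map]
  have hskC : ∀ z ∈ ho H, z * BC + BC * zᵀ = 0 := fun z hz => by
    rw [hBCc]; exact ho_skew hz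
  have htkC : tkC deg G χ φ S ≤ ho H := tkC_ho φ hHT
  have hPz : ∀ z : Matrix ι ι ℚ_[ℓ], P *ᵥ vec2 (z.map φ * BC) = vec2 ((p z).map φ * BC) := by
    intro z
    rw [hBC, ← map_mulM, ← map_mulM, vec2_map, vec2_map, hPd, mulVec_map, opP_vec2,
      Matrix.mul_assoc, hBQ, Matrix.mul_one]
  have hPc : ∀ c ∈ tkC deg G χ φ S, P *ᵥ vec2 (c * BC) = vec2 (c * BC) := by
    intro c hc
    obtain ⟨r, β, zs, hzs, rfl⟩ := tkC_dec φ hc
    rw [Matrix.sum_mul, map_sum, Matrix.mulVec_sum]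
    refine Finset.sum_congr rfl fun i _ => ?_
    rw [Matrix.smul_mul, map_smul, Matrix.mulVec_smul, hPz, hp.id _ (hzs i)]
  have hdpC : ∀ z ∈ ho H, ∀ x : Matrix ι ι ℂ, dp (Fin 2) z *ᵥ vec2 (x * BC) =
      vec2 (br z x * BC) := by
    intro z hz x
    have h1 : BC * zᵀ = -(z * BC) := eq_neg_of_add_eq_zero_right (hskC z hz)
    rw [dp_vec2 S, Matrix.mul_assoc x BC, h1, Matrix.mul_neg, br,
      Matrix.sub_mul (z * x) (x * z) BC, Matrix.mul_assoc z x BC, Matrix.mul_assoc x z BC,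
      sub_eq_add_neg]
  have hPN : ∀ N ∈ tkC deg G χ φ S, dp (Fin 2) N * P = P * dp (Fin 2) N := by
    intro N hN
    refine (dp_arr4_eq_zero S hBQC (hskC N (htkC hN))).1 ?_
    have h3 := tkC_span φ hN hα2
    have h4 : (fun w => φ (α w)) = arr4 (P * kp (Fin 2) BC) := by
      have h5 : kp (Fin 2) BC = (kp (Fin 2) B).map φ := by
        ext v w
        rw [Matrix.map_apply, kp_apply, kp_apply, map_prod, hBC]
        rfl
      rw [h5, hPd, ← map_mulM, hα]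
      rfl
    rw [h4] at h3
    exact h3
  -- brackets
  have hbr : ∀ N ∈ Ns, ∀ y : Matrix ι ι ℚ_[ℓ], Kill H ℚ_[ℓ] y →
      br N (y.map φ) ∈ tkC deg G χ φ S := by
    intro N hN y hy
    refine br_ho D htkC (fun a ha b hb => tkC_br φ ha hb) htop hP hgr h1o
      ((mem_tkC φ).2 (hN1 N hN)) (hN2 N hN) hfin ?_ (ho_map_kill φ S hy)
    intro C hC hCE q hq v hv hvm
    have h3 := kill_mem S hL hG hss hM hk hkE h2 (kill_of_ho (K := ℚ_[ℓ]) hq)
    have hEd : ∀ δ, (Ed ℚ_[ℓ] deg δ).map φ = cQ (Eq D.deg δ) := by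
      intro δ
      rw [cQ_Eq, hD]
      ext i j
      rw [Matrix.map_apply, Ed, Matrix.diagonal_apply, Matrix.diagonal_apply]
      split_ifs <;> simp
    have h5 : cQ q *ᵥ v = (mL ℚ_[ℓ] q * Ed ℚ_[ℓ] deg m).map φ *ᵥ v := by
      rw [map_mulM, mL_map φ q, hEd, ← Matrix.mulVec_mulVec, hvm]
    rw [h5]
    clear h5 hvm hq
    generalize mL ℚ_[ℓ] q * Ed ℚ_[ℓ] deg m = z at h3 ⊢
    induction h3 using Algebra.adjoin_induction generalizing v with
    | mem x hx =>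
      rcases hx with ⟨u, hu, rfl⟩ | ⟨δ, rfl⟩
      · exact hC _ (tk_map φ (Yt_tk S hL hG hu)) v hv
      · rw [hEd]
        exact hCE δ v hv
    | algebraMap r =>
      have h4 : ((algebraMap ℚ_[ℓ] (Matrix ι ι ℚ_[ℓ])) r).map φ = φ r • (1 : Matrix ι ι ℂ) := by
        ext i j
        rw [Matrix.map_apply, Matrix.algebraMap_matrix_apply, Matrix.smul_apply, Matrix.one_apply]
        split_ifs <;> simp
      rw [h4, Matrix.smul_mulVec, Matrix.one_mulVec]
      exact Submodule.smul_mem _ _ hv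
    | add a b _ _ ha hb =>
      have h4 : (a + b).map φ = a.map φ + b.map φ := by
        ext i j; simp
      rw [h4, Matrix.add_mulVec]
      exact Submodule.add_mem _ (ha v hv) (hb v hv)
    | mul a b _ _ ha hb =>
      rw [map_mulM, ← Matrix.mulVec_mulVec]
      exact ha _ (hb v hv)
  -- the complement
  have hmain : ∀ y : Matrix ι ι ℚ_[ℓ], Kill H ℚ_[ℓ] y → dp (Fin (n + 1)) y *ᵥ a = 0 := by
    intro y hy
    obtain ⟨b, hb⟩ : ∃ b, b = y - p y := ⟨_, rfl⟩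
    have hpy := htkK _ (hp.mem y)
    have hbk : Kill H ℚ_[ℓ] b := by
      rw [hb]
      exact mem_killAll.1 (Submodule.sub_mem (killAll H ℚ_[ℓ] S) (mem_killAll.2 hy)
        (mem_killAll.2 hpy))
    have hpb : p b = 0 := by rw [hb, map_sub, hp.id _ (hp.mem y), sub_self]
    have hcomm : ∀ N ∈ Ns, N * b.map φ = b.map φ * N := by
      intro N hN
      have hNt : N ∈ tkC deg G χ φ S := (mem_tkC φ).2 (hN1 N hN)
      obtain ⟨c, hc⟩ : ∃ c, c = br N (b.map φ) := ⟨_, rfl⟩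
      have hct : c ∈ tkC deg G χ φ S := by
        have h3 : c = br N (y.map φ) - br N ((p y).map φ) := by
          have h4 : b.map φ = y.map φ - (p y).map φ := by
            rw [hb]; ext i j; simp
          rw [hc, h4]
          simp only [br, Matrix.mul_sub, Matrix.sub_mul]
          abel
        rw [h3]
        exact Submodule.sub_mem _ (hbr N hN y hy) (tkC_br φ hNt (tk_map φ (hp.mem y)))
      have h3 : vec2 (c * BC) = 0 := by
        rw [← hPc c hct, hc, ← hdpC N (htkC hNt), Matrix.mulVec_mulVec, ← hPN N hNt,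
          ← Matrix.mulVec_mulVec, hPz, hpb]
        have h4 : (0 : Matrix ι ι ℚ_[ℓ]).map φ = 0 := by ext i j; simp
        rw [h4, Matrix.zero_mul, map_zero, Matrix.mulVec_zero]
      have h4 : c * BC = 0 := vec2.injective (h3.trans (map_zero _).symm)
      have h5 := congrArg (fun M => M * QC) h4
      simp only [Matrix.mul_assoc, hBQC, Matrix.mul_one, Matrix.zero_mul] at h5
      rw [hc, br] at h5
      exact eq_of_sub_eq_zero h5
    obtain ⟨Δ, hΔ, hgb⟩ := hN3 b (hkE b hbk) hcomm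
    have hbc : ∀ z : Matrix ι ι ℚ_[ℓ], Kill H ℚ_[ℓ] z → b * z = z * b := by
      intro z hz
      have h3 := comm_of_gens' S (logs_inf hL hΔ) hG hM (fun u hu => hk u hu.1) hkE h2
        (x := b) ?_ hz
      · obtain ⟨c, hc⟩ : ∃ c, c = b * z - z * b := ⟨_, rfl⟩
        have h4 : c * Ed ℚ_[ℓ] deg m = 0 := by
          rw [hc, Matrix.sub_mul, Matrix.mul_assoc z b, h3, Matrix.mul_assoc b z,
            ← Ed_comm (hkE z hz) m, ← Matrix.mul_assoc, sub_self]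
        have h5 : c.map φ ∈ ho H := by
          have h6 : c.map φ = br (b.map φ) (z.map φ) := by
            have h7 : c.map φ = (b * z).map φ - (z * b).map φ := by
              rw [hc]
              ext i j
              rw [Matrix.map_apply, Matrix.sub_apply, map_sub]
              rfl
            rw [h7, map_mulM, map_mulM]
            rfl
          rw [h6]
          exact ho_br (ho_map_kill φ S hbk) (ho_map_kill φ S hz)
        have h6 : c.map φ * cQ (Eq D.deg m) = 0 := by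
          have h7 : (Ed ℚ_[ℓ] deg m).map φ = cQ (Eq D.deg m) := by
            rw [cQ_Eq, hD]
            ext i j
            rw [Matrix.map_apply, Ed, Matrix.diagonal_apply, Matrix.diagonal_apply]
            split_ifs <;> simp
          rw [← h7, ← map_mulM, h4]
          ext i j; simp
        have h8 := ho_mid_zero D htop hgr h1o hfin h5 h6
        have h9 : c = 0 := by
          ext i j
          have h10 := congrFun (congrFun h8 i) j
          rw [Matrix.map_apply, Matrix.zero_apply] at h10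
          exact φ.injective (h10.trans (map_zero φ).symm)
        rw [hc] at h9
        exact sub_eq_zero.1 h9
      · rintro _ (⟨u, hu, rfl⟩ | ⟨δ, rfl⟩)
        · have h3 := log_comm (hL.log u hu.1) (hgb u hu.2)
          rw [Yt, Matrix.mul_sub, Matrix.sub_mul, h3, Matrix.mul_smul, Matrix.smul_mul,
            DD_comm (hkE b hbk)]
        · exact (Ed_comm (hkE b hbk) δ).symm
    have h5 : dp (Fin (n + 1)) b *ᵥ a = 0 := hcen b hbk hbc n j a ha
    have h6 : dp (Fin (n + 1)) (p y) *ᵥ a = 0 := mem_tk.1 (hp.mem y) n j a ha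
    have h7 : y = b + p y := by rw [hb]; abel
    have h8 : y ∈ killSub S a := by
      rw [h7]
      exact Submodule.add_mem _ h5 h6
    exact h8
  exact S.hodge ι H ℚ_[ℓ] n a hmain

end Pool.Agent.N996.TQ
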