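import Pool.Agent.N202.TB.Ad

/-!
# Hodge-Tate operators and abelian varieties: definitions
-/

open CategoryTheory AlgebraicGeometry

universe u

namespace Pool.Agent.N996.TQ

open Pool.Agent.H914 Pool.Agent.H914.VarClass Pool.Agent.H914.VarClass.Obj
  Pool.Agent.H914.WeilCohomology Pool.Agent.Y121.AHS
open Pool.Agent.N202.TB.Gn
open Pool.Agent.N202.TB.Ad (Adic Hl IsTate KillsOn)

section

variable {ℓ : ℕ} [Fact ℓ.Prime] {V : Type} [AddCommGroup V] [Module ℚ_[ℓ] V]

/-- Let `g` be a Lie algebra of operators on the graded space `V` with the action `ρ` of `Γ`. An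
element `N = ∑ c i ⊗ x i` of `ℂ ⊗ g` (the tensor product with respect to `φ : ℚ_ℓ → ℂ`) is of
Hodge-Tate type if its square is the identity in degree one (as for the operator with the
eigenvalues `p - q` given by a Hodge-Tate decomposition of the cohomology of an abelian variety).
The property: the linear operators `y` on `V` which preserve the degrees and commute with all
elements of `ℂ ⊗ g` of Hodge-Tate type commute with the action of a subgroup of finite index.
(The equalities of operators on `ℂ ⊗ V` are checked in all linear coordinates `f`.) -/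
def HTGenerated {Γ : Type} [Group Γ] (ρ : Γ → V → V) (deg : ℕ → V → Prop)
    (g : (V → V) → Prop) : Prop :=
  ∃ φ : ℚ_[ℓ] →+* ℂ, ∀ y : V → V, IsLin ℚ_[ℓ] y → (∀ i v, deg i v → deg i (y v)) →
    (∀ (n : ℕ) (c : Fin n → ℂ) (x : Fin n → V → V), (∀ i, g (x i)) →
      (∀ v, deg 1 v → ∀ f : V →ₛₗ[φ] ℂ, ∑ i, ∑ j, c i * c j * f (x i (x j v)) = f v) →
      ∀ (v : V) (f : V →ₛₗ[φ] ℂ), ∑ i, c i * f (x i (y v)) = ∑ i, c i * f (y (x i v))) →
    ∃ Δ : Subgroup Γ, Δ.FiniteIndex ∧ ∀ h ∈ Δ, ∀ v, ρ h (y v) = y (ρ h v)

end

section

variable {K A : Type} [Field K] [Ring A] [Algebra K A]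

/-- The subspace `p` has dimension `d` and generates the algebra `A`. -/
def GenDim (p : Submodule K A) (d : ℕ) : Prop :=
  Algebra.adjoin K (p : Set A) = ⊤ ∧ Module.finrank K p = d

end

section

variable {k : Type u} [Field k] {𝒱 : VarClass k} {ops : CycleOps 𝒱} {T : HodgeTheory ops}
  (E : Adic T.W) (X : 𝒱.Obj)

/-- The Lie algebra of the image of the Galois group is generated by operators of Hodge-Tate type
(Serre, Pink): the operators on `ℚ_ℓ ⊗ H(X)` which preserve the degrees and commute with all
operators of Hodge-Tate type commute with a subgroup of finite index of the Galois group. Here the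
Lie algebra consists of the operators which (acting as derivations) kill the Tate classes on all
powers of `X`. -/
def HodgeTateGenerated : Prop :=
  HTGenerated (ℓ := E.ℓ) (V := Hl E X) (E.ρ X) IsDeg (KillsOn fun _ => IsTate)

/-- The hypotheses, which are known if `X` is an abelian variety: the cohomology algebra of `X` is
generated by the cohomology of degree one, of dimension `2 dim X`; the Hodge classes on the powers of
`X` are Tate classes, the adjoint Galois representation is semisimple, the centre of the Lie algebra
of the Hodge group kills the Tate classes (`OfAbelianType`: Deligne; Faltings; Vasiu, Ullmo and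
Yafaev); the Lie algebra of the image of the Galois group is generated by operators of Hodge-Tate
type (Serre, Pink). -/
structure IsAbelian : Prop where
  gen : GenDim (T.W.gr X 1) (2 * X.dim)
  known : Pool.Agent.N202.TB.Ad.OfAbelianType E X
  hodgeTate : HodgeTateGenerated E X

end

end Pool.Agent.N996.TQ
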