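import Pool.Agent.N996.BP.Ext2

/-!
# Polarisations and the centre of the endomorphism algebra: definitions
-/

namespace Pool.Agent.N996.TQ

open Pool.Agent.Y121.AHS (Ext extMap)
open Pool.Agent.N996.BP (Bil extConj extBil IsRat)

/-- The difference of the traces of `f` on the vectors with the property `P` and on the vectors with
the property `Q` is zero: the trace of the linear operator `G` is zero if `G` is `f` on the vectors
with the property `P`, `-f` on those with the property `Q`, and zero on those with the property `R`. -/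
def TrDiff {E : Type} [AddCommGroup E] [Module ℂ E] (f : E → E) (P Q R : E → Prop) : Prop :=
  ∀ G : E →ₗ[ℂ] E, (∀ x, P x → G x = f x) → (∀ x, Q x → G x = -f x) → (∀ x, R x → G x = 0) →
    LinearMap.trace ℂ E G = 0

variable {K A : Type} [Field K] [Ring A] [Algebra K A] [Algebra K ℂ]

/-- The types `ty p q` (the vectors of type `(p, q)` in `ℂ ⊗ A`) are a Hodge structure on `A` with
polarisation `ψ`: nonzero vectors have types `(p, q)` with `p` and `q` between `0` and `d`, the
complex conjugation maps vectors of type `(p, q)` to vectors of type `(q, p)`, the rational bilinear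
form `ψ` vanishes on vectors of types `(p, q)` and `(r, s)` unless `(r, s) = (q, p)`, and
`i ^ (p - q) ψ(x, x̄)` is a positive real number for all nonzero `x` of type `(p, q)`. -/
structure Polar (h : IsRat K) (ty : ℤ → ℤ → Ext K ℂ A → Prop) (d : ℕ) (ψ : Bil K A) : Prop where
  range : ∀ p q x, ty p q x → x ≠ 0 → 0 ≤ p ∧ p ≤ d ∧ 0 ≤ q ∧ q ≤ d
  conj : ∀ p q x, ty p q x → ty q p (extConj h x)
  orth : ∀ p q r s x y, ty p q x → ty r s y → (r ≠ q ∨ s ≠ p) → extBil ψ x y = 0
  pos : ∀ p q x, ty p q x → x ≠ 0 →
    ∃ r : ℝ, 0 < r ∧ Complex.I ^ (p - q) * extBil ψ x (extConj h x) = r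

/-- The map `f` induces an endomorphism of the rational Hodge structure `V` of weight one: it maps
`V` to itself and preserves the types `(p, q)` with `p + q = 1`. -/
def IsEnd (V : Submodule K A) (ty : ℤ → ℤ → Ext K ℂ A → Prop) (f : A →ₗ[K] A) : Prop :=
  (∀ c ∈ V, f c ∈ V) ∧ ∀ p q x, p + q = 1 → ty p q x → ty p q (extMap K ℂ f x)

/-- The map `f` induces an element of the centre of the algebra of the endomorphisms of the rational
Hodge structure `V` of weight one. -/
def IsCen (V : Submodule K A) (ty : ℤ → ℤ → Ext K ℂ A → Prop) (f : A →ₗ[K] A) : Prop :=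
  IsEnd V ty f ∧ ∀ g, IsEnd V ty g → ∀ c ∈ V, f (g c) = g (f c)

/-- The admissible exponents `N` for an abelian variety of dimension `d` with `V = H^1(X)` and the
polarisation `ψ`: two if the elements of the centre of the algebra of endomorphisms are self-adjoint
for `ψ` (no simple factor of `X` is of type IV), `max(2, 2 d)` if they have equal traces on the
vectors of type `(1, 0)` and on the vectors of type `(0, 1)` (the Hodge group is semisimple), and
always `max(4, 2 d ^ (2 d))`. -/
def Adm (V : Submodule K A) (ty : ℤ → ℤ → Ext K ℂ A → Prop) (ψ : Bil K A) (d N : ℕ) : Prop :=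
  ((∀ f, IsCen V ty f → ∀ a ∈ V, ∀ b ∈ V, ψ (f a) b = ψ a (f b)) ∧ N = 2) ∨
    ((∀ f, IsCen V ty f →
      TrDiff (extMap K ℂ f) (ty 1 0) (ty 0 1) fun x => ∃ p q, p + q ≠ 1 ∧ ty p q x) ∧
        N = max 2 (2 * d)) ∨ N = max 4 (2 * d ^ (2 * d))

end Pool.Agent.N996.TQ
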