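import Pool.Agent.N996.TQ.Defs

/-!
# The middle part of the cohomology of the square: definitions
-/

open CategoryTheory AlgebraicGeometry

universe u

namespace Pool.Agent.N996.TQ

open Pool.Agent.H914 Pool.Agent.H914.VarClass Pool.Agent.H914.VarClass.Obj
  Pool.Agent.H914.WeilCohomology Pool.Agent.Y121.AHS
open Pool.Agent.Y133.Half (pw)
open Pool.Agent.N202.TB.Ad (Adic Hl IsTate IsComb ext)

/-- The element `x` is a linear combination of the elements `m a b` such that `a` and `b` have the
property `P`. -/
def InSpan (L : Type) [Field L] {U V : Type} [AddCommGroup V] [Module L V] (m : U → U → V)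
    (P : U → Prop) (x : V) : Prop :=
  x ∈ Submodule.span L {y | ∃ a b, P a ∧ P b ∧ m a b = y}

variable {k : Type u} [Field k] {𝒱 : VarClass k} {ops : CycleOps 𝒱} {T : HodgeTheory ops}
  (E : Adic T.W) (X : 𝒱.Obj)

/-- The Tate classes in `(H^g(X) ⊗ H^g(X))(g)` on `X × X`, where `g = dim X`, are combinations of
Hodge classes: if the class `x` on `X × X` is a combination of external products of two classes of
degree `g` and a Tate class (of degree `2 g`), then `x` is a combination of Hodge classes on
`X × X`. -/
def MiddleTateIsHodge : Prop :=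
  ∀ x : Hl E (pw X 1), InSpan ℚ_[E.ℓ] (ext (E := E) (n := 0)) (IsDeg (X := X) X.dim) x →
    IsTate X.dim x → IsComb (IsHodge T (pw X 1) X.dim) x

end Pool.Agent.N996.TQ
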