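import Pool.Agent.N996.TQ.Pt
import Pool.Agent.N202.TB.Core6

/-!
# Density for the Lie algebra of the Galois group
-/

set_option linter.unusedSectionVars false

namespace Pool.Agent.N996.TQ

open Matrix Filter Topology
open Pool.Agent.N996.BP Pool.Agent.N202.TB

section Ed

variable {ι : Type} [Fintype ι] [DecidableEq ι] {L : Type} [Field L] {deg : ι → ℕ}

/-- The projectors to the degrees. -/
def Ed (L : Type) [Field L] (deg : ι → ℕ) (δ : ℕ) : Matrix ι ι L :=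
  Matrix.diagonal fun i => if deg i = δ then 1 else 0

lemma Ed_comm {y : Matrix ι ι L} (hy : y ∈ E0 deg L) (δ : ℕ) :
    Ed L deg δ * y = y * Ed L deg δ := by
  ext i j
  rw [Ed, Matrix.mul_diagonal, Matrix.diagonal_mul]
  by_cases h : deg i = deg j
  · rw [h, mul_comm]
  · rw [hy i j h, zero_mul, mul_zero]

lemma E0_of_comm {y : Matrix ι ι L} (hy : ∀ δ, Ed L deg δ * y = y * Ed L deg δ) :
    y ∈ E0 deg L := by
  intro i j h
  have h1 := congrFun (congrFun (hy (deg i)) i) j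
  rw [Ed, Matrix.mul_diagonal, Matrix.diagonal_mul, if_pos rfl, one_mul,
    if_neg (fun h2 => h h2.symm), mul_zero] at h1
  exact h1

lemma Ed_mem (δ : ℕ) : Ed L deg δ ∈ E0 deg L := by
  intro i j h
  rw [Ed, Matrix.diagonal_apply_ne]
  rintro rfl
  exact h rfl

lemma Ed_sum : ∑ δ ∈ Finset.univ.image deg, Ed L deg δ = 1 := by
  ext i j
  rw [Matrix.sum_apply, Finset.sum_eq_single (deg i)]
  · by_cases h : i = j
    · subst h
      rw [Ed, Matrix.diagonal_apply_eq, if_pos rfl, Matrix.one_apply_eq]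
    · rw [Ed, Matrix.diagonal_apply_ne _ h, Matrix.one_apply_ne h]
  · intro δ _ hδ
    by_cases h : i = j
    · subst h
      rw [Ed, Matrix.diagonal_apply_eq, if_neg (Ne.symm hδ)]
    · rw [Ed, Matrix.diagonal_apply_ne _ h]
  · intro h
    exact absurd (Finset.mem_image_of_mem deg (Finset.mem_univ i)) h

lemma Ed_DD : DD deg L = ∑ δ ∈ Finset.univ.image deg, (δ : L) • Ed L deg δ := by
  ext i j
  rw [Matrix.sum_apply, Finset.sum_eq_single (deg i)]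
  · by_cases h : i = j
    · subst h
      rw [Matrix.smul_apply, Ed, Matrix.diagonal_apply_eq, if_pos rfl, DD,
        Matrix.diagonal_apply_eq, smul_eq_mul, mul_one]
    · rw [Matrix.smul_apply, Ed, Matrix.diagonal_apply_ne _ h, DD, Matrix.diagonal_apply_ne _ h,
        smul_zero]
  · intro δ _ hδ
    by_cases h : i = j
    · subst h
      rw [Matrix.smul_apply, Ed, Matrix.diagonal_apply_eq, if_neg (Ne.symm hδ), smul_zero]
    · rw [Matrix.smul_apply, Ed, Matrix.diagonal_apply_ne _ h, smul_zero]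
  · intro h
    exact absurd (Finset.mem_image_of_mem deg (Finset.mem_univ i)) h

lemma Ed_mul (δ ε : ℕ) : Ed L deg δ * Ed L deg ε = if δ = ε then Ed L deg δ else 0 := by
  ext i j
  rw [Ed, Ed, Matrix.diagonal_mul_diagonal]
  by_cases h : i = j
  · subst h
    by_cases h1 : δ = ε
    · subst h1
      rw [if_pos rfl, Matrix.diagonal_apply_eq, Matrix.diagonal_apply_eq]
      split_ifs <;> simp
    · rw [if_neg h1, Matrix.diagonal_apply_eq, Matrix.zero_apply]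
      by_cases h2 : deg i = δ
      · rw [if_neg (fun h3 : deg i = ε => h1 (h2.symm.trans h3)), mul_zero]
      · rw [if_neg h2, zero_mul]
  · rw [Matrix.diagonal_apply_ne _ h]
    split_ifs
    · rw [Matrix.diagonal_apply_ne _ h]
    · rfl

end Ed

section Gal

variable {ι : Type} [Fintype ι] [DecidableEq ι] {ℓ : ℕ} [Fact ℓ.Prime] {Γ : Type} [Group Γ]
  {deg : ι → ℕ} {G : Γ → Matrix ι ι ℚ_[ℓ]} {χ : Γ → ℚ_[ℓ]}
  {U : Subgroup Γ} {Y : Γ → Matrix ι ι ℚ_[ℓ]} {lam : Γ → ℚ_[ℓ]}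

/-- Subspaces which are stable under the group are stable under the logarithms. -/
lemma stab_log (S : Steps) (hL : Logs G χ U Y lam) (hG : GalArr deg G χ)
    {C : Submodule ℚ_[ℓ] (ι → ℚ_[ℓ])} (hC : ∀ g ∈ U, ∀ v ∈ C, G g *ᵥ v ∈ C)
    (hE : ∀ δ, ∀ v ∈ C, Ed ℚ_[ℓ] deg δ *ᵥ v ∈ C) {u : Γ} (hu : u ∈ U) {v : ι → ℚ_[ℓ]}
    (hv : v ∈ C) : Yt deg Y lam u *ᵥ v ∈ C := by
  let F : Submodule ℚ_[ℓ] (Matrix ι ι ℚ_[ℓ]) :=
    { carrier := {x | ∀ v, x *ᵥ v ∈ C}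
      add_mem' := fun {a b} ha hb v => by
        rw [Matrix.add_mulVec]; exact Submodule.add_mem _ (ha v) (hb v)
      zero_mem' := fun v => by rw [Matrix.zero_mulVec]; exact Submodule.zero_mem _
      smul_mem' := fun c a ha v => by
        rw [Matrix.smul_mulVec]; exact Submodule.smul_mem _ c (ha v) }
  have hF : ∀ g ∈ U, ∀ x ∈ F, G g * x * G g⁻¹ ∈ F := by
    intro g hg x hx v
    rw [← Matrix.mulVec_mulVec, ← Matrix.mulVec_mulVec]
    exact hC g hg _ (hx _)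
  have h1 : Y u *ᵥ v ∈ C := by
    rcases isEmpty_or_nonempty ι with he | ⟨⟨j⟩⟩
    · rw [Subsingleton.elim (Y u *ᵥ v) 0]
      exact Submodule.zero_mem _
    have hx : ∀ w, Matrix.vecMulVec v (Pi.single j (1 : ℚ_[ℓ])) *ᵥ w = w j • v := by
      intro w
      ext x
      rw [Matrix.mulVec, dotProduct, Finset.sum_eq_single j]
      · simp [Matrix.vecMulVec_apply, mul_comm]
      · intro b _ hb
        simp [Matrix.vecMulVec_apply, Pi.single_eq_of_ne hb]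
      · intro h; exact absurd (Finset.mem_univ _) h
    have hxF : Matrix.vecMulVec v (Pi.single j (1 : ℚ_[ℓ])) ∈ F := by
      intro w
      rw [hx]
      exact Submodule.smul_mem _ _ hv
    have h2 := ad_stable S hL hG hF hu hxF (Pi.single j 1)
    rw [Matrix.sub_mulVec, ← Matrix.mulVec_mulVec, ← Matrix.mulVec_mulVec, hx,
      Pi.single_eq_same, one_smul] at h2
    have h3 := Submodule.add_mem _ h2 (hxF (Y u *ᵥ Pi.single j 1))
    rwa [sub_add_cancel] at h3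
  rw [Yt, Matrix.sub_mulVec, Matrix.smul_mulVec]
  refine Submodule.sub_mem _ h1 (Submodule.smul_mem _ _ ?_)
  rw [Ed_DD, Matrix.sum_mulVec]
  refine Submodule.sum_mem _ fun δ _ => ?_
  rw [Matrix.smul_mulVec]
  exact Submodule.smul_mem _ _ (hE δ v hv)

/-- The generators. -/
def gens (deg : ι → ℕ) (U : Subgroup Γ) (Y : Γ → Matrix ι ι ℚ_[ℓ]) (lam : Γ → ℚ_[ℓ]) :
    Set (Matrix ι ι ℚ_[ℓ]) :=
  {y | (∃ u ∈ U, Yt deg Y lam u = y) ∨ ∃ δ, Ed ℚ_[ℓ] deg δ = y}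

/-- The complement of a graded stable subspace. -/
lemma exists_gretr (hG : GalArr deg G χ) (hss : AdSS G) (hU : U.FiniteIndex)
    (S : Submodule ℚ_[ℓ] (ι → ℚ_[ℓ])) (hS : ∀ g ∈ U, ∀ v ∈ S, G g *ᵥ v ∈ S)
    (hE : ∀ δ, ∀ v ∈ S, Ed ℚ_[ℓ] deg δ *ᵥ v ∈ S) :
    ∃ R : Matrix ι ι ℚ_[ℓ], (∀ v, R *ᵥ v ∈ S) ∧ (∀ v ∈ S, R *ᵥ v = v) ∧
      (∀ g ∈ U, G g * R = R * G g) ∧ ∀ δ, Ed ℚ_[ℓ] deg δ * R = R * Ed ℚ_[ℓ] deg δ := by
  obtain ⟨R, hR1, hR2, hR3⟩ := exists_retr (I := {u : Γ // u ∈ U}) (g := fun u => G u)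
    (g' := fun u => G (u : Γ)⁻¹) (fun u => hG.inv u) (fun F hF => by
      obtain ⟨F', hF', hc⟩ := hss U hU F fun g hg x hx => hF ⟨g, hg⟩ x hx
      exact ⟨F', fun u x hx => hF' u u.2 x hx, hc⟩) S fun u v hv => hS u u.2 v hv
  refine ⟨∑ δ ∈ Finset.univ.image deg, Ed ℚ_[ℓ] deg δ * R * Ed ℚ_[ℓ] deg δ, fun v => ?_,
    fun v hv => ?_, fun g hg => ?_, fun δ => ?_⟩
  · rw [Matrix.sum_mulVec]
    refine Submodule.sum_mem _ fun δ _ => ?_
    rw [← Matrix.mulVec_mulVec, ← Matrix.mulVec_mulVec]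
    exact hE δ _ (hR1 _)
  · rw [Matrix.sum_mulVec]
    have h1 : ∀ δ, (Ed ℚ_[ℓ] deg δ * R * Ed ℚ_[ℓ] deg δ) *ᵥ v = Ed ℚ_[ℓ] deg δ *ᵥ v := by
      intro δ
      rw [← Matrix.mulVec_mulVec, ← Matrix.mulVec_mulVec, hR2 _ (hE δ v hv), Matrix.mulVec_mulVec,
        Ed_mul, if_pos rfl]
    simp only [h1]
    rw [← Matrix.sum_mulVec, Ed_sum, Matrix.one_mulVec]
  · rw [Matrix.mul_sum, Matrix.sum_mul]
    refine Finset.sum_congr rfl fun δ _ => ?_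
    have h1 := Ed_comm (hG.mem g) δ
    have h2 := hR3 ⟨g, hg⟩
    calc G g * (Ed ℚ_[ℓ] deg δ * R * Ed ℚ_[ℓ] deg δ) =
        (G g * Ed ℚ_[ℓ] deg δ) * R * Ed ℚ_[ℓ] deg δ := by simp only [Matrix.mul_assoc]
      _ = Ed ℚ_[ℓ] deg δ * (G g * R) * Ed ℚ_[ℓ] deg δ := by
          rw [← h1]; simp only [Matrix.mul_assoc]
      _ = Ed ℚ_[ℓ] deg δ * R * (G g * Ed ℚ_[ℓ] deg δ) := by
          rw [show G g * R = R * G g from h2]; simp only [Matrix.mul_assoc]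
      _ = _ := by rw [← h1]; simp only [Matrix.mul_assoc]
  · rw [Matrix.mul_sum, Matrix.sum_mul]
    refine Finset.sum_congr rfl fun ε _ => ?_
    have h1 : Ed ℚ_[ℓ] deg δ * (Ed ℚ_[ℓ] deg ε * R * Ed ℚ_[ℓ] deg ε) =
        (Ed ℚ_[ℓ] deg δ * Ed ℚ_[ℓ] deg ε) * R * Ed ℚ_[ℓ] deg ε := by simp only [Matrix.mul_assoc]
    have h2 : Ed ℚ_[ℓ] deg ε * R * Ed ℚ_[ℓ] deg ε * Ed ℚ_[ℓ] deg δ =
        Ed ℚ_[ℓ] deg ε * R * (Ed ℚ_[ℓ] deg ε * Ed ℚ_[ℓ] deg δ) := by simp only [Matrix.mul_assoc]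
    rw [h1, h2, Ed_mul, Ed_mul]
    by_cases h : δ = ε
    · subst h
      rw [if_pos rfl]
    · rw [if_neg h, if_neg (Ne.symm h), Matrix.zero_mul, Matrix.zero_mul, Matrix.mul_zero]

/-- **Density.** -/
theorem mem_adjoin (S : Steps) (hL : Logs G χ U Y lam) (hG : GalArr deg G χ) (hss : AdSS G)
    {y : Matrix ι ι ℚ_[ℓ]}
    (hy : ∀ x : Matrix ι ι ℚ_[ℓ], (∀ a ∈ gens deg U Y lam, x * a = a * x) → y * x = x * y) :
    y ∈ Algebra.adjoin ℚ_[ℓ] (gens deg U Y lam) := by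
  obtain ⟨Φ, hΦ⟩ : ∃ Φ : Matrix ι ι ℚ_[ℓ] ≃ₐ[ℚ_[ℓ]] Module.End ℚ_[ℓ] (ι → ℚ_[ℓ]),
    ∀ M v, Φ M v = M *ᵥ v := ⟨Matrix.toLinAlgEquiv', fun M v => rfl⟩
  have hsurj : ∀ f, ∃ M, Φ M = f := Φ.surjective
  let eG : Γ → ((ι → ℚ_[ℓ]) ≃ₗ[ℚ_[ℓ]] (ι → ℚ_[ℓ])) := fun g =>
    { toFun := fun v => G g *ᵥ v
      map_add' := fun a b => Matrix.mulVec_add _ a b
      map_smul' := fun c a => Matrix.mulVec_smul _ c a
      invFun := fun v => G g⁻¹ *ᵥ v
      left_inv := fun v => by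
        change G g⁻¹ *ᵥ (G g *ᵥ v) = v
        rw [Matrix.mulVec_mulVec, hG.inv', Matrix.one_mulVec]
      right_inv := fun v => by
        change G g *ᵥ (G g⁻¹ *ᵥ v) = v
        rw [Matrix.mulVec_mulVec, hG.inv, Matrix.one_mulVec] }
  have h1 : Φ y ∈ Algebra.adjoin ℚ_[ℓ] (Φ '' gens deg U Y lam) := by
    refine density (Gs := {γ | ∃ u ∈ U, eG u = γ}) ?_ ?_ ?_ ?_
    · rintro _ ⟨u, hu, rfl⟩ _ ⟨a, ha, rfl⟩
      have h2 : (eG u).toLinearMap * Φ a * (eG u).symm.toLinearMap = Φ (G u * a * G u⁻¹) := by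
        refine LinearMap.ext fun v => ?_
        rw [hΦ, ← Matrix.mulVec_mulVec, ← Matrix.mulVec_mulVec]
        change G u *ᵥ (Φ a (G u⁻¹ *ᵥ v)) = _
        rw [hΦ]
      rw [h2]
      refine ⟨_, ?_, rfl⟩
      rcases ha with ⟨u', hu', rfl⟩ | ⟨δ, rfl⟩
      · rw [hL.Yt_conj hG hu hu']
        exact Or.inl ⟨_, U.mul_mem (U.mul_mem hu hu') (U.inv_mem hu), rfl⟩
      · rw [← Ed_comm (hG.mem u), Matrix.mul_assoc, hG.inv, Matrix.mul_one]
        exact Or.inr ⟨δ, rfl⟩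
    · rintro _ ⟨u, hu, rfl⟩
      refine ⟨u⁻¹, U.inv_mem hu, ?_⟩
      ext v : 1
      rfl
    · intro C hCX hCG
      have hCE : ∀ δ, ∀ v ∈ C, Ed ℚ_[ℓ] deg δ *ᵥ v ∈ C := fun δ v hv => by
        have := hCX (Φ (Ed ℚ_[ℓ] deg δ)) ⟨_, Or.inr ⟨δ, rfl⟩, rfl⟩ v hv
        rwa [hΦ] at this
      have hCU : ∀ g ∈ U, ∀ v ∈ C, G g *ᵥ v ∈ C := fun g hg v hv =>
        hCG (eG g) ⟨g, hg, rfl⟩ v hv
      obtain ⟨R, hR1, hR2, hR3, hR4⟩ := exists_gretr hG hss hL.fin C hCU hCE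
      let C' : Submodule ℚ_[ℓ] (ι → ℚ_[ℓ]) :=
        { carrier := {v | R *ᵥ v = 0}
          add_mem' := fun {a b} ha hb => by
            change R *ᵥ (a + b) = 0
            rw [Matrix.mulVec_add, show R *ᵥ a = 0 from ha, show R *ᵥ b = 0 from hb, add_zero]
          zero_mem' := Matrix.mulVec_zero _
          smul_mem' := fun c a ha => by
            change R *ᵥ (c • a) = 0
            rw [Matrix.mulVec_smul, show R *ᵥ a = 0 from ha, smul_zero] }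
      have hU' : ∀ g ∈ U, ∀ v ∈ C', G g *ᵥ v ∈ C' := by
        intro g hg v hv
        change R *ᵥ (G g *ᵥ v) = 0
        rw [Matrix.mulVec_mulVec, ← hR3 g hg, ← Matrix.mulVec_mulVec, show R *ᵥ v = 0 from hv,
          Matrix.mulVec_zero]
      have hE' : ∀ δ, ∀ v ∈ C', Ed ℚ_[ℓ] deg δ *ᵥ v ∈ C' := by
        intro δ v hv
        change R *ᵥ (Ed ℚ_[ℓ] deg δ *ᵥ v) = 0
        rw [Matrix.mulVec_mulVec, ← hR4 δ, ← Matrix.mulVec_mulVec, show R *ᵥ v = 0 from hv,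
          Matrix.mulVec_zero]
      refine ⟨C', ?_, IsCompl.of_eq ?_ ?_⟩
      · rintro _ ⟨a, ha, rfl⟩ v hv
        rw [hΦ]
        rcases ha with ⟨u, hu, rfl⟩ | ⟨δ, rfl⟩
        · exact stab_log S hL hG hU' hE' hu hv
        · exact hE' δ v hv
      · rw [eq_bot_iff]
        rintro v ⟨hv1, hv2⟩
        change R *ᵥ v = 0 at hv2
        rw [hR2 v hv1] at hv2
        exact hv2
      · rw [eq_top_iff]
        intro v _
        refine Submodule.mem_sup.2 ⟨R *ᵥ v, hR1 v, v - R *ᵥ v, ?_, add_sub_cancel _ _⟩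
        change R *ᵥ (v - R *ᵥ v) = 0
        rw [Matrix.mulVec_sub, hR2 _ (hR1 v), sub_self]
    · intro f hf
      obtain ⟨x, rfl⟩ := hsurj f
      rw [← map_mul, ← map_mul, hy x fun a ha => ?_]
      have h2 := hf (Φ a) ⟨a, ha, rfl⟩
      rw [← map_mul, ← map_mul] at h2
      exact Φ.injective h2
  have h2 : Algebra.adjoin ℚ_[ℓ] (Φ '' gens deg U Y lam) =
      (Algebra.adjoin ℚ_[ℓ] (gens deg U Y lam)).map Φ.toAlgHom := by
    rw [AlgHom.map_adjoin]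
    rfl
  rw [h2] at h1
  obtain ⟨y', hy', h3⟩ := h1
  have h4 : y' = y := Φ.injective h3
  rwa [h4] at hy'

variable {H : HData ι}

/-- Hodge arrays with two indices. -/
lemma kill_arr2 (S : Steps) {L : Type} [Field L] [CharZero L] {z : Matrix ι ι L}
    (hz : Kill H L z) {M : Matrix ι ι ℚ}
    (hM : (fun w : Fin (1 + 1) → ι => M (w 0) (w 1)) ∈ BB H (Fin (1 + 1))) :
    z * mL L M + mL L M * zᵀ = 0 := by
  have h1 := hz 1 _ hM
  have h2 := S.two L ι z (mL L M)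
  have h3 : aL L (fun w : Fin (1 + 1) → ι => M (w 0) (w 1)) =
      fun w : Fin 2 → ι => mL L M (w 0) (w 1) := rfl
  rw [h3] at h1
  have h4 := h2.symm.trans h1
  ext i j
  have h5 := congrFun h4 ![i, j]
  simpa using h5

/-- The data of the duality: `M` is a Hodge array of total degree `2 m`, with the inverse `M'`. -/
structure IsDual (H : HData ι) (deg : ι → ℕ) (m : ℕ) (M M' : Matrix ι ι ℚ) : Prop where
  inv : M * M' = 1
  mem : (fun w : Fin (1 + 1) → ι => M (w 0) (w 1)) ∈ BB H (Fin (1 + 1))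
  deg : ∀ i j, M i j ≠ 0 → deg i + deg j = 2 * m

/-- Matrices which commute with the generators. -/
theorem comm_of_gens (S : Steps) (hL : Logs G χ U Y lam) (hG : GalArr deg G χ)
    {m : ℕ} {M M' : Matrix ι ι ℚ} (hM : IsDual H deg m M M')
    (hk : ∀ u ∈ U, Kill H ℚ_[ℓ] (Yt deg Y lam u))
    (h2 : ∀ a, TateArr deg G χ 1 m a → (∀ w, a w ≠ 0 → deg (w 0) = m ∧ deg (w 1) = m) →
      a ∈ hspan H ℚ_[ℓ] 1)
    {x : Matrix ι ι ℚ_[ℓ]} (hx : ∀ a ∈ gens deg U Y lam, x * a = a * x)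
    (hxm : ∀ i j, x i j ≠ 0 → deg j = m)
    {y : Matrix ι ι ℚ_[ℓ]} (hy : Kill H ℚ_[ℓ] y) : y * x = x * y := by
  have hxE : x ∈ E0 deg ℚ_[ℓ] := E0_of_comm fun δ => (hx _ (Or.inr ⟨δ, rfl⟩)).symm
  obtain ⟨B, hB⟩ : ∃ B, B = mL ℚ_[ℓ] M := ⟨_, rfl⟩
  obtain ⟨Q, hQ'⟩ : ∃ Q, Q = mL ℚ_[ℓ] M' := ⟨_, rfl⟩
  have hBQ : B * Q = 1 := by rw [hB, hQ', ← mL_mul, hM.inv, mL_one]
  have hsk : ∀ z : Matrix ι ι ℚ_[ℓ], Kill H ℚ_[ℓ] z → z * B + B * zᵀ = 0 := fun z hz => by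
    rw [hB]; exact kill_arr2 S hz hM.mem
  have hdp : ∀ z : Matrix ι ι ℚ_[ℓ], Kill H ℚ_[ℓ] z → ∀ x : Matrix ι ι ℚ_[ℓ],
      dp (Fin 2) z *ᵥ vec2 (x * B) = vec2 ((z * x - x * z) * B) := by
    intro z hz x
    have h1 : B * zᵀ = -(z * B) := eq_neg_of_add_eq_zero_right (hsk z hz)
    rw [dp_vec2 S, Matrix.mul_assoc x B, h1, Matrix.mul_neg, Matrix.sub_mul (z * x) (x * z) B,
      Matrix.mul_assoc z x B, Matrix.mul_assoc x z B, sub_eq_add_neg]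
  have hsup : ∀ w : Fin 2 → ι, vec2 (x * B) w ≠ 0 → deg (w 0) = m ∧ deg (w 1) = m := by
    intro w hw
    rw [vec2_apply, Matrix.mul_apply] at hw
    obtain ⟨k, _, hk⟩ := Finset.exists_ne_zero_of_sum_ne_zero hw
    have h4 : deg (w 0) = deg k := by
      by_contra h
      exact left_ne_zero_of_mul hk (hxE _ _ h)
    have h5 : deg k + deg (w 1) = 2 * m := by
      refine hM.deg _ _ fun h0 => right_ne_zero_of_mul hk ?_
      rw [hB, mL_apply, h0, Rat.cast_zero]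
    have h6 := hxm _ _ (left_ne_zero_of_mul hk)
    omega
  have h3 : TateArr deg G χ 1 m (vec2 (x * B)) := by
    refine hL.tate_of_kill hG S (fun w hw => ?_) fun u hu => ?_
    · have h4 := hsup w hw
      rw [Fin.sum_univ_two, h4.1, h4.2]
      ring
    · refine (hdp _ (hk u hu) x).trans ?_
      rw [← hx _ (Or.inl ⟨u, hu, rfl⟩), sub_self, Matrix.zero_mul, map_zero]
  have h4 := hy.hspan (h2 _ h3 hsup)
  have h5 : vec2 ((y * x - x * y) * B) = 0 := (hdp y hy x).symm.trans h4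
  have h6 : (y * x - x * y) * B = 0 := vec2.injective (h5.trans (map_zero _).symm)
  have h7 := congrArg (fun M => M * Q) h6
  simp only [Matrix.mul_assoc, hBQ, Matrix.mul_one, Matrix.zero_mul] at h7
  exact eq_of_sub_eq_zero h7

/-- Products with the projector to the degree `m`. -/
theorem comm_of_gens' (S : Steps) (hL : Logs G χ U Y lam) (hG : GalArr deg G χ)
    {m : ℕ} {M M' : Matrix ι ι ℚ} (hM : IsDual H deg m M M')
    (hk : ∀ u ∈ U, Kill H ℚ_[ℓ] (Yt deg Y lam u))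
    (hkE : ∀ z : Matrix ι ι ℚ_[ℓ], Kill H ℚ_[ℓ] z → z ∈ E0 deg ℚ_[ℓ])
    (h2 : ∀ a, TateArr deg G χ 1 m a → (∀ w, a w ≠ 0 → deg (w 0) = m ∧ deg (w 1) = m) →
      a ∈ hspan H ℚ_[ℓ] 1)
    {x : Matrix ι ι ℚ_[ℓ]} (hx : ∀ a ∈ gens deg U Y lam, x * a = a * x)
    {y : Matrix ι ι ℚ_[ℓ]} (hy : Kill H ℚ_[ℓ] y) :
    y * (x * Ed ℚ_[ℓ] deg m) = x * Ed ℚ_[ℓ] deg m * y := by
  refine comm_of_gens S hL hG hM hk h2 (fun a ha => ?_) (fun i j hij => ?_) hy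
  · have h1 : Ed ℚ_[ℓ] deg m * a = a * Ed ℚ_[ℓ] deg m := by
      rcases ha with ⟨u, hu, rfl⟩ | ⟨δ, rfl⟩
      · exact Ed_comm (hkE _ (hk u hu)) m
      · exact Ed_comm (Ed_mem δ) m
    rw [Matrix.mul_assoc, h1, ← Matrix.mul_assoc, hx a ha, Matrix.mul_assoc]
  · rw [Ed, Matrix.mul_diagonal] at hij
    by_contra h
    rw [if_neg h, mul_zero] at hij
    exact hij rfl

/-- **The matrices which kill the Hodge arrays are in the algebra, on the degree `m`.** -/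
theorem kill_mem (S : Steps) (hL : Logs G χ U Y lam) (hG : GalArr deg G χ) (hss : AdSS G)
    {m : ℕ} {M M' : Matrix ι ι ℚ} (hM : IsDual H deg m M M')
    (hk : ∀ u ∈ U, Kill H ℚ_[ℓ] (Yt deg Y lam u))
    (hkE : ∀ z : Matrix ι ι ℚ_[ℓ], Kill H ℚ_[ℓ] z → z ∈ E0 deg ℚ_[ℓ])
    (h2 : ∀ a, TateArr deg G χ 1 m a → (∀ w, a w ≠ 0 → deg (w 0) = m ∧ deg (w 1) = m) →
      a ∈ hspan H ℚ_[ℓ] 1)
    {y : Matrix ι ι ℚ_[ℓ]} (hy : Kill H ℚ_[ℓ] y) :
    y * Ed ℚ_[ℓ] deg m ∈ Algebra.adjoin ℚ_[ℓ] (gens deg U Y lam) := by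
  refine mem_adjoin S hL hG hss fun x hx => ?_
  have h1 := comm_of_gens' S hL hG hM hk hkE h2 hx hy
  have h2 : x * Ed ℚ_[ℓ] deg m = Ed ℚ_[ℓ] deg m * x := hx _ (Or.inr ⟨m, rfl⟩)
  rw [Matrix.mul_assoc, ← h2, h1, Matrix.mul_assoc, Ed_comm (hkE y hy)]

end Gal

end Pool.Agent.N996.TQ
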