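import Pool.Agent.N996.TQ.Ct
import Pool.Agent.N996.FP.Geo7
import Pool.Agent.N202.TB.Main2

/-!
# The Poincare duality in coordinates
-/

set_option linter.unusedSectionVars false

open CategoryTheory AlgebraicGeometry TensorProduct

universe u

namespace Pool.Agent.N996.TQ

open Module Matrix
open Pool.Agent.H914 Pool.Agent.H914.VarClass Pool.Agent.H914.VarClass.Obj
  Pool.Agent.H914.WeilCohomology
open Pool.Agent.Y133.Half Pool.Agent.Y121.AH
open Pool.Agent.N996.BP Pool.Agent.N996.BP.Geo Pool.Agent.N996.FP Pool.Agent.N996.FP.Geo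
open Pool.Agent.N97.TB.Coord (cmb)

variable {k : Type u} [Field k] {𝒱 : VarClass k} {ops : CycleOps 𝒱} {T : HodgeTheory ops}
  {X : 𝒱.Obj} {ι : Type} [Fintype ι] [DecidableEq ι] {e : Basis ι T.W.K (T.W.H X)} {deg : ι → ℕ}
  {H : HData ι} {hF : DirectSum.IsInternal (Fx T X)}

/-- The matrix of the duality. -/
theorem exists_dual (hdeg : ∀ j, e j ∈ T.W.gr X (deg j))
    (hH : ∀ t : ℂ, t ≠ 0 → H.l t = mG hF e (fun k => t ^ k)) :
    ∃ M M' : Matrix ι ι ℚ, IsDual H deg X.dim M M' := by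
  choose p hp using fun i j => T.rat (T.W.tr X (e i * e j))
  obtain ⟨P, hP⟩ : ∃ P : Matrix ι ι ℚ, P = Matrix.of p := ⟨_, rfl⟩
  have hPa : ∀ i j, ((P i j : ℚ) : T.W.K) = T.W.tr X (e i * e j) := by
    intro i j; rw [hP]; exact hp i j
  have hinj : Function.Injective (fun v : ι → ℚ => v ᵥ* P) := by
    intro v w hvw
    have h1 : (∑ i, ((v i - w i : ℚ) : T.W.K) • e i) = 0 := by
      refine T.W.nondeg _ fun b => ?_
      have h2 : ∀ j, T.W.tr X ((∑ i, ((v i - w i : ℚ) : T.W.K) • e i) * e j) = 0 := by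
        intro j
        rw [Finset.sum_mul, map_sum]
        have h3 := congrFun hvw j
        simp only [Matrix.vecMul, dotProduct] at h3
        have h4 : ∑ i, (v i - w i) * P i j = 0 := by
          simp only [sub_mul, Finset.sum_sub_distrib, h3, sub_self]
        have h5 := congrArg (fun q : ℚ => (q : T.W.K)) h4
        beta_reduce at h5
        rw [Rat.cast_sum, Rat.cast_zero] at h5
        rw [← h5]
        refine Finset.sum_congr rfl fun i _ => ?_
        rw [smul_mul_assoc, map_smul, smul_eq_mul, ← hPa, Rat.cast_mul]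
      rw [← e.sum_repr b, Finset.mul_sum, map_sum]
      refine Finset.sum_eq_zero fun j _ => ?_
      rw [mul_smul_comm, map_smul, h2, smul_zero]
    funext i
    have h2 := Fintype.linearIndependent_iff.1 e.linearIndependent _ h1 i
    have h3 : v i - w i = 0 := by exact_mod_cast h2
    exact sub_eq_zero.1 h3
  have hU : IsUnit P := Matrix.vecMul_injective_iff_isUnit.1 hinj
  have hdet : IsUnit P.det := (Matrix.isUnit_iff_isUnit_det P).1 hU
  have hMP : P⁻¹ * P = 1 := Matrix.nonsing_inv_mul P hdet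
  have hPM : P * P⁻¹ = 1 := Matrix.mul_nonsing_inv P hdet
  have hPdeg : ∀ i j, P i j ≠ 0 → deg i + deg j = 2 * X.dim := by
    intro i j hij
    by_contra hne
    apply hij
    have h1 := hPa i j
    rw [T.W.tr_eq_zero (T.W.mul_mem (hdeg i) (hdeg j)) hne] at h1
    exact_mod_cast h1
  refine ⟨P⁻¹, P, hMP, ?_, ?_⟩
  · -- the array is a Hodge array
    intro t ht
    have hbas : ∀ j, lop T t X (em T.W ℂ (e j)) =
        cmb ℂ e (fun i => mG hF e (fun k => t ^ k) i j) := fun j =>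
      dG_basis hF e (fun k => t ^ k) j
    have htr : ∀ u v : ι → ℂ, (CW T).tr X (cmb ℂ e u * cmb ℂ e v) =
        cc T (∑ a, ∑ b, u a * (v b * (P a b : ℂ))) := by
      intro u v
      have h3 : ∀ a b, (CW T).tr X ((cc T (u a) • em T.W ℂ (e a)) * (cc T (v b) • em T.W ℂ (e b))) =
          cc T (u a * (v b * (P a b : ℂ))) := by
        intro a b
        rw [smul_mul_assoc, mul_smul_comm, map_smul, map_smul, ← em_mul, em_tr, ← hPa, ex_rat]
        rfl
      have h4 : cmb ℂ e u * cmb ℂ e v = ∑ a, ∑ b, (cc T (u a) • em T.W ℂ (e a)) *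
          (cc T (v b) • em T.W ℂ (e b)) := Finset.sum_mul_sum _ _ _ _
      rw [h4, map_sum]
      refine Finset.sum_congr rfl fun a _ => ?_
      rw [map_sum]
      exact Finset.sum_congr rfl fun b _ => h3 a b
    have hl : (H.l t)ᵀ * cQ P * H.l t = cQ P := by
      ext i j
      have h1 : (CW T).tr X (lop T t X (em T.W ℂ (e i) * em T.W ℂ (e j))) =
          (CW T).tr X (em T.W ℂ (e i) * em T.W ℂ (e j)) := tr_lop _
      rw [lop_mul ht, hbas, hbas, ← hH t ht, htr, ← em_mul, em_tr, ← hPa, ex_rat] at h1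
      have h2 : ∑ a, ∑ b, H.l t a i * (H.l t b j * (P a b : ℂ)) = (P i j : ℂ) := h1
      rw [cQ, Matrix.map_apply, ← h2, Matrix.mul_apply, Finset.sum_comm]
      refine Finset.sum_congr rfl fun b _ => ?_
      rw [Matrix.mul_apply, Finset.sum_mul]
      refine Finset.sum_congr rfl fun a _ => ?_
      rw [Matrix.transpose_apply, Matrix.map_apply]
      ring
    have hq1 : cQ P⁻¹ * cQ P = 1 := by rw [← cQ_mul, hMP, cQ_one]
    have hq2 : H.l t * cQ P⁻¹ * (H.l t)ᵀ = cQ P⁻¹ := by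
      have h1 : H.l t * cQ P⁻¹ * (H.l t)ᵀ * cQ P = 1 := by
        calc H.l t * cQ P⁻¹ * (H.l t)ᵀ * cQ P =
            H.l t * cQ P⁻¹ * ((H.l t)ᵀ * cQ P * H.l t) * H.l t⁻¹ := by
              rw [← Matrix.mul_assoc (H.l t * cQ P⁻¹), ← Matrix.mul_assoc (H.l t * cQ P⁻¹),
                Matrix.mul_assoc _ (H.l t) (H.l t⁻¹), H.l_inv ht, Matrix.mul_one]
          _ = H.l t * (cQ P⁻¹ * cQ P) * H.l t⁻¹ := by rw [hl]; simp only [Matrix.mul_assoc]
          _ = 1 := by rw [hq1, Matrix.mul_one, H.l_inv ht]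
      calc H.l t * cQ P⁻¹ * (H.l t)ᵀ = H.l t * cQ P⁻¹ * (H.l t)ᵀ * (cQ P * cQ P⁻¹) := by
            rw [mul_eq_one_comm.1 hq1, Matrix.mul_one]
        _ = (H.l t * cQ P⁻¹ * (H.l t)ᵀ * cQ P) * cQ P⁻¹ := by simp only [Matrix.mul_assoc]
        _ = _ := by rw [h1, Matrix.one_mul]
    have h7 := Pool.Agent.N202.TB.kp_two (H.l t) (cQ P⁻¹)
    rw [hq2] at h7
    exact h7
  · intro i j hij
    obtain ⟨Dm, hDm⟩ : ∃ Dm : Matrix ι ι ℚ, Dm = Matrix.diagonal fun i => (deg i : ℚ) := ⟨_, rfl⟩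
    have hD : Dm * P + P * Dm = (2 * X.dim : ℚ) • P := by
      ext a b
      rw [Matrix.add_apply, hDm, Matrix.mul_diagonal, Matrix.diagonal_mul, Matrix.smul_apply,
        smul_eq_mul]
      by_cases h : P a b = 0
      · rw [h]; ring
      · have h1 := hPdeg a b h
        have h2 : (deg a : ℚ) + deg b = 2 * X.dim := by exact_mod_cast h1
        rw [← h2]; ring
    have hD2 : P⁻¹ * Dm + Dm * P⁻¹ = (2 * X.dim : ℚ) • P⁻¹ := by
      have h1 : P⁻¹ * (Dm * P + P * Dm) * P⁻¹ = P⁻¹ * Dm + Dm * P⁻¹ := by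
        rw [Matrix.mul_add, Matrix.add_mul]
        congr 1
        · calc P⁻¹ * (Dm * P) * P⁻¹ = P⁻¹ * Dm * (P * P⁻¹) := by simp only [Matrix.mul_assoc]
            _ = _ := by rw [hPM, Matrix.mul_one]
        · calc P⁻¹ * (P * Dm) * P⁻¹ = (P⁻¹ * P) * Dm * P⁻¹ := by simp only [Matrix.mul_assoc]
            _ = _ := by rw [hMP, Matrix.one_mul]
      rw [← h1, hD, Matrix.mul_smul, Matrix.smul_mul, hMP, Matrix.one_mul]
    have h1 := congrFun (congrFun hD2 i) j
    rw [Matrix.add_apply, hDm, Matrix.mul_diagonal, Matrix.diagonal_mul, Matrix.smul_apply,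
      smul_eq_mul] at h1
    have h2 : ((deg i : ℚ) + deg j - 2 * X.dim) * P⁻¹ i j = 0 := by linarith
    have h3 : (deg i : ℚ) + deg j - 2 * X.dim = 0 := (mul_eq_zero.1 h2).resolve_right hij
    have h4 : (deg i : ℚ) + deg j = 2 * X.dim := by linarith
    exact_mod_cast h4

end Pool.Agent.N996.TQ
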