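import Pool.Agent.N996.TQ.Gd
import Pool.Agent.N996.FP.FinS
import Pool.Agent.N202.TB.Fin2

/-!
# The final theorems
-/

set_option linter.unusedSectionVars false

open CategoryTheory AlgebraicGeometry

universe u

namespace Pool.Agent.N996.TQ

open Pool.Agent.H914 Pool.Agent.H914.VarClass Pool.Agent.H914.VarClass.Obj
  Pool.Agent.H914.WeilCohomology Pool.Agent.Y121.AHS
open Pool.Agent.Y133.Half (pw)
open Pool.Agent.N202.TB.Ad

variable {k : Type u} [Field k] {𝒱 : VarClass k} {ops : CycleOps 𝒱} {T : HodgeTheory ops}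
  {E : Adic T.W} {X : 𝒱.Obj} {ψ : Form T.W X}

/-- The Mumford-Tate conjecture and the middle part of the cohomology of the square. -/
theorem mt_iff_middle (hψ : IsPolarisation T X ψ) (h : IsAbelian E X) :
    (∀ n, MumfordTate E (pw X n)) ↔ MiddleTateIsHodge E X :=
  ⟨fun hM x _ hx => (hM 1).1 X.dim x hx,
    fun h2 n => ⟨tateIsHodge_two hψ h h2 n, h.known.hodgeIsTate n⟩⟩

/-- The equivalence of the conjectures of Tate and Hodge. -/
theorem iff_of_square (hψ : IsPolarisation T X ψ) (h : IsAbelian E X)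
    (h2 : TateIsHodgeIn E (pw X 1) X.dim) :
    OnPowers E X (fun Y => TateConjecture E Y ↔ HodgeConjecture T Y) := by
  obtain ⟨g1, g2, g3⟩ := Pool.Agent.N97.TB.Glue.glue T E.ℓ X (toR E) ψ (pol hψ)
    (Pool.Agent.N202.TB.ofAbelianType (oat h.known)).hodgeIsTate
  obtain ⟨g4, g5, -⟩ := g3 (fun n => tateIsHodge_two hψ h (fun x _ hx => h2 x hx) n)
  exact ⟨g4, fun Y hY => g5 Y (Pool.Agent.N202.TB.fromPowers (fp hY))⟩

/-- The Tate conjecture in the middle codimension on the square. -/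
theorem square_of_tate (hT : TateConjectureIn E (pw X 1) X.dim) :
    TateIsHodgeIn E (pw X 1) X.dim :=
  tihIn_iff.2 (Pool.Agent.N202.TB.tateIsHodgeIn_of (tateIn_iff.1 hT))

/-- The polarisations. -/
theorem pol_FP (h : IsPolarisation T X ψ) : Pool.Agent.N996.FP.IsPolarisation T X ψ where
  range := h.range
  conj := h.conj
  orth := h.orth
  pos := h.pos

/-- One power. -/
theorem tate_of_power (hψ : IsPolarisation T X ψ) (h : IsAbelian E X) {N : ℕ}
    (hN : Pool.Agent.N996.FP.AdmS T X ψ N) (hT : TateConjecture E (pw X (N - 1))) :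
    OnPowers E X fun Y => TateConjecture E Y ∧ HodgeConjecture T Y := by
  have hN2 : 1 ≤ N - 1 := by
    rcases hN with ⟨-, rfl⟩ | ⟨-, rfl⟩ | rfl
    · norm_num
    · have := le_max_left 2 (2 * X.dim)
      omega
    · have := le_max_left 4 (2 * X.dim ^ (2 * X.dim))
      omega
  have h1 : TateConjectureIn E (pw X 1) X.dim :=
    tateIn_iff.2 (Pool.Agent.N202.TB.tateIn_mono hN2 (tateIn_iff.1 (hT X.dim)))
  obtain ⟨h2, h3⟩ := iff_of_square hψ h (square_of_tate h1)
  have h4 : Pool.Agent.N996.FP.HodgeConjecture T (pw X (N - 1)) := (h2 (N - 1)).1 hT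
  have h5 := Pool.Agent.N996.FP.hodge_admS (pol_FP hψ) h.gen hN h4
  have h6 : ∀ Y : 𝒱.Obj, FromPowers E X Y → HodgeConjecture T Y := fun Y hY =>
    Pool.Agent.N996.BP.hodge_from (fun n => Pool.Agent.N996.FP.hodgeConjecture_BP.1 (h5 n))
      (Pool.Agent.N202.TB.fromPowers (fp hY))
  exact ⟨fun n => ⟨(h2 n).2 (h5 n), h5 n⟩, fun Y hY => ⟨(h3 Y hY).2 (h6 Y hY), h6 Y hY⟩⟩

end Pool.Agent.N996.TQ
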