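import Pool.Agent.N996.TQ.DefsC
import Pool.Agent.N996.FP.FinS

/-!
# Traces on two summands
-/

set_option linter.unusedSectionVars false

open CategoryTheory AlgebraicGeometry TensorProduct

universe u

namespace Pool.Agent.N996.TQ

open Pool.Agent.H914 Pool.Agent.H914.VarClass Pool.Agent.H914.VarClass.Obj
  Pool.Agent.H914.WeilCohomology Pool.Agent.Y121.AHS
open Pool.Agent.Y133.Half (pw)
open Pool.Agent.N996.BP (Bil)
open Pool.Agent.N996.BP.Geo

section

variable {ι : Type} [DecidableEq ι] {V : Type} [AddCommGroup V] [Module ℂ V]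
  {N : ι → Submodule ℂ V} (hN : DirectSum.IsInternal N)

/-- The projection to a summand. -/
noncomputable def pj (i : ι) : V →ₗ[ℂ] N i :=
  DirectSum.component ℂ ι (fun i => N i) i ∘ₗ
    (LinearEquiv.ofBijective (DirectSum.coeLinearMap N) hN).symm.toLinearMap

lemma pj_same {i : ι} (x : N i) : pj hN i x = x := by
  have h1 : (LinearEquiv.ofBijective (DirectSum.coeLinearMap N) hN).symm (x : V) =
      DirectSum.lof ℂ ι (fun i => N i) i x := by
    rw [LinearEquiv.symm_apply_eq, LinearEquiv.ofBijective_apply, DirectSum.coeLinearMap_lof]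
  rw [pj, LinearMap.comp_apply, LinearEquiv.coe_coe, h1, DirectSum.component.lof_self]

lemma pj_ne {i j : ι} (hij : i ≠ j) (x : N i) : pj hN j x = 0 := by
  have h1 : (LinearEquiv.ofBijective (DirectSum.coeLinearMap N) hN).symm (x : V) =
      DirectSum.lof ℂ ι (fun i => N i) i x := by
    rw [LinearEquiv.symm_apply_eq, LinearEquiv.ofBijective_apply, DirectSum.coeLinearMap_lof]
  rw [pj, LinearMap.comp_apply, LinearEquiv.coe_coe, h1, DirectSum.component.of, dif_neg hij]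

include hN in
/-- Equality of traces. -/
lemma trace_two [Module.Finite ℂ V] (F : V →ₗ[ℂ] V) {i j : ι} (hij : i ≠ j)
    (H : ∀ G : V →ₗ[ℂ] V, (∀ x ∈ N i, G x = F x) → (∀ x ∈ N j, G x = -F x) →
      (∀ l, l ≠ i → l ≠ j → ∀ x ∈ N l, G x = 0) → LinearMap.trace ℂ V G = 0)
    (h : ∀ x ∈ N i, F x ∈ N i) (h' : ∀ x ∈ N j, F x ∈ N j) :
    LinearMap.trace ℂ (N i) (F.restrict h) = LinearMap.trace ℂ (N j) (F.restrict h') := by
  have key : ∀ l (hl : ∀ x ∈ N l, F x ∈ N l),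
      LinearMap.trace ℂ V (F ∘ₗ ((N l).subtype ∘ₗ pj hN l)) =
        LinearMap.trace ℂ (N l) (F.restrict hl) := by
    intro l hl
    rw [← LinearMap.comp_assoc, LinearMap.trace_comp_comm']
    congr 1
    ext x
    have h1 := pj_same hN (⟨F x, hl x x.2⟩ : N l)
    exact congrArg Subtype.val h1
  have h1 := H (F ∘ₗ ((N i).subtype ∘ₗ pj hN i) - F ∘ₗ ((N j).subtype ∘ₗ pj hN j)) ?_ ?_ ?_
  · rw [map_sub, key i h, key j h', sub_eq_zero] at h1
    exact h1
  · intro x hx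
    have h2 := pj_same hN (⟨x, hx⟩ : N i)
    have h3 := pj_ne hN hij (⟨x, hx⟩ : N i)
    simp only [LinearMap.sub_apply, LinearMap.comp_apply] at h2 h3 ⊢
    rw [h2, h3]
    simp
  · intro x hx
    have h2 := pj_same hN (⟨x, hx⟩ : N j)
    have h3 := pj_ne hN hij.symm (⟨x, hx⟩ : N j)
    simp only [LinearMap.sub_apply, LinearMap.comp_apply] at h2 h3 ⊢
    rw [h2, h3]
    simp
  · intro l hli hlj x hx
    have h2 := pj_ne hN hli (⟨x, hx⟩ : N l)
    have h3 := pj_ne hN hlj (⟨x, hx⟩ : N l)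
    simp only [LinearMap.sub_apply, LinearMap.comp_apply] at h2 h3 ⊢
    rw [h2, h3]
    simp

end

variable {k : Type u} [Field k] {𝒱 : VarClass k} {ops : CycleOps 𝒱} {T : HodgeTheory ops}
  {X : 𝒱.Obj} {ψ : Bil T.W.K (T.W.H X)}

theorem polar_FP (h : Polar T.rat (IsType (X := X) T.pq) X.dim ψ) :
    Pool.Agent.N996.FP.IsPolarisation T X ψ where
  range p q x hx hx0 := h.range p q x hx hx0
  conj p q x hx := h.conj p q x hx
  orth p q r s x y hx hy hne := h.orth p q r s x y hx hy hne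
  pos p q x hx hx0 := h.pos p q x hx hx0

lemma cen_FP {f : T.W.H X →ₗ[T.W.K] T.W.H X} :
    Pool.Agent.N996.FP.IsCentral (T.W.gr X 1) (T.pq X) f → IsCen (T.W.gr X 1) (IsType T.pq) f := by
  intro hf
  exact ⟨⟨hf.1.1, fun p q x hpq hx => hf.1.2 p q hpq x hx⟩, fun g hg =>
    hf.2 g ⟨hg.1, fun p q hpq x hx => hg.2 p q x hpq hx⟩⟩

theorem adm_FP (hψ : Polar T.rat (IsType (X := X) T.pq) X.dim ψ) {N : ℕ}
    (h : Adm (T.W.gr X 1) (IsType T.pq) ψ X.dim N) : Pool.Agent.N996.FP.AdmS T X ψ N := by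
  rcases h with ⟨h, rfl⟩ | ⟨h, rfl⟩ | rfl
  · exact Or.inl ⟨fun f hf => h f (cen_FP hf), rfl⟩
  · refine Or.inr (Or.inl ⟨?_, rfl⟩)
    intro f hf F hF h1 h2
    have hint := (polar_FP hψ).toBP.isPHS.int
    have hfin : Module.Finite ℂ (ℂ ⊗[T.W.K] T.W.H X) := inferInstance
    refine @trace_two (ℤ × ℤ) _ (Ext T.W.K ℂ (T.W.H X)) _ _ (fun r : ℤ × ℤ => T.pq X r.1 r.2)
      hint hfin F (1, 0) (0, 1) (by decide) ?_ h1 h2
    intro G g1 g2 g3
    refine h f (cen_FP hf) G (fun x hx => (g1 x hx).trans (hF x))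
      (fun x hx => (g2 x hx).trans (congrArg Neg.neg (hF x))) ?_
    rintro x ⟨p, q, hpq, hx⟩
    refine g3 (p, q) ?_ ?_ x hx
    · rintro h; exact hpq (by rw [Prod.mk.injEq] at h; rw [h.1, h.2]; rfl)
    · rintro h; exact hpq (by rw [Prod.mk.injEq] at h; rw [h.1, h.2]; rfl)
  · exact Or.inr (Or.inr rfl)

end Pool.Agent.N996.TQ
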