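import Pool.Agent.N996.TQ.Fin
import Pool.Agent.N996.TQ.Tr

/-!
# The final theorem on the Tate conjecture
-/

set_option linter.unusedSectionVars false

open CategoryTheory AlgebraicGeometry

universe u

namespace Pool.Agent.N996.TQ

open Pool.Agent.H914 Pool.Agent.H914.VarClass Pool.Agent.H914.VarClass.Obj
  Pool.Agent.H914.WeilCohomology Pool.Agent.Y121.AHS
open Pool.Agent.Y133.Half (pw)
open Pool.Agent.N202.TB.Ad (Adic TateConjecture HodgeConjecture)
open Pool.Agent.N996.BP (Bil)

variable {k : Type u} [Field k] {𝒱 : VarClass k} {ops : CycleOps 𝒱} {T : HodgeTheory ops}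
  {E : Adic T.W} {X : 𝒱.Obj} {ψ : Bil T.W.K (T.W.H X)}

theorem pol_Ad (h : Polar T.rat (IsType (X := X) T.pq) X.dim ψ) :
    Pool.Agent.N202.TB.Ad.IsPolarisation T X ψ where
  range p q x hx hx0 := h.range p q x hx hx0
  conj p q x hx := h.conj p q x hx
  orth p q r s x y hx hy hne := h.orth p q r s x y hx hy hne
  pos p q x hx hx0 := h.pos p q x hx hx0

/-- One power. -/
theorem tate_power (hψ : Polar T.rat (IsType (X := X) T.pq) X.dim ψ) (h : IsAbelian E X) {N : ℕ}
    (hN : Adm (T.W.gr X 1) (IsType T.pq) ψ X.dim N)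
    (hT : TateConjecture E (pw X (N - 1))) (n : ℕ) :
    TateConjecture E (pw X n) ∧ HodgeConjecture T (pw X n) :=
  (tate_of_power (pol_Ad hψ) h (adm_FP hψ hN) hT).1 n

end Pool.Agent.N996.TQ
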