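import Pool.Agent.N996.TQ.Du
import Pool.Agent.N996.TQ.Defs
import Pool.Agent.N996.FP.Sh
import Pool.Agent.N202.TB.Bridge3

/-!
# Operators in coordinates
-/

set_option linter.unusedSectionVars false

open CategoryTheory AlgebraicGeometry TensorProduct

universe u

namespace Pool.Agent.N996.TQ

open Module Matrix
open Pool.Agent.H914 Pool.Agent.H914.VarClass Pool.Agent.H914.VarClass.Obj
  Pool.Agent.H914.WeilCohomology Pool.Agent.Y121.AHS
open Pool.Agent.N996.BP Pool.Agent.N202.TB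

variable {k : Type u} [Field k] {𝒱 : VarClass k} {ops : CycleOps 𝒱}
  {T : HodgeTheory ops} {ℓ : ℕ} [Fact ℓ.Prime] [Algebra T.W.K ℚ_[ℓ]] {X : 𝒱.Obj}
  {ι : Type} [Fintype ι] [DecidableEq ι] {e : Basis ι T.W.K (T.W.H X)}

/-- The operator in coordinates. -/
lemma opL_sum (R : Realization T ℓ) (M : Matrix ι ι ℚ_[ℓ]) (v : HL T.W ℚ_[ℓ] X) :
    opL R e M v = ∑ a, (∑ b, M a b * (bL ℓ e).repr v b) • bL ℓ e a := by
  conv_lhs => rw [← (bL ℓ e).sum_repr v, map_sum]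
  have h1 : ∀ b, opL R e M ((bL ℓ e).repr v b • bL ℓ e b) =
      ∑ a, (M a b * (bL ℓ e).repr v b) • bL ℓ e a := by
    intro b
    rw [map_smul, opL, Matrix.toLin_self, Finset.smul_sum]
    exact Finset.sum_congr rfl fun a _ => by rw [smul_smul, mul_comm]
  rw [Finset.sum_congr rfl fun b _ => h1 b, Finset.sum_comm]
  exact Finset.sum_congr rfl fun a _ => (Finset.sum_smul).symm

/-- Values of operators in coordinates. -/
lemma f_opL (R : Realization T ℓ) (φ : ℚ_[ℓ] →+* ℂ)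
    (f : HL T.W ℚ_[ℓ] X →ₛₗ[φ] ℂ) (M : Matrix ι ι ℚ_[ℓ]) (v : HL T.W ℚ_[ℓ] X) :
    f (opL R e M v) =
      ∑ a, ∑ b, f (bL ℓ e a) * M.map φ a b * φ ((bL ℓ e).repr v b) := by
  rw [opL_sum, map_sum]
  refine Finset.sum_congr rfl fun a _ => ?_
  rw [map_smulₛₗ, smul_eq_mul, map_sum, Finset.sum_mul]
  refine Finset.sum_congr rfl fun b _ => ?_
  rw [map_mul, Matrix.map_apply]
  ring

/-- Sums of values of operators in coordinates. -/
lemma sum_f_opL (R : Realization T ℓ) (φ : ℚ_[ℓ] →+* ℂ)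
    (f : HL T.W ℚ_[ℓ] X →ₛₗ[φ] ℂ) {n : Type} [Fintype n] (c : n → ℂ)
    (M : n → Matrix ι ι ℚ_[ℓ]) (v : HL T.W ℚ_[ℓ] X) :
    ∑ i, c i * f (opL R e (M i) v) =
      ∑ a, ∑ b, f (bL ℓ e a) * (∑ i, c i • (M i).map φ) a b * φ ((bL ℓ e).repr v b) := by
  have h1 : ∀ i, c i * f (opL R e (M i) v) =
      ∑ a, ∑ b, f (bL ℓ e a) * (c i • (M i).map φ) a b * φ ((bL ℓ e).repr v b) := by
    intro i
    rw [f_opL, Finset.mul_sum]
    refine Finset.sum_congr rfl fun a _ => ?_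
    rw [Finset.mul_sum]
    refine Finset.sum_congr rfl fun b _ => ?_
    rw [Matrix.smul_apply, smul_eq_mul]
    ring
  rw [Finset.sum_congr rfl fun i _ => h1 i, Finset.sum_comm]
  refine Finset.sum_congr rfl fun a _ => ?_
  rw [Finset.sum_comm]
  refine Finset.sum_congr rfl fun b _ => ?_
  rw [Matrix.sum_apply, Finset.mul_sum, Finset.sum_mul]

end Pool.Agent.N996.TQ
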