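import Pool.Agent.N996.TQ.Ga

/-!
# Hodge-Tate operators in coordinates
-/

set_option linter.unusedSectionVars false

open CategoryTheory AlgebraicGeometry TensorProduct

universe u

namespace Pool.Agent.N996.TQ

open Module Matrix
open Pool.Agent.H914 Pool.Agent.H914.VarClass Pool.Agent.H914.VarClass.Obj
  Pool.Agent.H914.WeilCohomology Pool.Agent.Y121.AHS
open Pool.Agent.Y121.AH (em)
open Pool.Agent.N996.BP Pool.Agent.N202.TB
open Pool.Agent.N202.TB.Ad (Adic Hl toR kt_iff)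
open Pool.Agent.Y133.Half (pw)
open Pool.Agent.N132.HT (base_ind)
open Pool.Agent.N97.TB.Coord (cmb cmb_gr cmb_bij)

variable {k : Type u} [Field k] {𝒱 : VarClass k} {ops : CycleOps 𝒱}
  {T : HodgeTheory ops} {E : Adic T.W} {X : 𝒱.Obj}
  {ι : Type} [Fintype ι] [DecidableEq ι] {e : Basis ι T.W.K (T.W.H X)} {deg : ι → ℕ}

/-- The operator on the cohomology with the given matrix. -/
noncomputable def opH (E : Adic T.W) (e : Basis ι T.W.K (T.W.H X)) (y : Matrix ι ι ℚ_[E.ℓ]) :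
    Hl E X → Hl E X := fun v => opL (toR E) e y v

lemma opH_lin (y : Matrix ι ι ℚ_[E.ℓ]) : Gn.IsLin ℚ_[E.ℓ] (opH E e y) :=
  ⟨fun a b => map_add (opL (toR E) e y) a b, fun c a => map_smul (opL (toR E) e y) c a⟩

/-- The basis. -/
noncomputable def bH (E : Adic T.W) (e : Basis ι T.W.K (T.W.H X)) : Basis ι ℚ_[E.ℓ] (Hl E X) :=
  bL E.ℓ e

lemma opH_mul' (y z : Matrix ι ι ℚ_[E.ℓ]) (v : HL T.W ℚ_[E.ℓ] X) :
    opH E e (y * z) v = opH E e y (opH E e z v) := by
  unfold opH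
  rw [opL_mul]
  rfl

lemma opH_mul (y z : Matrix ι ι ℚ_[E.ℓ]) (v : Hl E X) :
    opH E e (y * z) v = opH E e y (opH E e z v) := opH_mul' y z v

lemma opH_inj {y z : Matrix ι ι ℚ_[E.ℓ]} (h : ∀ v, opH E e y v = opH E e z v) : y = z :=
  opL_inj (e := e) (toR E) (LinearMap.ext h)

lemma sum_f_opH (φ : ℚ_[E.ℓ] →+* ℂ) (f : Hl E X →ₛₗ[φ] ℂ) {n : ℕ} (c : Fin n → ℂ)
    (M : Fin n → Matrix ι ι ℚ_[E.ℓ]) (v : Hl E X) :
    ∑ i, c i * f (opH E e (M i) v) =
      ∑ a, ∑ b, f (bH E e a) * (∑ i, c i • (M i).map φ) a b * φ ((bH E e).repr v b) :=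
  sum_f_opL (toR E) φ f c M v

lemma opH_coord' (m : Matrix ι ι ℚ_[E.ℓ]) (a b : ι) :
    (bL E.ℓ e).coord a (opH E e m (bL E.ℓ e b)) = m a b := by
  unfold opH
  rw [opL, Matrix.toLin_self, map_sum, Finset.sum_eq_single a]
  · rw [map_smul, Basis.coord_apply, Basis.repr_self, Finsupp.single_eq_same, smul_eq_mul,
      mul_one]
  · intro c _ hc
    rw [map_smul, Basis.coord_apply, Basis.repr_self, Finsupp.single_apply, if_neg hc,
      smul_zero]
  · intro h; exact absurd (Finset.mem_univ _) h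

lemma opH_coord (m : Matrix ι ι ℚ_[E.ℓ]) (a b : ι) :
    (bH E e).coord a (opH E e m (bH E e b)) = m a b := opH_coord' m a b

/-- The coordinates. -/
noncomputable def cdH (E : Adic T.W) (e : Basis ι T.W.K (T.W.H X)) (φ : ℚ_[E.ℓ] →+* ℂ) (a : ι) :
    Hl E X →ₛₗ[φ] ℂ where
  toFun v := φ ((bH E e).coord a v)
  map_add' v w := by rw [map_add, map_add]
  map_smul' r v := by rw [map_smul, smul_eq_mul, map_mul, smul_eq_mul]

/-- Operators of degree zero. -/
lemma opH_deg (hdeg : ∀ j, e j ∈ T.W.gr X (deg j)) {y : Matrix ι ι ℚ_[E.ℓ]}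
    (hy : y ∈ E0 deg ℚ_[E.ℓ]) (i : ℕ) (v : Hl E X) (hv : IsDeg (W := T.W) i v) :
    IsDeg (W := T.W) i (opH E e y v) := by
  obtain ⟨z, rfl⟩ := (cmb_bij (W := T.W) (L := ℚ_[E.ℓ]) e).2 v
  have h1 : opH E e y (cmb ℚ_[E.ℓ] e z) = cmb ℚ_[E.ℓ] e (fun a => ∑ k, y a k * z k) :=
    opV_cmb (toR E) y z
  rw [h1]
  have h2 : ∀ w, z w ≠ 0 → deg w = i := (cmb_gr e hdeg z i).1 hv
  refine (cmb_gr e hdeg _ i).2 fun w hw => ?_
  obtain ⟨k, -, hk⟩ := Finset.exists_ne_zero_of_sum_ne_zero hw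
  by_contra hne
  apply hk
  by_cases hz : z k = 0
  · rw [hz, mul_zero]
  · rw [hy w k (by rw [h2 k hz]; exact hne), zero_mul]

/-- An operator which kills the Tate classes, in coordinates. -/
lemma kills_mat (hder : S_DER T E.ℓ X) {G : E.Γ → Matrix ι ι ℚ_[E.ℓ]}
    (hinj : ∀ n, Function.Injective (clL (ℓ := E.ℓ) e n))
    (hT : ∀ n j a, N202.TB.IsTate (toR E) (pw X n) j (clL e n a) ↔ TateArr deg G E.χ n j a)
    {x : Hl E X → Hl E X} (hx : Ad.KillsOn (fun _ => Ad.IsTate) x) :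
    ∃ z : Matrix ι ι ℚ_[E.ℓ], x = opH E e z ∧
      ∀ n j a, TateArr deg G E.χ n j a → dp (Fin (n + 1)) z *ᵥ a = 0 := by
  obtain ⟨D, hD, hk⟩ := kt_iff.1 hx
  obtain ⟨z, hz⟩ := exists_mat (toR E) e (bun (toR E) x (lin_of_der hD))
  refine ⟨z, ?_, fun n j a ha => ?_⟩
  · funext v
    exact congrArg (fun f : Op (toR E) X => f v) hz
  · have hD' := der_old (E := toR E) hD
    rw [hz] at hD'
    have h1 := (hder (toR E) ι e _ z (hasMat_opL (toR E) z)).2 _ hD' n a
    have h2 := hk n j _ ((hT n j a).2 ha)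
    have h3 : clL e n (dp (Fin (n + 1)) z *ᵥ a) = 0 := h1.symm.trans h2
    exact hinj n (h3.trans (clL_zero e n).symm)

/-- The action of the Galois group as an operator. -/
lemma rho_mat {G : E.Γ → Matrix ι ι ℚ_[E.ℓ]}
    (hGe : ∀ g j, ((toR E).R X).ρ g (emL T.W ℚ_[E.ℓ] (e j)) =
      ∑ i, G g i j • emL T.W ℚ_[E.ℓ] (e i)) (g : E.Γ) (v : Hl E X) :
    E.ρ X g v = opH E e (G g) v := by
  let R : Op (toR E) X :=
    { toFun := E.ρ X g
      map_add' := (E.gal X).add g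
      map_smul' := (E.gal X).smul g }
  have h1 : R = opL (toR E) e (G g) := by
    refine (bL E.ℓ e).ext fun j => ?_
    rw [bL_apply]
    exact (hGe g j).trans (hasMat_opL (toR E) (G g) j).symm
  exact congrArg (fun f : Op (toR E) X => f v) h1

/-- **Operators of Hodge-Tate type in coordinates.** -/
theorem hodgeTate_coord {φ : ℚ_[E.ℓ] →+* ℂ}
    (hφ : ∀ y : Hl E X → Hl E X, Gn.IsLin ℚ_[E.ℓ] y →
      (∀ i (v : Hl E X), IsDeg (W := T.W) i v → IsDeg (W := T.W) i (y v)) →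
      (∀ (n : ℕ) (c : Fin n → ℂ) (x : Fin n → Hl E X → Hl E X),
        (∀ i, Ad.KillsOn (fun _ => Ad.IsTate) (x i)) →
        (∀ v, IsDeg (W := T.W) 1 v → ∀ f : Hl E X →ₛₗ[φ] ℂ,
          ∑ i, ∑ j, c i * c j * f (x i (x j v)) = f v) →
        ∀ (v : Hl E X) (f : Hl E X →ₛₗ[φ] ℂ),
          ∑ i, c i * f (x i (y v)) = ∑ i, c i * f (y (x i v))) →
      ∃ Δ : Subgroup E.Γ, Δ.FiniteIndex ∧ ∀ h ∈ Δ, ∀ v, E.ρ X h (y v) = y (E.ρ X h v))
    (hdeg : ∀ j, e j ∈ T.W.gr X (deg j)) (hder : S_DER T E.ℓ X)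
    {G : E.Γ → Matrix ι ι ℚ_[E.ℓ]} (hinj : ∀ n, Function.Injective (clL (ℓ := E.ℓ) e n))
    (hGe : ∀ g j, ((toR E).R X).ρ g (emL T.W ℚ_[E.ℓ] (e j)) =
      ∑ i, G g i j • emL T.W ℚ_[E.ℓ] (e i))
    (hT : ∀ n j a, N202.TB.IsTate (toR E) (pw X n) j (clL e n a) ↔ TateArr deg G E.χ n j a)
    {y : Matrix ι ι ℚ_[E.ℓ]} (hy : y ∈ E0 deg ℚ_[E.ℓ])
    (hc : ∀ N : Matrix ι ι ℂ, (∀ n j a, TateArr deg G E.χ n j a →
        dp (Fin (n + 1)) N *ᵥ (fun w => φ (a w)) = 0) →
      N * N * Matrix.diagonal (fun i => if deg i = 1 then 1 else 0) =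
        Matrix.diagonal (fun i => if deg i = 1 then 1 else 0) → N * y.map φ = y.map φ * N) :
    ∃ Δ : Subgroup E.Γ, Δ.FiniteIndex ∧ ∀ g ∈ Δ, G g * y = y * G g := by
  obtain ⟨Δ, hΔ, h1⟩ := hφ (opH E e y) (opH_lin y) (opH_deg hdeg hy) (by
    intro n c x hx hN
    choose Z hZ hZk using fun i => kills_mat (e := e) hder hinj hT (hx i)
    obtain ⟨M, hM⟩ : ∃ M : Matrix ι ι ℂ, M = ∑ i, c i • (Z i).map φ := ⟨_, rfl⟩
    have hMk : ∀ n j a, TateArr deg G E.χ n j a →
        dp (Fin (n + 1)) M *ᵥ (fun w => φ (a w)) = 0 := by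
      intro n j a ha
      have h2 : M ∈ killSub (L := ℂ) steps (fun w => φ (a w)) := by
        rw [hM]
        refine Submodule.sum_mem _ fun i _ => Submodule.smul_mem _ _ ?_
        rw [mem_killSub, dp_map, mulVec_map, hZk i n j a ha]
        funext w
        exact map_zero φ
      exact mem_killSub.1 h2
    have hM2 : M * M * Matrix.diagonal (fun i => if deg i = 1 then 1 else 0) =
        Matrix.diagonal (fun i => if deg i = 1 then 1 else 0) := by
      ext a b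
      rw [Matrix.mul_diagonal]
      by_cases hb : deg b = 1
      · rw [if_pos hb, mul_one]
        have h0 : IsDeg (W := T.W) (L := ℚ_[E.ℓ]) 1 (bH E e b) := by
          have h3 : bH E e b = emL T.W ℚ_[E.ℓ] (e b) := bL_apply b
          rw [h3, ← hb]
          exact Pool.Agent.Y121.AH.em_gr (L := ℚ_[E.ℓ]) (hdeg b)
        have h2 := hN (bH E e b) h0 (cdH E e φ a)
        have h5 : ∑ i, ∑ j, c i * c j * φ ((Z i * Z j) a b) =
            φ ((bH E e).coord a (bH E e b)) := by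
          have h3 : cdH E e φ a (bH E e b) = φ ((bH E e).coord a (bH E e b)) := rfl
          rw [← h3, ← h2]
          refine Finset.sum_congr rfl fun i _ => Finset.sum_congr rfl fun j _ => ?_
          rw [← opH_coord (E := E) (e := e) (Z i * Z j) a b, opH_mul, ← hZ, ← hZ]
          rfl
        have h6 : (M * M) a b = ∑ i, ∑ j, c i * c j * φ ((Z i * Z j) a b) := by
          rw [hM, Finset.sum_mul_sum, Matrix.sum_apply]
          refine Finset.sum_congr rfl fun i _ => ?_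
          rw [Matrix.sum_apply]
          refine Finset.sum_congr rfl fun j _ => ?_
          rw [smul_mul_smul_comm, ← map_mulM, Matrix.smul_apply, Matrix.map_apply, smul_eq_mul]
        rw [h6, h5, Basis.coord_apply, Basis.repr_self, Matrix.diagonal_apply,
          Finsupp.single_apply]
        by_cases hab : a = b
        · subst hab
          rw [if_pos rfl, if_pos rfl, if_pos hb, map_one]
        · rw [if_neg hab, if_neg (Ne.symm hab), map_zero]
      · rw [if_neg hb, mul_zero, Matrix.diagonal_apply]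
        by_cases hab : a = b
        · subst hab
          rw [if_pos rfl, if_neg hb]
        · rw [if_neg hab]
    have hMy := hc M hMk hM2
    intro v f
    have h2 : ∑ i, c i * f (x i (opH E e y v)) =
        ∑ a, ∑ b, f (bH E e a) * (∑ i, c i • (Z i * y).map φ) a b *
            φ ((bH E e).repr v b) := by
      rw [← sum_f_opH φ f c (fun i => Z i * y) v]
      exact Finset.sum_congr rfl fun i _ => by rw [opH_mul, hZ i]
    have h3 : ∑ i, c i * f (opH E e y (x i v)) =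
        ∑ a, ∑ b, f (bH E e a) * (∑ i, c i • (y * Z i).map φ) a b *
            φ ((bH E e).repr v b) := by
      rw [← sum_f_opH φ f c (fun i => y * Z i) v]
      exact Finset.sum_congr rfl fun i _ => by rw [opH_mul, hZ i]
    have h4 : ∑ i, c i • (Z i * y).map φ = ∑ i, c i • (y * Z i).map φ := by
      have h5 : ∑ i, c i • (Z i * y).map φ = M * y.map φ := by
        rw [hM, Finset.sum_mul]
        exact Finset.sum_congr rfl fun i _ => by rw [map_mulM, smul_mul_assoc]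
      have h6 : ∑ i, c i • (y * Z i).map φ = y.map φ * M := by
        rw [hM, Finset.mul_sum]
        exact Finset.sum_congr rfl fun i _ => by rw [map_mulM, mul_smul_comm]
      rw [h5, h6, hMy]
    rw [h2, h3, h4])
  refine ⟨Δ, hΔ, fun g hg => opH_inj (E := E) (e := e) fun v => ?_⟩
  rw [opH_mul, opH_mul, ← rho_mat hGe, ← rho_mat hGe]
  exact h1 g hg v

end Pool.Agent.N996.TQ
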