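import Pool.Agent.N996.TQ.Gb

/-!
# The data of the cohomology algebra
-/

set_option linter.unusedSectionVars false

open CategoryTheory AlgebraicGeometry TensorProduct

universe u

namespace Pool.Agent.N996.TQ

open Module Matrix
open Pool.Agent.H914 Pool.Agent.H914.VarClass Pool.Agent.H914.VarClass.Obj
  Pool.Agent.H914.WeilCohomology
open Pool.Agent.Y133.Half Pool.Agent.Y121.AH
open Pool.Agent.N996.BP Pool.Agent.N996.BP.Geo
open Pool.Agent.N996.FP (pL repr_gr)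
open Pool.Agent.N996.FP.Geo (DD gdata exists_topc)

variable {k : Type u} [Field k] {𝒱 : VarClass k} {ops : CycleOps 𝒱} {T : HodgeTheory ops}
  {X : 𝒱.Obj} {ψ : LinearMap.BilinForm T.W.K (T.W.H X)}
  {ι : Type} [Fintype ι] [DecidableEq ι] {e : Basis ι T.W.K (T.W.H X)} {deg : ι → ℕ}
  {H : HData ι} (hψ : IsPHS (tauT T) (Fx T X) ψ X.dim)
  (hdeg : ∀ j, e j ∈ T.W.gr X (deg j)) (ho : e H.D.o = 1)
  (hH : ∀ t : ℂ, t ≠ 0 → H.l t = mG hψ.int e (fun k => t ^ k))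
  (hgen : Algebra.adjoin T.W.K (T.W.gr X 1 : Set (T.W.H X)) = ⊤)

lemma DD_top [Nontrivial (T.W.H X)] (hb : finrank T.W.K (T.W.gr X 1) = 2 * X.dim) :
    ∃ v : Fin (finrank ℂ (DD hψ hdeg ho hH hgen).V) → (DD hψ hdeg ho hH hgen).V,
      pL (DD hψ hdeg ho hH hgen).L v ≠ 0 := by
  obtain ⟨v, hv, hv0⟩ := exists_topc hgen
  have hfin : finrank T.W.K ((gdata e hdeg ho hH hgen).gr 1) = 2 * X.dim := hb
  have key : ∀ m, m = 2 * X.dim → ∃ v : Fin m → T.W.H X,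
      (∀ i, v i ∈ (gdata e hdeg ho hH hgen).gr 1) ∧ (List.ofFn v).prod ≠ 0 := by
    rintro m rfl
    exact ⟨v, hv, hv0⟩
  obtain ⟨v, hv, hv0⟩ := key _ hfin
  exact (gdata e hdeg ho hH hgen).exists_top v hv hv0

lemma DD_gr (i j k : ι) (h : (DD hψ hdeg ho hH hgen).c k i j ≠ 0) :
    (DD hψ hdeg ho hH hgen).deg k =
      (DD hψ hdeg ho hH hgen).deg i + (DD hψ hdeg ho hH hgen).deg j := by
  change deg k = deg i + deg j
  by_contra hne
  apply h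
  have h1 : e.repr (e i * e j) k = 0 :=
    repr_gr (T.W.isInternal X) hdeg (T.W.mul_mem (hdeg i) (hdeg j)) hne
  have h2 : (((DD hψ hdeg ho hH hgen).c k i j : ℚ) : T.W.K) = e.repr (e i * e j) k :=
    (gdata e hdeg ho hH hgen).rq_spec _
  rw [h1] at h2
  exact_mod_cast h2

lemma DD_one : (DD hψ hdeg ho hH hgen).deg H.D.o = 0 := by
  change deg H.D.o = 0
  by_contra hne
  have h1 : e.repr (e H.D.o) H.D.o = 0 := by
    refine repr_gr (T.W.isInternal X) hdeg (i := 0) ?_ hne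
    rw [ho]
    exact T.W.one_mem X
  rw [Basis.repr_self, Finsupp.single_eq_same] at h1
  exact one_ne_zero h1

open Pool.Agent.N202.TB in
include hψ hdeg ho hH hgen in
/-- The core for the cohomology algebra. -/
theorem core_geo [Nontrivial (T.W.H X)] (hb : finrank T.W.K (T.W.gr X 1) = 2 * X.dim)
    {r : ℂ} (hc : cQ H.Qr = r • (fM e ψ)ᵀ) {ℓ : ℕ} [Fact ℓ.Prime] {Γ : Type} [Group Γ]
    {G : Γ → Matrix ι ι ℚ_[ℓ]} {χ : Γ → ℚ_[ℓ]} (S : Steps) (hG : GalArr deg G χ)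
    (hHT : ∀ n, ∀ a ∈ BB H (Fin (n + 1)), aL ℚ_[ℓ] a ∈ tspan deg G χ n)
    (hss : AdSS G)
    (hcen : ∀ y : Matrix ι ι ℚ_[ℓ], Kill H ℚ_[ℓ] y →
      (∀ z : Matrix ι ι ℚ_[ℓ], Kill H ℚ_[ℓ] z → y * z = z * y) →
      ∀ n j a, TateArr deg G χ n j a → dp (Fin (n + 1)) y *ᵥ a = 0)
    (φ : ℚ_[ℓ] →+* ℂ)
    (hN3 : ∀ y : Matrix ι ι ℚ_[ℓ], y ∈ E0 deg ℚ_[ℓ] → (∀ N : Matrix ι ι ℂ,
      (∀ n j a, TateArr deg G χ n j a → dp (Fin (n + 1)) N *ᵥ (fun w => φ (a w)) = 0) →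
      N * N * Matrix.diagonal (fun i => if deg i = 1 then 1 else 0) =
        Matrix.diagonal (fun i => if deg i = 1 then 1 else 0) → N * y.map φ = y.map φ * N) →
      ∃ Δ : Subgroup Γ, Δ.FiniteIndex ∧ ∀ g ∈ Δ, G g * y = y * G g)
    (h2 : ∀ a, TateArr deg G χ 1 X.dim a →
      (∀ w, a w ≠ 0 → deg (w 0) = X.dim ∧ deg (w 1) = X.dim) → a ∈ hspan H ℚ_[ℓ] 1) (n j : ℕ)
    (a : (Fin (n + 1) → ι) → ℚ_[ℓ]) (ha : TateArr deg G χ n j a) : a ∈ hspan H ℚ_[ℓ] n := by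
  have hl : ∀ t : ℂ, t ≠ 0 → ∀ i j, H.l t i j ≠ 0 → deg i = deg j := by
    intro t ht i j hij
    rw [hH t ht] at hij
    exact mG_deg hdeg hψ.int t hij
  have hQr : ∀ i j, H.Qr i j ≠ 0 → deg i = deg j := by
    intro i j hij
    have h1 := congrFun (congrFun hc i) j
    rw [cQ, Matrix.map_apply, Matrix.smul_apply, Matrix.transpose_apply, fM, Matrix.of_apply,
      smul_eq_mul] at h1
    have h2 : (H.Qr i j : ℂ) ≠ 0 := by exact_mod_cast hij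
    rw [h1] at h2
    have h3 := right_ne_zero_of_mul h2
    have h4 : ψ (e j) (e i) ≠ 0 := by
      intro h0
      apply h3
      rw [h0, map_zero]
    exact (form_deg hψ hdeg h4).symm
  have hQ : ∀ i j, H.Qir i j ≠ 0 → deg i = deg j := fun i j hij => inv_E0 H.Qr_Qir hQr i j hij
  obtain ⟨M, M', hM⟩ := exists_dual hdeg hH
  exact core_two S hG hl hQ hQr hHT hss hcen (DD hψ hdeg ho hH hgen) rfl
    (DD_top hψ hdeg ho hH hgen hb) (Pool.Agent.N996.FP.Geo.pr1_adj hψ hdeg ho hH hgen hc)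
    (DD_gr hψ hdeg ho hH hgen) (DD_one hψ hdeg ho hH hgen) φ
    {N | (∀ n j a, TateArr deg G χ n j a → dp (Fin (n + 1)) N *ᵥ (fun w => φ (a w)) = 0) ∧
      N * N * cQ (DD hψ hdeg ho hH hgen).pr1 = cQ (DD hψ hdeg ho hH hgen).pr1}
    (fun N hN => hN.1) (fun N hN => hN.2)
    (fun y hy hc => hN3 y hy fun N h1 h2 =>
      hc N ⟨h1, by rw [Pool.Agent.N996.FP.AData.cQ_pr1]; exact h2⟩) hM
    ((gdata e hdeg ho hH hgen).finrank_V.trans hb) h2 n j a ha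

end Pool.Agent.N996.TQ
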