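import Pool.Agent.N996.TQ.Gm

/-!
# The Mumford-Tate conjecture and the square
-/

set_option linter.unusedSectionVars false

open CategoryTheory AlgebraicGeometry TensorProduct

universe u

namespace Pool.Agent.N996.TQ

open Module Matrix
open Pool.Agent.H914 Pool.Agent.H914.VarClass Pool.Agent.H914.VarClass.Obj
  Pool.Agent.H914.WeilCohomology Pool.Agent.Y121.AHS
open Pool.Agent.Y121.AH (em em_gr em_zero em_add em_smul hodgePred CW)
open Pool.Agent.Y133.Half (pw wb ClassPred Sys)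
open Pool.Agent.N202.TB
open Pool.Agent.N202.TB.Ad (Adic toR oat pol)
open Pool.Agent.N996.BP Pool.Agent.N996.BP.Geo
open Pool.Agent.N996.FP (pL AData)
open Pool.Agent.N996.FP.Geo (DD pr1_adj)
open Pool.Agent.N97.TB.Coord (cmb cmb_gr sc coord)
open Pool.Agent.N97.TB.Glue (hp comb_of_base base_of_comb em_corr_sum)

variable {k : Type u} [Field k] {𝒱 : VarClass k} {ops : CycleOps 𝒱}
  {T : HodgeTheory ops} {E : Adic T.W} {X : 𝒱.Obj}

/-- **The Mumford-Tate conjecture follows from the Tate classes of the middle degree on the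
square.** -/
theorem tateIsHodge_two {ψ : Ad.Form T.W X} (hψ : Ad.IsPolarisation T X ψ)
    (h : IsAbelian E X) (h2 : MiddleTateIsHodge E X) (n : ℕ) :
    Ad.TateIsHodge E (pw X n) := by
  classical
  rcases subsingleton_or_nontrivial (T.W.H X) with hs | hs
  · have h1 : Subsingleton (T.W.H (pw X n)) := by
      have h2 : finrank T.W.K (T.W.H (pw X n)) = 0 := by
        rw [Pool.Agent.Y133.Half.finrank_pw, finrank_zero_of_subsingleton,
          zero_pow (Nat.succ_ne_zero n)]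
      exact finrank_zero_iff.1 h2
    intro j x hx
    have h2 : ∀ x : ℚ_[E.ℓ] ⊗[T.W.K] T.W.H (pw X n), x = 0 := by
      intro x
      induction x using TensorProduct.induction_on with
      | zero => rfl
      | add x y hx hy => rw [hx, hy, add_zero]
      | tmul z c => rw [Subsingleton.elim c 0, TensorProduct.tmul_zero]
    have h3 : x = 0 := h2 x
    rw [h3]
    exact Submodule.zero_mem _
  have hP := (pol hψ).isPHS
  have hab := ofAbelianType (oat h.known)
  have hder : S_DER T E.ℓ X := Pool.Agent.N391.TB.der_ T E.ℓ X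
  have hadss : S_ADSS T E.ℓ X := Pool.Agent.N391.TB.adss_ T E.ℓ X
  obtain ⟨ι, _, _, e, o, deg, heo, hdeg⟩ := exists_ubasis T.W X
  have ho : (1 : ℂ) ⊗ₜ[T.W.K] e o ∈ Fx (toH T) X (0, 0) := by
    rw [heo]
    exact (isHodge_one (T := toH T) (X := X)).2
  obtain ⟨H, hHo, hHw, hH, r, hr, hc⟩ := hP.exists_hdata2 (K := (toH T).W.K) e o ho
  have ho1 : e H.D.o = 1 := by rw [hHo, heo]
  obtain ⟨hcl, G, hG, hGe, -, hT⟩ := coord T E.ℓ X (toR E) ι e deg hdeg
  have hinj : ∀ n, Function.Injective (clL (ℓ := E.ℓ) e n) := fun n => (hcl n).1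
  have hss : AdSS G := hadss (toR E) ι e G hG.one hG.mul hGe hab.semisimple
  have hHT : ∀ n, ∀ a ∈ BB H (Fin (n + 1)), aL ℚ_[E.ℓ] a ∈ tspan deg G E.χ n := by
    intro n a ha
    have key : ∃ a' ∈ tspan deg G E.χ n, clL e n a' =
        emL T.W ℚ_[E.ℓ] (cls (T := toH T) e n a) := by
      refine ClassPred.sp_ind (Q := hp T) (q := fun c => ∃ a' ∈ tspan deg G E.χ n, clL e n a' =
        emL T.W ℚ_[E.ℓ] c) ?_ ?_ ?_ ((arr_iff hH n a).1 ha)
      · intro j c hc
        obtain ⟨a', ha'⟩ := (hcl n).2 (emL T.W ℚ_[E.ℓ] c)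
        refine ⟨a', Submodule.subset_span ⟨j, (hT n j a').1 ?_⟩, ha'⟩
        rw [ha']
        exact hab.hodgeIsTate n j c hc
      · refine ⟨0, Submodule.zero_mem _, ?_⟩
        have h0 : emL T.W ℚ_[E.ℓ] (0 : T.W.H (pw X n)) = 0 := em_zero
        rw [h0, clL_zero]
      · rintro a b ⟨a', ha, ha'⟩ ⟨b', hb, hb'⟩
        have h1 : emL T.W ℚ_[E.ℓ] (a + b) = emL T.W ℚ_[E.ℓ] a + emL T.W ℚ_[E.ℓ] b := em_add _ _
        exact ⟨a' + b', Submodule.add_mem _ ha hb, by rw [clL_add, ha', hb', h1]⟩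
    obtain ⟨a', ha', h1⟩ := key
    rw [← clL_aL] at h1
    rw [← hinj n h1]
    exact ha'
  have hcen : ∀ y : Matrix ι ι ℚ_[E.ℓ], Kill H ℚ_[E.ℓ] y →
      (∀ z : Matrix ι ι ℚ_[E.ℓ], Kill H ℚ_[E.ℓ] z → y * z = z * y) →
      ∀ n j a, TateArr deg G E.χ n j a → dp (Fin (n + 1)) y *ᵥ a = 0 := by
    intro y hy hz n j a ha
    obtain ⟨D, hD, hk⟩ := hab.centre (opL (toR E) e y) ((hodgeLie_iff hder hinj hH y).2 hy) (by
      intro x hx
      obtain ⟨z, rfl⟩ := exists_mat (toR E) e x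
      rw [← opL_mul, ← opL_mul, hz z ((hodgeLie_iff hder hinj hH z).1 hx)])
    have h1 := hk n j _ ((hT n j a).2 ha)
    rw [(hder (toR E) ι e _ y (hasMat_opL (toR E) y)).2 D hD] at h1
    exact hinj n (h1.trans (clL_zero e n).symm)
  have h4 : ∀ a, TateArr deg G E.χ 1 X.dim a →
      (∀ w, a w ≠ 0 → deg (w 0) = X.dim ∧ deg (w 1) = X.dim) → a ∈ hspan H ℚ_[E.ℓ] 1 :=
    fun a ha hs => hspan_of_base hH (hinj 1) (base_of_comb (hp T)
      (h2 _ (inMiddle_clL hdeg hs) ((hT 1 X.dim a).2 ha)))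
  obtain ⟨φ, hφ⟩ := h.hodgeTate
  have hgen : Algebra.adjoin T.W.K (T.W.gr X 1 : Set (T.W.H X)) = ⊤ := h.gen.1
  have hs' : Nontrivial ((toH T).W.H X) := hs
  intro j x hx
  obtain ⟨a, rfl⟩ := (hcl n).2 x
  have h5 := core_geo (T := toH T) hP hdeg ho1 hH hgen h.gen.2 hc steps hG hHT hss hcen φ
    (fun y hy hc => hodgeTate_coord hφ hdeg hder hinj hGe hT hy hc) h4 n j a ((hT n j a).1 hx)
  exact comb_of_base (hp T) (base_of_hspan hH h5) hx.1

end Pool.Agent.N996.TQ
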