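import Pool.Agent.N996.TQ.Gc
import Pool.Agent.N996.TQ.DefsM

/-!
# Classes in the middle part
-/

set_option linter.unusedSectionVars false

open CategoryTheory AlgebraicGeometry TensorProduct

universe u

namespace Pool.Agent.N996.TQ

open Module Matrix
open Pool.Agent.H914 Pool.Agent.H914.VarClass Pool.Agent.H914.VarClass.Obj
  Pool.Agent.H914.WeilCohomology Pool.Agent.Y121.AHS
open Pool.Agent.Y133.Half (pw wb wb_zero wb_succ)
open Pool.Agent.N202.TB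
open Pool.Agent.N202.TB.Ad (Adic Hl)

variable {k : Type u} [Field k] {𝒱 : VarClass k} {ops : CycleOps 𝒱}
  {T : HodgeTheory ops} {E : Adic T.W} {X : 𝒱.Obj}

/-- External products of rational classes. -/
lemma ext_em (a b : T.W.H X) :
    Ad.ext (E := E) (X := X) (n := 0) (emL T.W ℚ_[E.ℓ] (X := pw X 0) a) (emL T.W ℚ_[E.ℓ] b) =
      emL T.W ℚ_[E.ℓ] (X := pw X 1) (T.W.map (fst (pw X 0) X) a * T.W.map (snd (pw X 0) X) b) := by
  change ((1 : ℚ_[E.ℓ]) ⊗ₜ[T.W.K] T.W.map (fst (pw X 0) X) a) *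
    ((1 : ℚ_[E.ℓ]) ⊗ₜ[T.W.K] T.W.map (snd (pw X 0) X) b) = (1 : ℚ_[E.ℓ]) ⊗ₜ[T.W.K] _
  rw [Algebra.TensorProduct.tmul_mul_tmul, one_mul]

/-- Classes on the square with coordinates in the middle degree. -/
lemma inMiddle_clL {ι : Type} [Fintype ι] [DecidableEq ι] {e : Basis ι T.W.K (T.W.H X)}
    {deg : ι → ℕ} (hdeg : ∀ j, e j ∈ T.W.gr X (deg j)) {a : (Fin 2 → ι) → ℚ_[E.ℓ]}
    (ha : ∀ w, a w ≠ 0 → deg (w 0) = X.dim ∧ deg (w 1) = X.dim) :
    InSpan ℚ_[E.ℓ] (V := Hl E (pw X 1)) (Ad.ext (E := E) (X := X) (n := 0))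
      (IsDeg (X := X) X.dim) (clL e 1 a) := by
  have hg : ∀ i, deg i = X.dim → IsDeg X.dim (emL T.W ℚ_[E.ℓ] (e i)) := by
    intro i hi
    have h1 : e i ∈ T.W.gr X X.dim := by
      rw [← hi]; exact hdeg i
    exact Submodule.tmul_mem_baseChange_of_mem (1 : ℚ_[E.ℓ]) h1
  refine Submodule.sum_mem _ fun w _ => ?_
  by_cases h0 : a w = 0
  · have h1 : a w • emL T.W ℚ_[E.ℓ] (wb e 1 w) = 0 := by rw [h0, zero_smul]
    exact h1 ▸ Submodule.zero_mem _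
  obtain ⟨h1, h2⟩ := ha w h0
  refine Submodule.smul_mem _ _ (Submodule.subset_span
    ⟨emL T.W _ (e (w 0)), emL T.W _ (e (w 1)), hg _ h1, hg _ h2, ?_⟩)
  refine (ext_em (e (w 0)) (e (w 1))).trans ?_
  rw [wb_succ, wb_zero]
  rfl

end Pool.Agent.N996.TQ
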