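import Pool.Agent.N996.FP.Sc

/-!
# Brackets with an operator of Hodge-Tate type
-/

set_option linter.unusedSectionVars false

namespace Pool.Agent.N996.TQ

open Matrix Pool.Agent.N996.BP Pool.Agent.N996.FP

variable {ι : Type} [Fintype ι] [DecidableEq ι] {h h' : Submodule ℂ (Matrix ι ι ℂ)}
  {A : Type} [Ring A] [Algebra ℂ A] {N P z : Matrix ι ι ℂ}

/-- The product of the vectors of degree one (as a product). -/
theorem exists_evec' (D : PD h' z A) (hN : N ∈ h') (hPV : ∀ v, P *ᵥ v ∈ D.V)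
    (hPv : ∀ v ∈ D.V, P *ᵥ v = v) (hPc : ∀ w ∈ h', P * w = w * P) (hPP : P * P = P)
    (hNN : N * N * P = P) :
    ∃ (k : ℕ) (v : Fin k → D.V), D.pv v ≠ 0 ∧ ((2⁻¹ : ℂ) • (P + N * P)).trace = k ∧
      (∃ m : ℝ, N *ᵥ D.pv v = (m : ℂ) • D.pv v) ∧
      (∀ w ∈ h', br N w = (2 : ℂ) • w → w *ᵥ D.pv v = 0) ∧
      ∀ w ∈ h', br N w = 0 →
        w *ᵥ D.pv v = (w * ((2⁻¹ : ℂ) • (P + N * P))).trace • D.pv v := by
  obtain ⟨Q, hQ⟩ : ∃ Q, Q = (2⁻¹ : ℂ) • (P + N * P) := ⟨_, rfl⟩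
  have hPN := hPc N hN
  have hNQ : N * Q = Q := by
    rw [hQ, Matrix.mul_smul, Matrix.mul_add, ← Matrix.mul_assoc, hNN, add_comm]
  have hPQ : P * Q = Q := by
    rw [hQ, Matrix.mul_smul, Matrix.mul_add, ← Matrix.mul_assoc, hPP, hPN, Matrix.mul_assoc, hPP]
  let W : Submodule ℂ (ι → ℂ) :=
    { carrier := {v | v ∈ D.V ∧ N *ᵥ v = v}
      add_mem' := by
        rintro a b ⟨h1, h2⟩ ⟨h3, h4⟩
        exact ⟨Submodule.add_mem _ h1 h3, by rw [Matrix.mulVec_add, h2, h4]⟩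
      zero_mem' := ⟨Submodule.zero_mem _, Matrix.mulVec_zero _⟩
      smul_mem' := by
        rintro c a ⟨h1, h2⟩
        exact ⟨Submodule.smul_mem _ _ h1, by rw [Matrix.mulVec_smul, h2]⟩ }
  have hWV : W ≤ D.V := fun v hv => hv.1
  have hQW : ∀ v, Q *ᵥ v ∈ W := by
    intro v
    refine ⟨?_, by rw [Matrix.mulVec_mulVec, hNQ]⟩
    rw [← hPQ, ← Matrix.mulVec_mulVec]
    exact hPV _
  have hQv : ∀ v ∈ W, Q *ᵥ v = v := by
    rintro v ⟨h1, h2⟩
    rw [hQ, Matrix.smul_mulVec, Matrix.add_mulVec, ← Matrix.mulVec_mulVec, hPv v h1, h2, ← two_smul ℂ,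
      smul_smul]
    norm_num
  let b := Module.finBasis ℂ W
  obtain ⟨v, hv⟩ : ∃ v : Fin (Module.finrank ℂ W) → D.V,
    v = fun j => ⟨(b j : ι → ℂ), hWV (b j).2⟩ := ⟨_, rfl⟩
  have hvb : ∀ j, (v j : ι → ℂ) = b j := fun j => by rw [hv]
  have hli : LinearIndependent ℂ v := by
    have h1 : LinearIndependent ℂ (fun j => (v j : ι → ℂ)) := by
      simp only [hvb]
      exact b.linearIndependent.map' W.subtype (Submodule.ker_subtype W)
    exact LinearIndependent.of_comp D.V.subtype h1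
  have htrQ : Q.trace = (Module.finrank ℂ W : ℂ) := by
    rw [trace_basis b Q hQW, Finset.sum_congr rfl fun j _ => (show
      b.repr ⟨Q *ᵥ (b j : ι → ℂ), hQW _⟩ j = 1 from ?_)]
    · rw [Finset.sum_const, Finset.card_univ, Fintype.card_fin, nsmul_eq_mul, mul_one]
    · have h1 : (⟨Q *ᵥ (b j : ι → ℂ), hQW _⟩ : W) = b j := Subtype.ext (hQv _ (b j).2)
      rw [h1, Module.Basis.repr_self, Finsupp.single_eq_same]
  refine ⟨_, v, D.pv_ne hli, by rw [← hQ]; exact htrQ, ⟨Module.finrank ℂ W, ?_⟩,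
    fun w hw hw2 => ?_, fun w hw hw0 => ?_⟩
  · rw [D.pv_eig hN (s := fun _ => 1) fun j => by rw [hvb, one_smul]; exact (b j).2.2]
    rw [Finset.sum_const, Finset.card_univ, Fintype.card_fin, nsmul_eq_mul, mul_one]
    push_cast
    rfl
  · have h1 : ∀ j, w *ᵥ (v j : ι → ℂ) = (0 : ℂ) • (v j : ι → ℂ) := by
      intro j
      rw [zero_smul, hvb]
      have h2 := (b j).2
      obtain ⟨y, hy⟩ : ∃ y, y = w *ᵥ (b j : ι → ℂ) := ⟨_, rfl⟩
      have hyV : y ∈ D.V := by rw [hy]; exact D.stab w hw _ h2.1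
      have h3 : N *ᵥ y = (3 : ℂ) • y := by
        have h4 : N * w = w * N + (2 : ℂ) • w := by
          rw [← hw2, br]; abel
        rw [hy, Matrix.mulVec_mulVec, h4, Matrix.add_mulVec, ← Matrix.mulVec_mulVec, h2.2,
          Matrix.smul_mulVec]
        module
      have h5 : y = (9 : ℂ) • y := by
        conv_lhs => rw [← hPv y hyV, ← hNN, ← Matrix.mulVec_mulVec, ← Matrix.mulVec_mulVec,
          hPv y hyV, h3, Matrix.mulVec_smul, h3, smul_smul]
        norm_num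
      have h6 : (8 : ℂ) • y = 0 := by
        have h7 : (8 : ℂ) • y = (9 : ℂ) • y - y := by module
        rw [h7, ← h5, sub_self]
      rw [← hy]
      exact (smul_eq_zero.1 h6).resolve_left (by norm_num)
    rw [D.pv_eig hw (s := fun _ => 0) h1, Finset.sum_const_zero, zero_smul]
  · have hst : ∀ v ∈ W, w *ᵥ v ∈ W := by
      rintro v ⟨h1, h2⟩
      refine ⟨D.stab w hw _ h1, ?_⟩
      have h4 : N * w = w * N := by
        rw [br, sub_eq_zero] at hw0
        exact hw0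
      rw [Matrix.mulVec_mulVec, h4, ← Matrix.mulVec_mulVec, h2]
    have h1 := pv_tr D hWV b hw hst
    rw [← hv] at h1
    rw [h1]
    congr 1
    rw [← hQ]
    have hg : ∀ v, (w * Q) *ᵥ v ∈ W := fun v => by
      rw [← Matrix.mulVec_mulVec]
      exact hst _ (hQW v)
    rw [trace_basis b _ hg]
    refine Finset.sum_congr rfl fun j _ => ?_
    congr 2
    apply Subtype.ext
    change w *ᵥ (b j : ι → ℂ) = (w * Q) *ᵥ (b j : ι → ℂ)
    rw [← Matrix.mulVec_mulVec, hQv _ (b j).2]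

/-- Eigenvectors for the bracket. -/
lemma comm_of_br {c : ℂ} {w : Matrix ι ι ℂ} (hw : br N w = c • w) : N * w = w * N + c • w := by
  rw [← hw, br]; abel

/-- The trace formula. -/
lemma trace_formula (hlie' : ∀ a ∈ h', ∀ b ∈ h', br a b ∈ h') (hPc : ∀ w ∈ h', P * w = w * P)
    (hPP : P * P = P) (hNN : N * N * P = P) (hN : N ∈ h') {e : ι → ℂ}
    (he2 : ∀ w ∈ h', br N w = (2 : ℂ) • w → w *ᵥ e = 0)
    (hetr : ∀ w ∈ h', br N w = 0 → w *ᵥ e = (w * ((2⁻¹ : ℂ) • (P + N * P))).trace • e)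
    {Z Y : Matrix ι ι ℂ} (hZ : Z ∈ h') (hZN : br N Z = (2 : ℂ) • Z) (hY : Y ∈ h')
    (hYN : br N Y = (-2 : ℂ) • Y) : Z *ᵥ (Y *ᵥ e) = (Z * Y * P).trace • e := by
  obtain ⟨Q, hQ⟩ : ∃ Q, Q = (2⁻¹ : ℂ) • (P + N * P) := ⟨_, rfl⟩
  have hPN := hPc N hN
  have hNQ : N * Q = Q := by
    rw [hQ, Matrix.mul_smul, Matrix.mul_add, ← Matrix.mul_assoc, hNN, add_comm]
  have hPQ : P * Q = Q := by
    rw [hQ, Matrix.mul_smul, Matrix.mul_add, ← Matrix.mul_assoc, hPP, hPN, Matrix.mul_assoc, hPP]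
  have hNR : N * (P - Q) = -(P - Q) := by
    rw [Matrix.mul_sub, hNQ, hQ]
    module
  have hPR : P * (P - Q) = P - Q := by rw [Matrix.mul_sub, hPQ, hPP]
  have hZN' := comm_of_br hZN
  have hYN' := comm_of_br hYN
  have h1 : br N (br Z Y) = 0 := by
    have e1 : br N (br Z Y) = (N * Z) * Y - Z * (Y * N) - (N * Y) * Z + Y * (Z * N) := by
      simp only [br, Matrix.sub_mul, Matrix.mul_sub, Matrix.mul_assoc]
      abel
    rw [e1, hZN', hYN', Matrix.add_mul, Matrix.add_mul]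
    have e2 : Z * N * Y = Z * (Y * N) + (-2 : ℂ) • (Z * Y) := by
      rw [Matrix.mul_assoc, hYN', Matrix.mul_add, Matrix.mul_smul]
    have e3 : Y * N * Z = Y * (Z * N) + (2 : ℂ) • (Y * Z) := by
      rw [Matrix.mul_assoc, hZN', Matrix.mul_add, Matrix.mul_smul]
    rw [e2, e3, Matrix.smul_mul, Matrix.smul_mul]
    module
  have h2 : Z *ᵥ (Y *ᵥ e) = br Z Y *ᵥ e := by
    rw [br, Matrix.sub_mulVec, ← Matrix.mulVec_mulVec, ← Matrix.mulVec_mulVec, he2 Z hZ hZN,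
      Matrix.mulVec_zero, sub_zero]
  rw [h2, hetr _ (hlie' _ hZ _ hY) h1]
  congr 1
  rw [← hQ]
  have h3 : Z * Q = 0 := kill hNN (hPc Z hZ) hPQ (c := 3) (by norm_num) (by
    rw [← Matrix.mul_assoc, hZN', Matrix.add_mul, Matrix.mul_assoc, hNQ, Matrix.smul_mul]
    module)
  have h4 : Y * (P - Q) = 0 := kill hNN (hPc Y hY) hPR (c := -3) (by norm_num) (by
    rw [← Matrix.mul_assoc, hYN', Matrix.add_mul, Matrix.mul_assoc, hNR, Matrix.smul_mul,
      Matrix.mul_neg]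
    module)
  have h5 : Y * P = Y * Q := by
    rw [Matrix.mul_sub, sub_eq_zero] at h4
    exact h4
  rw [br, Matrix.sub_mul, Matrix.mul_assoc Y, h3, Matrix.mul_zero, sub_zero, Matrix.mul_assoc,
    Matrix.mul_assoc, h5]

/-- Traces of eigenvectors. -/
lemma trace_eig (hPN : P * N = N * P) {M : Matrix ι ι ℂ} {c : ℂ} (hc : c ≠ 0)
    (hM : br N M = c • M) : (M * P).trace = 0 := by
  have h1 : (br N M * P).trace = 0 := by
    rw [br, Matrix.sub_mul, Matrix.trace_sub, sub_eq_zero]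
    calc (N * M * P).trace = (N * (M * P)).trace := by rw [Matrix.mul_assoc]
      _ = (M * P * N).trace := Matrix.trace_mul_comm _ _
      _ = (M * N * P).trace := by rw [Matrix.mul_assoc, hPN, Matrix.mul_assoc]
  rw [hM, Matrix.smul_mul, Matrix.trace_smul, smul_eq_mul] at h1
  exact (mul_eq_zero.1 h1).resolve_left hc

lemma br_mul' (x y : Matrix ι ι ℂ) : br N (x * y) = br N x * y + x * br N y := by
  simp only [br, Matrix.sub_mul, Matrix.mul_sub, Matrix.mul_assoc]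
  abel

/-- **Elements of degree minus two.** -/
theorem mem_minus (hle : h ≤ h') (hl : ∀ a ∈ h, ∀ b ∈ h, br a b ∈ h)
    (hlie' : ∀ a ∈ h', ∀ b ∈ h', br a b ∈ h') (D : PD h' z A) (hN : N ∈ h)
    (hPV : ∀ v, P *ᵥ v ∈ D.V) (hPv : ∀ v ∈ D.V, P *ᵥ v = v)
    (hPc : ∀ w ∈ h', P * w = w * P) (hPP : P * P = P) (hNN : N * N * P = P)
    (hf : ∀ w ∈ h', w * P = 0 → w = 0)
    (hpos : ∀ Y ∈ h', Y ≠ 0 → ∃ Z ∈ h', (Z * Y * P).trace ≠ 0)
    {𝓔 : Set (Matrix ι ι ℂ)} (hE : ∀ E ∈ 𝓔, ∀ w ∈ h', E * w = w * E)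
    (hEe : ∀ E ∈ 𝓔, ∀ (k : ℕ) (v : Fin k → D.V), ∃ c : ℂ, E *ᵥ D.pv v = c • D.pv v)
    {E₀ : Matrix ι ι ℂ}
    (hE0 : ∀ (k : ℕ) (v : Fin k → D.V), ((2⁻¹ : ℂ) • (P + N * P)).trace = k →
      E₀ *ᵥ D.pv v = D.pv v)
    (hd : ∀ S : Submodule ℂ (ι → ℂ), (∀ w ∈ h, ∀ v ∈ S, w *ᵥ v ∈ S) →
      (∀ E ∈ 𝓔, ∀ v ∈ S, E *ᵥ v ∈ S) → ∀ y ∈ h', ∀ v ∈ S, E₀ *ᵥ v = v → y *ᵥ v ∈ S)
    {X : Matrix ι ι ℂ} (hX : X ∈ h') (hXN : br N X = (-2 : ℂ) • X) : X ∈ h := by
  obtain ⟨k, v, he0, htrk, ⟨m, hm⟩, he2, hetr⟩ := exists_evec' D (hle hN) hPV hPv hPc hPP hNN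
  have hE0e := hE0 k v htrk
  have hEe' : ∀ E ∈ 𝓔, ∃ c : ℂ, E *ᵥ D.pv v = c • D.pv v := fun E hE => hEe E hE k v
  obtain ⟨e, he⟩ : ∃ e, e = D.pv v := ⟨_, rfl⟩
  rw [← he] at he0 hm he2 hetr hE0e
  have hPN := hPc N (hle hN)
  -- the elements of degree minus two
  let Hm : Submodule ℂ (Matrix ι ι ℂ) :=
    { carrier := {w | w ∈ h ∧ br N w = (-2 : ℂ) • w}
      add_mem' := by
        rintro a b ⟨h1, h2⟩ ⟨h3, h4⟩
        refine ⟨Submodule.add_mem _ h1 h3, ?_⟩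
        rw [← aN_apply, map_add, aN_apply, aN_apply, h2, h4, smul_add]
      zero_mem' := ⟨Submodule.zero_mem _, by rw [← aN_apply, map_zero, smul_zero]⟩
      smul_mem' := by
        rintro c a ⟨h1, h2⟩
        refine ⟨Submodule.smul_mem _ _ h1, ?_⟩
        rw [← aN_apply, map_smul, aN_apply, h2, smul_comm] }
  let ev : Matrix ι ι ℂ →ₗ[ℂ] (ι → ℂ) :=
    { toFun := fun w => w *ᵥ e
      map_add' := fun a b => Matrix.add_mulVec a b e
      map_smul' := fun c a => Matrix.smul_mulVec c a e }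
  have hev : ∀ w, ev w = w *ᵥ e := fun _ => rfl
  -- the bound
  let T : Submodule ℂ (ι → ℂ) := Submodule.span ℂ {e} ⊔ (Hm.map ev ⊔ TL N (m - 2))
  -- the module
  let W : Submodule ℂ (ι → ℂ) := sInf {S | e ∈ S ∧ ∀ y ∈ h, (br N y = 0 ∨
    br N y = (-2 : ℂ) • y) → ∀ v ∈ S, y *ᵥ v ∈ S}
  have hWe : e ∈ W := by
    rw [Submodule.mem_sInf]
    intro S hS
    exact hS.1
  have hWst : ∀ y ∈ h, (br N y = 0 ∨ br N y = (-2 : ℂ) • y) → ∀ v ∈ W, y *ᵥ v ∈ W := by
    intro y hy hyN v hv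
    rw [Submodule.mem_sInf] at hv ⊢
    intro S hS
    exact hS.2 y hy hyN v (hv S hS)
  have hWle : ∀ S : Submodule ℂ (ι → ℂ), e ∈ S → (∀ y ∈ h, (br N y = 0 ∨
    br N y = (-2 : ℂ) • y) → ∀ v ∈ S, y *ᵥ v ∈ S) → W ≤ S := fun S h1 h2 => sInf_le ⟨h1, h2⟩
  have heT : e ∈ T := Submodule.mem_sup_left (Submodule.mem_span_singleton_self e)
  have hWT : W ≤ T := by
    refine hWle _ heT fun y hy hyN v hv => ?_
    obtain ⟨v₁, hv₁, v', hv', rfl⟩ := Submodule.mem_sup.1 hv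
    obtain ⟨v₂, hv₂, v₃, hv₃, rfl⟩ := Submodule.mem_sup.1 hv'
    rw [Matrix.mulVec_add, Matrix.mulVec_add]
    refine Submodule.add_mem _ ?_ (Submodule.add_mem _ ?_ ?_)
    · obtain ⟨c, rfl⟩ := Submodule.mem_span_singleton.1 hv₁
      rw [Matrix.mulVec_smul]
      refine Submodule.smul_mem _ c ?_
      rcases hyN with hyN | hyN
      · rw [hetr y (hle hy) hyN]
        exact Submodule.smul_mem _ _ heT
      · exact Submodule.mem_sup_right (Submodule.mem_sup_left ⟨y, ⟨hy, hyN⟩, rfl⟩)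
    · obtain ⟨w, ⟨hw, hwN⟩, rfl⟩ := hv₂
      rw [hev]
      rcases hyN with hyN | hyN
      · have h1 : y *ᵥ (w *ᵥ e) = br y w *ᵥ e + w *ᵥ (y *ᵥ e) := by
          rw [br, Matrix.sub_mulVec, Matrix.mulVec_mulVec, Matrix.mulVec_mulVec]
          abel
        rw [h1, hetr y (hle hy) hyN, Matrix.mulVec_smul]
        refine Submodule.mem_sup_right (Submodule.mem_sup_left (Submodule.add_mem _
          ⟨br y w, ⟨hl y hy w hw, ?_⟩, rfl⟩ (Submodule.smul_mem _ _ ⟨w, ⟨hw, hwN⟩, rfl⟩)))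
        have h2 : br N (br y w) = br (br N y) w + br y (br N w) := by
          simp only [br, Matrix.sub_mul, Matrix.mul_sub, Matrix.mul_assoc]
          abel
        rw [h2, hyN, hwN]
        simp only [br, Matrix.zero_mul, Matrix.mul_zero, Matrix.mul_smul, Matrix.smul_mul]
        module
      · refine Submodule.mem_sup_right (Submodule.mem_sup_right
          (Submodule.subset_span ⟨m - 4, by linarith, ?_⟩))
        have hyN' := comm_of_br hyN
        have hwN' := comm_of_br hwN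
        calc N *ᵥ (y *ᵥ (w *ᵥ e)) = (N * y) *ᵥ (w *ᵥ e) := by rw [Matrix.mulVec_mulVec]
          _ = y *ᵥ ((N * w) *ᵥ e) + (-2 : ℂ) • (y *ᵥ (w *ᵥ e)) := by
              rw [hyN', Matrix.add_mulVec, Matrix.smul_mulVec, ← Matrix.mulVec_mulVec,
                Matrix.mulVec_mulVec e N w]
          _ = ((m - 4 : ℝ) : ℂ) • (y *ᵥ (w *ᵥ e)) := by
              rw [hwN', Matrix.add_mulVec, Matrix.smul_mulVec, ← Matrix.mulVec_mulVec, hm,
                Matrix.mulVec_add, Matrix.mulVec_smul, Matrix.mulVec_smul, Matrix.mulVec_smul]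
              push_cast
              module
    · refine Submodule.mem_sup_right (Submodule.mem_sup_right ?_)
      clear hv hv'
      induction hv₃ using Submodule.span_induction with
      | mem v hv =>
        obtain ⟨d, hd, hv⟩ := hv
        rcases hyN with hyN | hyN
        · refine Submodule.subset_span ⟨d, hd, ?_⟩
          have h4 : N * y = y * N := by
            rw [br, sub_eq_zero] at hyN
            exact hyN
          rw [Matrix.mulVec_mulVec, h4, ← Matrix.mulVec_mulVec, hv, Matrix.mulVec_smul]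
        · refine Submodule.subset_span ⟨d - 2, by linarith, ?_⟩
          have h4 := comm_of_br hyN
          rw [Matrix.mulVec_mulVec, h4, Matrix.add_mulVec, ← Matrix.mulVec_mulVec, hv,
            Matrix.mulVec_smul, Matrix.smul_mulVec]
          push_cast
          module
      | zero => rw [Matrix.mulVec_zero]; exact Submodule.zero_mem _
      | add u v _ _ hu hv => rw [Matrix.mulVec_add]; exact Submodule.add_mem _ hu hv
      | smul c u _ hu => rw [Matrix.mulVec_smul]; exact Submodule.smul_mem _ _ hu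
  have hW2 : ∀ z ∈ h, br N z = (2 : ℂ) • z → ∀ v ∈ W, z *ᵥ v ∈ W := by
    let S : Submodule ℂ (ι → ℂ) :=
      { carrier := {v | v ∈ W ∧ ∀ z ∈ h, br N z = (2 : ℂ) • z → z *ᵥ v ∈ W}
        add_mem' := by
          rintro a b ⟨h1, h2⟩ ⟨h3, h4⟩
          refine ⟨Submodule.add_mem _ h1 h3, fun z hz hzN => ?_⟩
          rw [Matrix.mulVec_add]
          exact Submodule.add_mem _ (h2 z hz hzN) (h4 z hz hzN)
        zero_mem' := ⟨Submodule.zero_mem _, fun z _ _ => by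
          rw [Matrix.mulVec_zero]; exact Submodule.zero_mem _⟩
        smul_mem' := by
          rintro c a ⟨h1, h2⟩
          refine ⟨Submodule.smul_mem _ _ h1, fun z hz hzN => ?_⟩
          rw [Matrix.mulVec_smul]
          exact Submodule.smul_mem _ _ (h2 z hz hzN) }
    have h1 : W ≤ S := by
      refine hWle S ⟨hWe, fun z hz hzN => by
        rw [he2 z (hle hz) hzN]; exact Submodule.zero_mem _⟩ ?_
      rintro y hy hyN v ⟨hv1, hv2⟩
      refine ⟨hWst y hy hyN v hv1, fun z hz hzN => ?_⟩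
      have h2 : z *ᵥ (y *ᵥ v) = br z y *ᵥ v + y *ᵥ (z *ᵥ v) := by
        rw [br, Matrix.sub_mulVec, Matrix.mulVec_mulVec, Matrix.mulVec_mulVec]
        abel
      rw [h2]
      refine Submodule.add_mem _ ?_ (hWst y hy hyN _ (hv2 z hz hzN))
      have h3 : br N (br z y) = br (br N z) y + br z (br N y) := by
        simp only [br, Matrix.sub_mul, Matrix.mul_sub, Matrix.mul_assoc]
        abel
      rcases hyN with hyN | hyN
      · refine hv2 _ (hl z hz y hy) ?_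
        rw [h3, hzN, hyN]
        simp only [br, Matrix.zero_mul, Matrix.mul_zero, Matrix.mul_smul, Matrix.smul_mul]
        module
      · refine hWst _ (hl z hz y hy) (Or.inl ?_) _ hv1
        rw [h3, hzN, hyN]
        simp only [br, Matrix.mul_smul, Matrix.smul_mul]
        module
    intro z hz hzN v hv
    exact (h1 hv).2 z hz hzN
  have hWh : ∀ y ∈ h, ∀ v ∈ W, y *ᵥ v ∈ W := by
    intro y hy v hv
    obtain ⟨a, ha, b, hb, c, hc, rfl, ha', hb', hc', -⟩ := exists_ad hle hl hlie' hN hPc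
      hNN hf hy
    rw [Matrix.add_mulVec, Matrix.add_mulVec]
    exact Submodule.add_mem _ (Submodule.add_mem _ (hWst a ha (Or.inr ha') v hv)
      (hWst b hb (Or.inl hb') v hv)) (hW2 c hc hc' v hv)
  have hWE : ∀ E ∈ 𝓔, ∀ v ∈ W, E *ᵥ v ∈ W := by
    intro E hE'
    let S : Submodule ℂ (ι → ℂ) :=
      { carrier := {v | v ∈ W ∧ E *ᵥ v ∈ W}
        add_mem' := by
          rintro a b ⟨h1, h2⟩ ⟨h3, h4⟩
          refine ⟨Submodule.add_mem _ h1 h3, ?_⟩
          rw [Matrix.mulVec_add]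
          exact Submodule.add_mem _ h2 h4
        zero_mem' := ⟨Submodule.zero_mem _, by
          rw [Matrix.mulVec_zero]; exact Submodule.zero_mem _⟩
        smul_mem' := by
          rintro c a ⟨h1, h2⟩
          refine ⟨Submodule.smul_mem _ _ h1, ?_⟩
          rw [Matrix.mulVec_smul]
          exact Submodule.smul_mem _ _ h2 }
    have h1 : W ≤ S := by
      refine hWle S ⟨hWe, ?_⟩ ?_
      · obtain ⟨c, hc⟩ := hEe' E hE'
        rw [he, hc, ← he]
        exact Submodule.smul_mem _ _ hWe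
      · rintro y hy hyN v ⟨hv1, hv2⟩
        refine ⟨hWst y hy hyN v hv1, ?_⟩
        rw [Matrix.mulVec_mulVec, hE E hE' y (hle hy), ← Matrix.mulVec_mulVec]
        exact hWst y hy hyN _ hv2
    exact fun v hv => (h1 hv).2
  -- the vector
  have hXW := hWT (hd W hWh hWE X hX e hWe hE0e)
  obtain ⟨v₁, hv₁, v', hv', hsum⟩ := Submodule.mem_sup.1 hXW
  obtain ⟨v₂, hv₂, t, ht, rfl⟩ := Submodule.mem_sup.1 hv'
  obtain ⟨c, rfl⟩ := Submodule.mem_span_singleton.1 hv₁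
  obtain ⟨Y, ⟨hY, hYN⟩, rfl⟩ := hv₂
  rw [hev] at hsum
  have heig : ∀ w, br N w = (-2 : ℂ) • w → N *ᵥ (w *ᵥ e) = ((m - 2 : ℝ) : ℂ) • (w *ᵥ e) := by
    intro w hw
    rw [Matrix.mulVec_mulVec, comm_of_br hw, Matrix.add_mulVec, ← Matrix.mulVec_mulVec, hm,
      Matrix.mulVec_smul, Matrix.smul_mulVec]
    push_cast
    module
  have hTL : ∀ {a b : ℝ}, a ≤ b → TL N a ≤ TL N b := by
    intro a b hab
    refine Submodule.span_mono ?_
    rintro w ⟨d, hd, hw⟩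
    exact ⟨d, lt_of_lt_of_le hd hab, hw⟩
  have hce : c • e = 0 := by
    refine TL_zero (x := N) (d := m) ?_ (by rw [Matrix.mulVec_smul, hm, smul_comm])
    have h1 : c • e = X *ᵥ e - Y *ᵥ e - t := by rw [← hsum]; abel
    rw [h1]
    refine Submodule.sub_mem _ (Submodule.sub_mem _ ?_ ?_) (hTL (by linarith) ht)
    · exact Submodule.subset_span ⟨m - 2, by linarith, heig X hXN⟩
    · exact Submodule.subset_span ⟨m - 2, by linarith, heig Y hYN⟩
  obtain ⟨R, hR⟩ : ∃ R, R = X - Y := ⟨_, rfl⟩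
  have hRh : R ∈ h' := by rw [hR]; exact Submodule.sub_mem _ hX (hle hY)
  have hRN : br N R = (-2 : ℂ) • R := by
    rw [hR, ← aN_apply, map_sub, aN_apply, aN_apply, hXN, hYN, smul_sub]
  have hRe : R *ᵥ e = 0 := by
    refine TL_zero (x := N) (d := m - 2) ?_ (heig R hRN)
    have h1 : R *ᵥ e = t := by
      rw [hR, Matrix.sub_mulVec, ← hsum, hce]
      abel
    rw [h1]
    exact ht
  have hR0 : R = 0 := by
    by_contra hne
    obtain ⟨Z, hZ, htr⟩ := hpos R hRh hne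
    obtain ⟨a, ha, b, hb, c, hc, rfl, ha', hb', hc', -⟩ := exists_ad (h := h') (h' := h') le_rfl
      hlie' hlie' (hle hN) hPc hNN hf hZ
    apply htr
    have h1 : (a * R * P).trace = 0 := trace_eig hPN (c := -4) (by norm_num) (by
      rw [br_mul', ha', hRN, Matrix.smul_mul, Matrix.mul_smul]
      module)
    have h2 : (b * R * P).trace = 0 := trace_eig hPN (c := -2) (by norm_num) (by
      rw [br_mul', hb', hRN, Matrix.zero_mul, Matrix.mul_smul, zero_add])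
    have h3 : (c * R * P).trace = 0 := by
      have h4 := trace_formula hlie' hPc hPP hNN (hle hN) he2 hetr hc hc' hRh hRN
      rw [hRe, Matrix.mulVec_zero] at h4
      exact (smul_eq_zero.1 h4.symm).resolve_right he0
    rw [Matrix.add_mul, Matrix.add_mul, Matrix.add_mul, Matrix.add_mul, Matrix.trace_add,
      Matrix.trace_add, h1, h2, h3, add_zero, add_zero]
  rw [hR, sub_eq_zero] at hR0
  rw [hR0]
  exact hY

/-- **Brackets.** -/
theorem br_mem (hle : h ≤ h') (hl : ∀ a ∈ h, ∀ b ∈ h, br a b ∈ h)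
    (hlie' : ∀ a ∈ h', ∀ b ∈ h', br a b ∈ h') (D : PD h' z A) (hN : N ∈ h)
    (hPV : ∀ v, P *ᵥ v ∈ D.V) (hPv : ∀ v ∈ D.V, P *ᵥ v = v)
    (hPc : ∀ w ∈ h', P * w = w * P) (hPP : P * P = P) (hNN : N * N * P = P)
    (hf : ∀ w ∈ h', w * P = 0 → w = 0)
    (hpos : ∀ Y ∈ h', Y ≠ 0 → ∃ Z ∈ h', (Z * Y * P).trace ≠ 0)
    {𝓔 : Set (Matrix ι ι ℂ)} (hE : ∀ E ∈ 𝓔, ∀ w ∈ h', E * w = w * E)
    (hEe : ∀ E ∈ 𝓔, ∀ (k : ℕ) (v : Fin k → D.V), ∃ c : ℂ, E *ᵥ D.pv v = c • D.pv v)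
    {E₀ : Matrix ι ι ℂ}
    (hE0 : ∀ (k : ℕ) (v : Fin k → D.V), ((2⁻¹ : ℂ) • (P + N * P)).trace = k →
      E₀ *ᵥ D.pv v = D.pv v)
    (hE0' : ∀ (k : ℕ) (v : Fin k → D.V), ((2⁻¹ : ℂ) • (P + -N * P)).trace = k →
      E₀ *ᵥ D.pv v = D.pv v)
    (hd : ∀ S : Submodule ℂ (ι → ℂ), (∀ w ∈ h, ∀ v ∈ S, w *ᵥ v ∈ S) →
      (∀ E ∈ 𝓔, ∀ v ∈ S, E *ᵥ v ∈ S) → ∀ y ∈ h', ∀ v ∈ S, E₀ *ᵥ v = v → y *ᵥ v ∈ S)
    {X : Matrix ι ι ℂ} (hX : X ∈ h') : br N X ∈ h := by
  obtain ⟨a, ha, b, hb, c, hc, -, ha', hb', hc', h1⟩ := exists_ad (h := h') (h' := h') le_rfl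
    hlie' hlie' (hle hN) hPc hNN hf hX
  rw [h1]
  refine Submodule.sub_mem _ (Submodule.smul_mem _ _ ?_) (Submodule.smul_mem _ _ ?_)
  · refine mem_minus (N := -N) hle hl hlie' D (Submodule.neg_mem _ hN) hPV hPv hPc hPP ?_ hf hpos
      hE hEe hE0' hd hc ?_
    · rw [neg_mul_neg, hNN]
    · have h2 : br (-N) c = -(br N c) := by
        simp only [br, Matrix.neg_mul, Matrix.mul_neg]
        abel
      rw [h2, hc', neg_smul]
  · exact mem_minus hle hl hlie' D hN hPV hPv hPc hPP hNN hf hpos hE hEe hE0 hd ha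
      ha'

end Pool.Agent.N996.TQ
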