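import Pool.Agent.N996.TQ.Ss

/-!
# Partial traces
-/

set_option linter.unusedSectionVars false

namespace Pool.Agent.N996.TQ

open Matrix

section

variable {K : Type} [Field K] [CharZero K] {ι : Type} [Fintype ι] [DecidableEq ι]
  {I : Type} {g g' : I → Matrix ι ι K}

/-- **Retractions from complements in the space of matrices.** -/
theorem exists_retr (hgg : ∀ i, g i * g' i = 1)
    (hss : ∀ S : Submodule K (Matrix ι ι K), (∀ i, ∀ x ∈ S, g i * x * g' i ∈ S) →
      ∃ S' : Submodule K (Matrix ι ι K), (∀ i, ∀ x ∈ S', g i * x * g' i ∈ S') ∧ IsCompl S S')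
    (S : Submodule K (ι → K)) (hS : ∀ i, ∀ v ∈ S, g i *ᵥ v ∈ S) :
    ∃ R : Matrix ι ι K, (∀ v, R *ᵥ v ∈ S) ∧ (∀ v ∈ S, R *ᵥ v = v) ∧
      ∀ i, g i * R = R * g i := by
  rcases isEmpty_or_nonempty ι with he | he
  · refine ⟨1, fun v => ?_, fun v _ => Matrix.one_mulVec v, fun i => by
      rw [Matrix.mul_one, Matrix.one_mul]⟩
    rw [Subsingleton.elim ((1 : Matrix ι ι K) *ᵥ v) 0]
    exact Submodule.zero_mem _
  let F : Submodule K (Matrix ι ι K) :=
    { carrier := {x | ∀ v, x *ᵥ v ∈ S}
      add_mem' := fun {a b} ha hb v => by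
        rw [Matrix.add_mulVec]; exact Submodule.add_mem _ (ha v) (hb v)
      zero_mem' := fun v => by rw [Matrix.zero_mulVec]; exact Submodule.zero_mem _
      smul_mem' := fun c a ha v => by
        rw [Matrix.smul_mulVec]; exact Submodule.smul_mem _ c (ha v) }
  have hF : ∀ i, ∀ x ∈ F, g i * x * g' i ∈ F := by
    intro i x hx v
    rw [← Matrix.mulVec_mulVec, ← Matrix.mulVec_mulVec]
    exact hS i _ (hx _)
  obtain ⟨F', hF', hc⟩ := hss F hF
  obtain ⟨π, hπ⟩ : ∃ π, π = Submodule.projection F F' hc := ⟨_, rfl⟩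
  have h1 : ∀ x, π x ∈ F := fun x => by rw [hπ]; exact Submodule.projection_apply_mem hc x
  have h2 : ∀ x ∈ F, π x = x := fun x hx => by
    rw [hπ]; exact Submodule.projection_apply_left hc ⟨x, hx⟩
  have h3 : ∀ x ∈ F', π x = 0 := fun x hx => by
    rw [hπ]; exact (Submodule.projection_apply_eq_zero_iff hc).2 hx
  have h4 : ∀ x, x - π x ∈ F' := fun x => by
    refine (Submodule.projection_apply_eq_zero_iff hc).1 ?_
    rw [← hπ, map_sub, h2 _ (h1 x), sub_self]
  have h5 : ∀ i x, π (g i * x * g' i) = g i * π x * g' i := by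
    intro i x
    have h6 : g i * x * g' i = g i * π x * g' i + g i * (x - π x) * g' i := by
      rw [Matrix.mul_sub, Matrix.sub_mul]
      abel
    rw [h6, map_add, h2 _ (hF i _ (h1 x)), h3 _ (hF' i _ (h4 x)), add_zero]
  obtain ⟨c, hcd⟩ : ∃ c : K, c = (Fintype.card ι : K)⁻¹ := ⟨_, rfl⟩
  let vm : ι → ((ι → K) →ₗ[K] Matrix ι ι K) := fun j =>
    { toFun := fun v => Matrix.vecMulVec v (Pi.single j 1)
      map_add' := fun a b => by
        ext x y; simp [Matrix.vecMulVec_apply, add_mul]
      map_smul' := fun c a => by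
        ext x y; simp [Matrix.vecMulVec_apply, mul_assoc] }
  let ev : ι → (Matrix ι ι K →ₗ[K] (ι → K)) := fun j =>
    { toFun := fun M => M *ᵥ Pi.single j 1
      map_add' := fun a b => Matrix.add_mulVec a b _
      map_smul' := fun c a => Matrix.smul_mulVec c a _ }
  let Rl : (ι → K) →ₗ[K] (ι → K) := c • ∑ j, (ev j) ∘ₗ π ∘ₗ (vm j)
  have hR : ∀ v, LinearMap.toMatrix' Rl *ᵥ v =
      c • ∑ j, π (Matrix.vecMulVec v (Pi.single j 1)) *ᵥ Pi.single j 1 := by
    intro v
    rw [LinearMap.toMatrix'_mulVec]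
    simp only [Rl, LinearMap.smul_apply, LinearMap.sum_apply, LinearMap.comp_apply]
    rfl
  refine ⟨LinearMap.toMatrix' Rl, fun v => ?_, fun v hv => ?_, fun i => ?_⟩
  · rw [hR]
    exact Submodule.smul_mem _ _ (Submodule.sum_mem _ fun j _ => h1 _ _)
  · rw [hR]
    have h6 : ∀ j : ι, π (Matrix.vecMulVec v (Pi.single j 1)) *ᵥ Pi.single j 1 = v := by
      intro j
      have h7 : Matrix.vecMulVec v (Pi.single j (1 : K)) ∈ F := by
        intro w
        have h8 : Matrix.vecMulVec v (Pi.single j (1 : K)) *ᵥ w = w j • v := by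
          ext x
          rw [Matrix.mulVec, dotProduct, Finset.sum_eq_single j]
          · simp [Matrix.vecMulVec_apply, mul_comm]
          · intro b _ hb
            simp [Matrix.vecMulVec_apply, Pi.single_eq_of_ne hb]
          · intro h; exact absurd (Finset.mem_univ _) h
        rw [h8]
        exact Submodule.smul_mem _ _ hv
      rw [h2 _ h7]
      ext x
      rw [Matrix.mulVec_single_one]
      simp [Matrix.vecMulVec_apply, Matrix.col_apply]
    simp only [h6]
    rw [Finset.sum_const, Finset.card_univ, ← Nat.cast_smul_eq_nsmul K, smul_smul, hcd,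
      inv_mul_cancel₀ (Nat.cast_ne_zero.2 Fintype.card_ne_zero), one_smul]
  · apply Matrix.mulVec_injective
    funext v
    rw [← Matrix.mulVec_mulVec, ← Matrix.mulVec_mulVec, hR, hR, Matrix.mulVec_smul]
    congr 1
    have hg'g : g' i * g i = 1 := mul_eq_one_comm.1 (hgg i)
    have h6 : ∀ j : ι, Matrix.vecMulVec (g i *ᵥ v) (Pi.single j (1 : K)) =
        g i * (∑ k, g i j k • Matrix.vecMulVec v (Pi.single k 1)) * g' i := by
      intro j
      have h7 : (∑ k, g i j k • Matrix.vecMulVec v (Pi.single k (1 : K))) =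
          Matrix.vecMulVec v (Pi.single j (1 : K) ᵥ* g i) := by
        ext x y
        rw [Matrix.sum_apply, Finset.sum_eq_single y]
        · simp [Matrix.vecMulVec_apply, mul_comm]
        · intro b _ hb
          simp [Matrix.vecMulVec_apply, Pi.single_eq_of_ne (Ne.symm hb)]
        · intro h; exact absurd (Finset.mem_univ _) h
      rw [h7, Matrix.mul_vecMulVec, Matrix.vecMulVec_mul, Matrix.vecMul_vecMul, hgg,
        Matrix.vecMul_one]
    simp only [h6, h5, map_sum, map_smul]
    have h8 : ∀ k : ι, (∑ j, g i j k • Pi.single j (1 : K)) = g i *ᵥ Pi.single k 1 := by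
      intro k
      ext x
      rw [Matrix.mulVec_single_one, Finset.sum_apply, Finset.sum_eq_single x]
      · simp [Matrix.col_apply]
      · intro b _ hb
        simp [Pi.single_eq_of_ne (Ne.symm hb)]
      · intro h; exact absurd (Finset.mem_univ _) h
    have h9 : ∀ j : ι, (g i * (∑ k, g i j k • π (Matrix.vecMulVec v (Pi.single k 1))) * g' i) *ᵥ
        Pi.single j (1 : K) = ∑ k, g i *ᵥ (π (Matrix.vecMulVec v (Pi.single k 1)) *ᵥ
          (g' i *ᵥ (g i j k • Pi.single j (1 : K)))) := by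
      intro j
      rw [← Matrix.mulVec_mulVec, ← Matrix.mulVec_mulVec, Matrix.sum_mulVec, Matrix.mulVec_sum]
      refine Finset.sum_congr rfl fun k _ => ?_
      rw [Matrix.smul_mulVec, Matrix.mulVec_smul (g' i), Matrix.mulVec_smul (π _)]
    simp only [h9]
    rw [Finset.sum_comm, Matrix.mulVec_sum]
    refine Finset.sum_congr rfl fun k _ => ?_
    rw [← Matrix.mulVec_sum, ← Matrix.mulVec_sum, ← Matrix.mulVec_sum, h8,
      Matrix.mulVec_mulVec (Pi.single k (1 : K)) (g' i) (g i), hg'g, Matrix.one_mulVec]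

end

end Pool.Agent.N996.TQ
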