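import Mathlib

/-!
# Semisimplicity by the socle
-/

set_option linter.unusedSectionVars false

namespace Pool.Agent.N996.TQ

open Module

section

variable {K V : Type} [Field K] [AddCommGroup V] [Module K V] [FiniteDimensional K V]
  {X : Set (Module.End K V)} {Gs : Set (V ≃ₗ[K] V)}

lemma conj_mem (hG : ∀ γ ∈ Gs, ∀ x ∈ X, γ.toLinearMap * x * γ.symm.toLinearMap ∈ X)
    {γ : V ≃ₗ[K] V} (hγ : γ ∈ Gs) {a : Module.End K V} (ha : a ∈ Algebra.adjoin K X) :
    γ.toLinearMap * a * γ.symm.toLinearMap ∈ Algebra.adjoin K X := by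
  have h1 : γ.symm.toLinearMap * γ.toLinearMap = 1 := by
    ext v; simp
  have h2 : γ.toLinearMap * γ.symm.toLinearMap = 1 := by
    ext v; simp
  induction ha using Algebra.adjoin_induction with
  | mem x hx => exact Algebra.subset_adjoin (hG γ hγ x hx)
  | algebraMap r =>
    rw [mul_assoc, Algebra.commutes, ← mul_assoc, h2, one_mul]
    exact Subalgebra.algebraMap_mem _ r
  | add a b _ _ ha hb =>
    rw [mul_add, add_mul]
    exact Subalgebra.add_mem _ ha hb
  | mul a b _ _ ha hb =>
    have h3 : γ.toLinearMap * (a * b) * γ.symm.toLinearMap =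
        (γ.toLinearMap * a * γ.symm.toLinearMap) * (γ.toLinearMap * b * γ.symm.toLinearMap) := by
      calc γ.toLinearMap * (a * b) * γ.symm.toLinearMap =
          γ.toLinearMap * a * (1 * b) * γ.symm.toLinearMap := by rw [one_mul]; simp only [mul_assoc]
        _ = _ := by rw [← h1]; simp only [mul_assoc]
    rw [h3]
    exact Subalgebra.mul_mem _ ha hb

/-- The translate of a submodule. -/
def twS (hG : ∀ γ ∈ Gs, ∀ x ∈ X, γ.toLinearMap * x * γ.symm.toLinearMap ∈ X)
    {γ : V ≃ₗ[K] V} (hγ : γ ∈ Gs) (S : Submodule (Algebra.adjoin K X) V) :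
    Submodule (Algebra.adjoin K X) V where
  carrier := {v | γ v ∈ S}
  add_mem' {a b} ha hb := by
    change γ (a + b) ∈ S
    rw [map_add]
    exact Submodule.add_mem _ ha hb
  zero_mem' := by
    change γ 0 ∈ S
    rw [map_zero]
    exact Submodule.zero_mem _
  smul_mem' a v hv := by
    change γ (a • v) ∈ S
    have h1 := S.smul_mem ⟨_, conj_mem hG hγ a.2⟩ hv
    have h2 : (⟨γ.toLinearMap * (a : Module.End K V) * γ.symm.toLinearMap,
        conj_mem hG hγ a.2⟩ : Algebra.adjoin K X) • γ v = γ (a • v) := by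
      change γ ((a : Module.End K V) (γ.symm (γ v))) = γ ((a : Module.End K V) v)
      rw [LinearEquiv.symm_apply_apply]
    rwa [h2] at h1

/-- The translation as an automorphism of the lattice. -/
def twO (hG : ∀ γ ∈ Gs, ∀ x ∈ X, γ.toLinearMap * x * γ.symm.toLinearMap ∈ X)
    (hs : ∀ γ ∈ Gs, γ.symm ∈ Gs) {γ : V ≃ₗ[K] V} (hγ : γ ∈ Gs) :
    Submodule (Algebra.adjoin K X) V ≃o Submodule (Algebra.adjoin K X) V where
  toFun := twS hG hγ
  invFun := twS hG (hs γ hγ)
  left_inv S := by
    ext v
    change γ (γ.symm v) ∈ S ↔ v ∈ S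
    rw [LinearEquiv.apply_symm_apply]
  right_inv S := by
    ext v
    change γ.symm (γ v) ∈ S ↔ v ∈ S
    rw [LinearEquiv.symm_apply_apply]
  map_rel_iff' {S T} := by
    constructor
    · intro h v hv
      have h1 : γ.symm v ∈ twS hG hγ S := by
        change γ (γ.symm v) ∈ S
        rw [LinearEquiv.apply_symm_apply]
        exact hv
      have h2 : γ (γ.symm v) ∈ T := h h1
      rwa [LinearEquiv.apply_symm_apply] at h2
    · intro h v hv
      exact h hv

/-- Stable subspaces as submodules. -/
def toSub (C : Submodule K V) (hC : ∀ x ∈ X, ∀ v ∈ C, x v ∈ C) :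
    Submodule (Algebra.adjoin K X) V where
  carrier := C
  add_mem' ha hb := Submodule.add_mem _ ha hb
  zero_mem' := Submodule.zero_mem _
  smul_mem' a v hv := by
    obtain ⟨a, ha⟩ := a
    change a v ∈ C
    induction ha using Algebra.adjoin_induction generalizing v with
    | mem x hx => exact hC x hx v hv
    | algebraMap r =>
      rw [Module.algebraMap_end_apply]
      exact Submodule.smul_mem _ r hv
    | add a b _ _ ha hb =>
      rw [LinearMap.add_apply]
      exact Submodule.add_mem _ (ha v hv) (hb v hv)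
    | mul a b _ _ ha hb => exact ha _ (hb v hv)

/-- The submodule as a subspace. -/
def toK (S : Submodule (Algebra.adjoin K X) V) : Submodule K V where
  carrier := S
  add_mem' ha hb := Submodule.add_mem _ ha hb
  zero_mem' := Submodule.zero_mem _
  smul_mem' r v hv := by
    have h1 := S.smul_mem (algebraMap K (Algebra.adjoin K X) r) hv
    have h2 : (algebraMap K (Algebra.adjoin K X) r) • v = r • v := by
      change (algebraMap K (Module.End K V) r) v = r • v
      rw [Module.algebraMap_end_apply]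
    rwa [h2] at h1

/-- **Semisimplicity.** -/
theorem semisimple (hG : ∀ γ ∈ Gs, ∀ x ∈ X, γ.toLinearMap * x * γ.symm.toLinearMap ∈ X)
    (hs : ∀ γ ∈ Gs, γ.symm ∈ Gs)
    (hc : ∀ S : Submodule K V, (∀ x ∈ X, ∀ v ∈ S, x v ∈ S) → (∀ γ ∈ Gs, ∀ v ∈ S, γ v ∈ S) →
      ∃ C : Submodule K V, (∀ x ∈ X, ∀ v ∈ C, x v ∈ C) ∧ IsCompl S C) :
    IsSemisimpleModule (Algebra.adjoin K X) V := by
  haveI hart : IsArtinian (Algebra.adjoin K X) V := by
    haveI : IsScalarTower K (Algebra.adjoin K X) V := ⟨fun r a v => rfl⟩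
    exact isArtinian_of_tower K inferInstance
  have hat : IsAtomic (Submodule (Algebra.adjoin K X) V) := inferInstance
  obtain ⟨soc, hsoc⟩ : ∃ soc, soc = sSup {S : Submodule (Algebra.adjoin K X) V | IsAtom S} :=
    ⟨_, rfl⟩
  have hinv : ∀ γ ∈ Gs, ∀ v ∈ soc, γ v ∈ soc := by
    intro γ hγ v hv
    have h1 : twO hG hs hγ soc = soc := by
      rw [hsoc, OrderIso.map_sSup, sSup_eq_iSup]
      apply le_antisymm
      · refine iSup_le fun S => iSup_le fun hS => ?_
        exact le_iSup_of_le (twO hG hs hγ S)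
          (le_iSup_of_le ((OrderIso.isAtom_iff (twO hG hs hγ) S).2 hS) le_rfl)
      · refine iSup_le fun S => iSup_le fun hS => ?_
        refine le_iSup_of_le ((twO hG hs hγ).symm S)
          (le_iSup_of_le ((OrderIso.isAtom_iff (twO hG hs hγ).symm S).2 hS) ?_)
        rw [OrderIso.apply_symm_apply]
    rw [← h1] at hv
    exact hv
  obtain ⟨C, hC, hcompl⟩ := hc (toK soc) (fun x hx v hv =>
    soc.smul_mem ⟨x, Algebra.subset_adjoin hx⟩ hv) hinv
  have htop : soc = ⊤ := by
    have h1 : toSub C hC = ⊥ := by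
      rcases eq_bot_or_exists_atom_le (toSub C hC) with h | ⟨S, hS, hSC⟩
      · exact h
      · exfalso
        have h2 : S ≤ soc := by rw [hsoc]; exact le_sSup hS
        apply hS.1
        rw [eq_bot_iff]
        intro v hv
        have h3 : v ∈ toK soc ⊓ C := ⟨h2 hv, hSC hv⟩
        rw [hcompl.inf_eq_bot] at h3
        exact h3
    have h2 : C = ⊥ := by
      rw [eq_bot_iff]
      intro v hv
      have h3 : v ∈ toSub C hC := hv
      rw [h1] at h3
      exact h3
    have h3 := hcompl.sup_eq_top
    rw [h2, sup_bot_eq] at h3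
    rw [eq_top_iff]
    intro v _
    have h4 : v ∈ toK soc := by rw [h3]; exact Submodule.mem_top
    exact h4
  refine IsSemisimpleModule.of_sSup_simples_eq_top ?_
  rw [← htop, hsoc]
  congr 1
  ext S
  exact isSimpleModule_iff_isAtom

/-- **Density.** -/
theorem density (hG : ∀ γ ∈ Gs, ∀ x ∈ X, γ.toLinearMap * x * γ.symm.toLinearMap ∈ X)
    (hs : ∀ γ ∈ Gs, γ.symm ∈ Gs)
    (hc : ∀ S : Submodule K V, (∀ x ∈ X, ∀ v ∈ S, x v ∈ S) → (∀ γ ∈ Gs, ∀ v ∈ S, γ v ∈ S) →
      ∃ C : Submodule K V, (∀ x ∈ X, ∀ v ∈ C, x v ∈ C) ∧ IsCompl S C)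
    {y : Module.End K V} (hy : ∀ x : Module.End K V, (∀ a ∈ X, x * a = a * x) → y * x = x * y) :
    y ∈ Algebra.adjoin K X := by
  haveI := semisimple hG hs hc
  have hlin : ∀ (e : Module.End (Algebra.adjoin K X) V) (v : V), y (e v) = e (y v) := by
    intro e v
    let x : Module.End K V :=
      { toFun := e
        map_add' := map_add e
        map_smul' := by
          intro r v
          have h2 : ∀ v : V, r • v = (algebraMap K (Algebra.adjoin K X) r) • v := by
            intro v
            change r • v = (algebraMap K (Module.End K V) r) v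
            rw [Module.algebraMap_end_apply]
          rw [h2, map_smul, RingHom.id_apply, ← h2] }
    have h1 := hy x (by
      intro a ha
      refine LinearMap.ext fun v => ?_
      exact map_smul e (⟨a, Algebra.subset_adjoin ha⟩ : Algebra.adjoin K X) v)
    exact congrArg (fun f : Module.End K V => f v) h1
  let f : Module.End (Module.End (Algebra.adjoin K X) V) V :=
    { toFun := y
      map_add' := map_add y
      map_smul' := fun e v => hlin e v }
  classical
  obtain ⟨s, hs⟩ : ∃ s : Finset V, Submodule.span K (s : Set V) = ⊤ :=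
    Module.Finite.fg_top
  obtain ⟨r, hr⟩ := jacobson_density f s
  have h1 : y = (r : Module.End K V) := by
    refine LinearMap.ext_on hs fun m hm => ?_
    exact hr m hm
  rw [h1]
  exact r.2

end

end Pool.Agent.N996.TQ
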